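import Pool.Agent.Q49.CO.Hyp5

set_option autoImplicit false
set_option linter.unusedSectionVars false
set_option linter.unusedVariables false

/-! # The motivic zeta functions of `∑ y_j f_j` -/

namespace Pool.Agent.Q49.CO

open MvPolynomial Pool.Agent.W428.MOT Pool.Agent.TH192.MT Pool.Agent.TH192.DT

section series

variable {R : Type} [CommRing R]

/-- `∑_{i ≥ 1} v ^ i T ^ i` -/
noncomputable def gG (v : R) : PowerSeries R := PowerSeries.mk fun i => if i = 0 then 0 else v ^ i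

theorem gG_eq (v : R) : gG v = PowerSeries.C v * PowerSeries.X +
    PowerSeries.C (v ^ 1) * PowerSeries.X ^ 1 * gG v := by
  ext N
  have e1 : PowerSeries.C (v ^ 1) * PowerSeries.X ^ 1 * gG v =
      PowerSeries.C v * (PowerSeries.X * gG v) := by rw [pow_one, pow_one, mul_assoc]
  rw [e1, map_add, PowerSeries.coeff_C_mul, PowerSeries.coeff_C_mul]
  rcases N with _ | N
  · rw [PowerSeries.coeff_zero_X_mul, mul_zero, add_zero, PowerSeries.coeff_zero_X, mul_zero]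
    simp [gG]
  · rw [PowerSeries.coeff_succ_X_mul, PowerSeries.coeff_X]
    simp only [gG, PowerSeries.coeff_mk]
    rcases N with _ | N
    · simp
    · rw [if_neg (by omega), if_neg (by omega), if_neg (by omega)]
      ring

theorem gG_mem (u : Rˣ) {D : Set (ℤ × ℤ)} (hD : (-1, 1) ∈ D) :
    gG ((u⁻¹ : Rˣ) : R) ∈ ratU u D :=
  geo_solve u (ν := 1) (N := 1) one_pos hD _ _ (Subalgebra.mul_mem _ (rat_C u _) (rat_X u))
    (gG_eq _)

end series

section zu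

variable {K : Type} [Field K] {R : Type} [CommRing R] (M : Meas K R) {σ J : Type} [Fintype σ]
  [Fintype J] (f : J → MvPolynomial σ K) (y : J → K) {W : Set (Pt K σ)}
  {v : R} (hv : M.L * v = 1)
include hv

theorem zu_eq {E : Set (AlgebraicClosure K)} (hE : CE E) (h0 : (0 : AlgebraicClosure K) ∉ E)
    {ε : R} (hε : Eps M v E ε) (hW : Constr W) :
    (PowerSeries.mk fun N => M.χ _ (JetS (uni f) (WY y W) E N) *
      v ^ (Fintype.card (J ⊕ σ) * N) * v ^ Fintype.card σ) =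
      ZA M v f (lsy f y) E W + PowerSeries.C ε * (gG v * ZB M v f (lsy f y) W) := by
  ext N
  rw [PowerSeries.coeff_mk, chi_jets M f y hv hE h0 hε hW N, map_add, PowerSeries.coeff_C_mul,
    mul_comm (gG v), PowerSeries.coeff_mul, Finset.Nat.sum_antidiagonal_eq_sum_range_succ_mk,
    Finset.sum_range_succ, Nat.sub_self]
  have h1 : PowerSeries.coeff 0 (gG v) = 0 := by simp [gG]
  rw [h1, mul_zero, add_zero, Finset.mul_sum]
  congr 1
  · simp only [ZA, PowerSeries.coeff_mk]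
  · refine Finset.sum_congr rfl fun k hk => ?_
    have h2 : N - k ≠ 0 := by have := Finset.mem_range.1 hk; omega
    simp only [ZB, gG, PowerSeries.coeff_mk]
    rw [if_neg h2]
    ring

end zu

section final

variable {σ J : Type} [Fintype σ] [Fintype J]

theorem WY_pt (y : J → ℂ) (x : σ → ℂ) :
    WY y ({fun i => algebraMap ℂ (AlgebraicClosure ℂ) (x i)} : Set (Pt ℂ σ)) =
      {fun i => algebraMap ℂ (AlgebraicClosure ℂ) (Sum.elim y x i)} := by
  ext z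
  unfold WY
  rw [Set.mem_ofPred_eq, Set.mem_singleton_iff, Set.mem_singleton_iff]
  constructor
  · rintro ⟨h1, h2⟩
    funext i
    rcases i with j | i
    · exact h1 j
    · exact congrFun h2 i
  · intro h
    exact ⟨fun j => congrFun h (Sum.inl j), funext fun i => congrFun h (Sum.inr i)⟩

theorem WY_zero : WY (0 : J → ℂ) ({0} : Set (Pt ℂ σ)) = {0} := by
  ext z
  unfold WY
  rw [Set.mem_ofPred_eq, Set.mem_singleton_iff, Set.mem_singleton_iff]
  constructor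
  · rintro ⟨h1, h2⟩
    funext i
    rcases i with j | i
    · rw [h1 j]
      exact map_zero _
    · exact congrFun h2 i
  · rintro rfl
    exact ⟨fun j => (map_zero _).symm, rfl⟩

/-- removing the term of degree zero -/
theorem mem_tail {u : (MK ℂ)ˣ} {D : Set (ℤ × ℤ)} (a : ℕ → MK ℂ)
    (h : PowerSeries.mk a ∈ ratU u D) :
    (PowerSeries.mk fun N => if N = 0 then 0 else a N) ∈ ratU u D := by
  have h1 : (PowerSeries.mk fun N => if N = 0 then 0 else a N) =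
      PowerSeries.mk a - PowerSeries.C (a 0) := by
    ext N
    rw [map_sub, PowerSeries.coeff_mk, PowerSeries.coeff_mk, PowerSeries.coeff_C]
    rcases N with _ | N
    · simp
    · simp
  rw [h1]
  exact Subalgebra.sub_mem _ h (rat_C _ _)

theorem zetaX_uni (f : J → MvPolynomial σ ℂ) (hne : ∃ j, f j ≠ 0) (d : ℕ)
    (hd : 0 < d) (hf : ∀ j, (f j).IsHomogeneous d) (D : Set (ℤ × ℤ))
    (hD1 : (-1, 1) ∈ D) (hD0 : (-(Fintype.card σ : ℤ), (d : ℤ)) ∈ D)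
    (hD : ∀ c p, p ≠ 0 → 0 < c → SmoothAt f c p → (-(c : ℤ), (1 : ℤ)) ∈ D)
    (h : ∀ p : σ → ℂ, p ≠ 0 → (∀ j, eval p (f j) = 0) → ∃ c, SmoothAt f c p)
    (x : J ⊕ σ → ℂ) : zetaX (uni f) x ∈ ratRing ℂ D := by
  obtain ⟨M, hL, hχ⟩ := exists_meas ℂ
  have hv : M.L * (((Lu ℂ)⁻¹ : (MK ℂ)ˣ) : MK ℂ) = 1 := by rw [hL, Units.mul_inv]
  set v := (((Lu ℂ)⁻¹ : (MK ℂ)ˣ) : MK ℂ) with hvd
  set y : J → ℂ := fun j => x (Sum.inl j) with hy
  set W : Set (Pt ℂ σ) := {fun i => algebraMap ℂ (AlgebraicClosure ℂ) (x (Sum.inr i))} with hWd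
  have hW : Constr W := constr_pt _
  have hx : (Sum.elim y fun i => x (Sum.inr i)) = x := by
    funext i
    rcases i with i | i <;> rfl
  have hWx : WY y W = {fun i => algebraMap ℂ (AlgebraicClosure ℂ) (x i)} := by
    rw [hWd, WY_pt, hx]
  have h01 : (0 : AlgebraicClosure ℂ) ∉ ({1} : Set (AlgebraicClosure ℂ)) :=
    fun h => zero_ne_one (Set.mem_singleton_iff.1 h)
  obtain ⟨h1, h2⟩ := ZAB_mem M (Lu ℂ) hL f hne d hd hf y ce_one h01 (eps_one M hv) D hD0 hD h W hW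
  have h3 := zu_eq M f y hv ce_one h01 (eps_one M hv) hW
  have h4 : (PowerSeries.mk fun N => M.χ _ (JetS (uni f) (WY y W) {1} N) *
      v ^ (Fintype.card (J ⊕ σ) * N) * v ^ Fintype.card σ) ∈ ratU (Lu ℂ) D := by
    rw [h3]
    exact Subalgebra.add_mem _ h1 (Subalgebra.mul_mem _ (rat_C _ _)
      (Subalgebra.mul_mem _ (gG_mem (Lu ℂ) hD1) h2))
  have h5 := mem_tail _ h4
  have h6 : zetaX (uni f) x = PowerSeries.C (((Lu ℂ : (MK ℂ)ˣ) : MK ℂ) ^ Fintype.card σ) *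
      PowerSeries.mk fun N => if N = 0 then 0 else M.χ _ (JetS (uni f) (WY y W) {1} N) *
        v ^ (Fintype.card (J ⊕ σ) * N) * v ^ Fintype.card σ := by
    ext N
    unfold zetaX
    rw [PowerSeries.coeff_C_mul, PowerSeries.coeff_mk, PowerSeries.coeff_mk]
    rcases Nat.eq_zero_or_pos N with rfl | hN
    · rw [if_pos rfl, if_pos rfl, mul_zero]
    · rw [if_neg hN.ne', if_neg hN.ne', ← hWx, hχ, ← inv_pow_eq]
      have e1 : ((Lu ℂ : (MK ℂ)ˣ) : MK ℂ) ^ Fintype.card σ * v ^ Fintype.card σ = 1 := by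
        rw [← mul_pow, hvd, Units.mul_inv, one_pow]
      linear_combination (-(algebraMap (K0 ℂ) (MK ℂ) (cls ((J ⊕ σ) × Fin (N + 1))
        (JetS (uni f) (WY y W) {1} N)) * v ^ (Fintype.card (J ⊕ σ) * N))) * e1
  rw [ratRing_eq, h6]
  exact Subalgebra.mul_mem _ (rat_C _ _) h5

theorem lsy_zero (f : J → MvPolynomial σ ℂ) : lsy f 0 = 0 := by
  unfold lsy
  refine Finset.sum_eq_zero fun j _ => ?_
  rw [Pi.zero_apply, C_0, zero_mul]

/-- The naive local zeta function at the origin, in terms of the zeta function of the ideal. -/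
theorem zetaO_uni (f : J → MvPolynomial σ ℂ) (D : Set (ℤ × ℤ)) (hD1 : (-1, 1) ∈ D)
    (h : zetaJ f ∈ ratRing ℂ D) : zetaO (uni f) ∈ ratRing ℂ D := by
  obtain ⟨M, hL, hχ⟩ := exists_meas ℂ
  have hv : M.L * (((Lu ℂ)⁻¹ : (MK ℂ)ˣ) : MK ℂ) = 1 := by rw [hL, Units.mul_inv]
  have hW : Constr ({0} : Set (Pt ℂ σ)) := constr_pt0
  have h01 : (0 : AlgebraicClosure ℂ) ∉ ({c | c ≠ 0} : Set (AlgebraicClosure ℂ)) :=
    fun h => h rfl
  have h3 := zu_eq M f 0 hv ce_ne h01 (eps_ne M hv) hW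
  have h4 : ZA M (((Lu ℂ)⁻¹ : (MK ℂ)ˣ) : MK ℂ) f (lsy f 0) {c | c ≠ 0} {0} = 0 := by
    ext N
    simp only [ZA, PowerSeries.coeff_mk, map_zero]
    refine volH_none M hv f _ _ h01 N fun z _ => ?_
    rw [lsy_zero, map_zero, map_zero]
  have h5 : ZB M (((Lu ℂ)⁻¹ : (MK ℂ)ˣ) : MK ℂ) f (lsy f 0) {0} =
      ZW M (((Lu ℂ)⁻¹ : (MK ℂ)ˣ) : MK ℂ) f {0} := by
    ext N
    simp only [ZB, ZW, PowerSeries.coeff_mk]
    rw [volH_all M hv f _ N fun z _ => by rw [lsy_zero, map_zero, map_zero]]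
  have h6 : ZW M (((Lu ℂ)⁻¹ : (MK ℂ)ˣ) : MK ℂ) f {0} ∈ ratU (Lu ℂ) D := by
    rw [zetaJ_eq hL hχ]
    exact Subalgebra.add_mem _ h (rat_C _ _)
  have h7 : (PowerSeries.mk fun N => M.χ _ (JetS (uni f) (WY 0 {0}) {c | c ≠ 0} N) *
      (((Lu ℂ)⁻¹ : (MK ℂ)ˣ) : MK ℂ) ^ (Fintype.card (J ⊕ σ) * N) *
        (((Lu ℂ)⁻¹ : (MK ℂ)ˣ) : MK ℂ) ^ Fintype.card σ) ∈ ratU (Lu ℂ) D := by
    rw [h3, h4, h5, zero_add]
    exact Subalgebra.mul_mem _ (rat_C _ _)
      (Subalgebra.mul_mem _ (gG_mem (Lu ℂ) hD1) h6)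
  have h8 := mem_tail _ h7
  have h9 : zetaO (uni f) = PowerSeries.C ((((Lu ℂ) ^ (-(Fintype.card (J ⊕ σ) : ℤ)) :
      (MK ℂ)ˣ) : MK ℂ) * ((Lu ℂ : (MK ℂ)ˣ) : MK ℂ) ^ Fintype.card σ) *
      PowerSeries.mk fun N => if N = 0 then 0 else
        M.χ _ (JetS (uni f) (WY 0 {0}) {c | c ≠ 0} N) *
        (((Lu ℂ)⁻¹ : (MK ℂ)ˣ) : MK ℂ) ^ (Fintype.card (J ⊕ σ) * N) *
        (((Lu ℂ)⁻¹ : (MK ℂ)ˣ) : MK ℂ) ^ Fintype.card σ := by
    unfold zetaO
    rw [map_mul, mul_assoc]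
    congr 1
    ext N
    rw [PowerSeries.coeff_C_mul, PowerSeries.coeff_mk, PowerSeries.coeff_mk]
    rcases Nat.eq_zero_or_pos N with rfl | hN
    · rw [if_pos rfl, if_pos rfl, mul_zero]
    · rw [if_neg hN.ne', if_neg hN.ne', WY_zero, hχ, ← inv_pow_eq]
      have e1 : ((Lu ℂ : (MK ℂ)ˣ) : MK ℂ) ^ Fintype.card σ *
          (((Lu ℂ)⁻¹ : (MK ℂ)ˣ) : MK ℂ) ^ Fintype.card σ = 1 := by
        rw [← mul_pow, Units.mul_inv, one_pow]
      linear_combination (-(algebraMap (K0 ℂ) (MK ℂ) (cls ((J ⊕ σ) × Fin (N + 1))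
        (JetS (uni f) {0} {c | c ≠ 0} N)) *
          (((Lu ℂ)⁻¹ : (MK ℂ)ˣ) : MK ℂ) ^ (Fintype.card (J ⊕ σ) * N))) * e1
  rw [ratRing_eq, h9]
  exact Subalgebra.mul_mem _ (rat_C _ _) h8

end final

end Pool.Agent.Q49.CO
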