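import Mathlib

set_option autoImplicit false

/-! # Smooth points of the scheme defined by a family of polynomials, and germs of cones -/

namespace Pool.Agent.Q49.CO

open MvPolynomial

/-- The scheme defined by the polynomials `f j` is smooth of codimension `c` at the point `p`: it
is defined near `p` by `c` of the polynomials, which vanish at `p` and have a Jacobian minor of
size `c` which does not vanish at `p`. -/
def SmoothAt {σ J : Type} (f : J → MvPolynomial σ ℂ) (c : ℕ) (p : σ → ℂ) : Prop :=
  ∃ (e : Fin c → J) (s : Fin c → σ) (w : MvPolynomial σ ℂ), eval p w ≠ 0 ∧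
    (∀ t, eval p (f (e t)) = 0) ∧
    (∀ j, w * f j ∈ Ideal.span (Set.range fun t => f (e t))) ∧
    (Matrix.of fun u t => eval p (pderiv (s u) (f (e t)))).det ≠ 0

/-- The dehomogenized polynomial `P(1, q + y)`, a polynomial in the coordinates `y` with the
origin at `q`. -/
noncomputable def germ {K : Type} [Field K] {n : ℕ} (q : Fin n → K)
    (P : MvPolynomial (Fin (n + 1)) K) : MvPolynomial (Fin n) K :=
  aeval (Fin.cons 1 fun i => X i + C (q i) : Fin (n + 1) → MvPolynomial (Fin n) K) P

end Pool.Agent.Q49.CO
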