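import Pool.Agent.W574.SM.Chain
import Pool.Agent.Helper706.JD.K6
import Pool.Agent.Q49.CO.Defs

set_option autoImplicit false
set_option linter.unusedSectionVars false
set_option linter.unusedVariables false

/-! # The root `-c` at a point at which the scheme is smooth of codimension `c` -/

namespace Pool.Agent.Q49.CO

open MvPowerSeries Pool.Agent.W574.SM

section blow

variable {σ : Type} [Fintype σ] [DecidableEq σ]

/-- the chart of the blow-up -/
noncomputable def blw (z : σ) (T : Finset σ) (i : σ) : MvPowerSeries σ ℂ :=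
  if i = z then X z else if i ∈ T then X z * X i else X i

theorem blw_cc (z : σ) (T : Finset σ) (i : σ) : constantCoeff (blw z T i) = 0 := by
  unfold blw
  split_ifs <;> simp

theorem det_blw (z : σ) (T : Finset σ) (hz : z ∉ T) :
    (Matrix.of fun t i => pderiv ℂ t (blw z T i)).det = X z ^ T.card := by
  set Dg : σ → MvPowerSeries σ ℂ := fun i => if i ∈ T then X z else 1 with hDg
  set r : σ → MvPowerSeries σ ℂ := fun i => if i ∈ T then X i else 0 with hr
  have h1 : (Matrix.of fun t i => pderiv ℂ t (blw z T i)) =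
      Matrix.diagonal Dg * (1 + Matrix.replicateCol Unit
        (Pi.single z 1 : σ → MvPowerSeries σ ℂ) * Matrix.replicateRow Unit r) := by
    ext1 t i
    rw [Matrix.diagonal_mul, Matrix.add_apply, Matrix.mul_apply]
    simp only [Matrix.replicateCol_apply, Matrix.replicateRow_apply, Finset.univ_unique,
      Finset.sum_singleton, Matrix.of_apply]
    rw [Matrix.one_apply]
    unfold blw
    by_cases hi : i = z
    · subst hi
      rw [if_pos rfl]
      simp only [hDg, hr, if_neg hz, mul_zero, add_zero]
      by_cases ht : t = i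
      · subst ht
        rw [pderiv_X_self, if_pos rfl, if_neg hz, mul_one]
      · rw [pderiv_X_of_ne (fun h => ht h.symm), if_neg ht, mul_zero]
    · rw [if_neg hi]
      by_cases hT : i ∈ T
      · rw [if_pos hT, Derivation.leibniz, smul_eq_mul, smul_eq_mul]
        simp only [hDg, hr, if_pos hT]
        by_cases ht : t = z
        · subst ht
          rw [pderiv_X_self, Pi.single_eq_same, if_neg hz,
            pderiv_X_of_ne (fun h => hi h), if_neg (fun h => hi h.symm)]
          ring
        · rw [pderiv_X_of_ne (fun h => ht h.symm), Pi.single_eq_of_ne ht]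
          by_cases hti : t = i
          · subst hti
            rw [pderiv_X_self, if_pos rfl, if_pos hT]
            ring
          · rw [pderiv_X_of_ne (fun h => hti h.symm), if_neg hti]
            ring
      · rw [if_neg hT]
        simp only [hDg, hr, if_neg hT, mul_zero, add_zero]
        by_cases hti : t = i
        · subst hti
          rw [pderiv_X_self, if_neg hT, if_pos rfl, mul_one]
        · rw [pderiv_X_of_ne (fun h => hti h.symm), if_neg hti, mul_zero]
  rw [h1, Matrix.det_mul, Matrix.det_diagonal,
    Matrix.det_one_add_replicateCol_mul_replicateRow]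
  have h2 : dotProduct r (Pi.single z 1) = 0 := by
    rw [dotProduct_single, mul_one]
    simp only [hr]
    rw [if_neg hz]
  rw [h2, add_zero, mul_one]
  simp only [hDg]
  rw [Finset.prod_ite_mem, Finset.univ_inter, Finset.prod_const]

end blow

section root

variable {σ ι : Type} [Fintype σ] [LinearOrder σ] [Fintype ι] [DecidableEq ι]

/-- the Taylor expansion at `p` -/
noncomputable def tay (p : σ → ℂ) (P : MvPolynomial σ ℂ) : MvPowerSeries σ ℂ :=
  MvPolynomial.aeval (fun i => (C (p i) + X i : MvPowerSeries σ ℂ)) P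

theorem tay_cc (p : σ → ℂ) (P : MvPolynomial σ ℂ) :
    constantCoeff (tay p P) = MvPolynomial.eval p P := by
  unfold tay
  induction P using MvPolynomial.induction_on with
  | C c =>
    rw [MvPolynomial.aeval_C, MvPolynomial.eval_C]
    exact MvPowerSeries.constantCoeff_C c
  | add p q hp hq => rw [map_add, map_add, hp, hq, map_add]
  | mul_X q i hp =>
    rw [map_mul, map_mul, hp, map_mul, MvPolynomial.aeval_X, MvPolynomial.eval_X, map_add,
      constantCoeff_C, constantCoeff_X, add_zero]

theorem tay_pderiv (p : σ → ℂ) (P : MvPolynomial σ ℂ) (t : σ) :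
    pderiv ℂ t (tay p P) = tay p (MvPolynomial.pderiv t P) := by
  unfold tay
  rw [pderiv_aeval, Finset.sum_eq_single t]
  · rw [map_add, pderiv_X_self]
    have h : pderiv ℂ t (C (p t) : MvPowerSeries σ ℂ) = 0 :=
      (MvPowerSeries.pderiv ℂ t).map_algebraMap (p t)
    rw [h, zero_add, mul_one]
  · intro s _ hs
    rw [map_add, pderiv_X_of_ne hs]
    have h : pderiv ℂ t (C (p s) : MvPowerSeries σ ℂ) = 0 :=
      (MvPowerSeries.pderiv ℂ t).map_algebraMap (p s)
    rw [h, zero_add, mul_zero]
  · intro h
    exact absurd (Finset.mem_univ _) h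

/-- **The root `-c`.** -/
theorem smooth_root (f : ι → MvPolynomial σ ℂ) (b : Polynomial ℂ) (hb : IsFunctionalEq f b)
    (c : ℕ) (hc : 0 < c) (p : σ → ℂ) (h : SmoothAt f c p) : b.eval (-(c : ℂ)) = 0 := by
  obtain ⟨e, s, w, hw, he, hwe, hdet⟩ := h
  have hinj : Function.Injective s := by
    intro a b hab
    by_contra hne'
    apply hdet
    refine Matrix.det_zero_of_row_eq hne' ?_
    funext t
    simp only [Matrix.of_apply, hab]
  -- formal coordinates
  set A : σ → MvPowerSeries σ ℂ := fun i => if h : ∃ t, s t = i then tay p (f (e h.choose)) else X i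
    with hA
  have hAs : ∀ t, A (s t) = tay p (f (e t)) := by
    intro t
    have h1 : ∃ t', s t' = s t := ⟨t, rfl⟩
    simp only [hA]
    rw [dif_pos h1, hinj h1.choose_spec]
  have hAn : ∀ i, (¬ ∃ t, s t = i) → A i = X i := by
    intro i hi
    simp only [hA]
    rw [dif_neg hi]
  have hA0 : ∀ i, constantCoeff (A i) = 0 := by
    intro i
    by_cases hi : ∃ t, s t = i
    · obtain ⟨t, rfl⟩ := hi
      rw [hAs, tay_cc, he]
    · rw [hAn i hi, constantCoeff_X]
  have hJ : (Matrix.of fun i j => constantCoeff (pderiv ℂ j (A i))).det ≠ 0 := by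
    intro h0
    obtain ⟨v, hv, hv2⟩ := Matrix.exists_mulVec_eq_zero_iff.2 h0
    apply hv
    have hrow : ∀ i, ∑ j, constantCoeff (pderiv ℂ j (A i)) * v j = 0 := fun i => congrFun hv2 i
    have hvn : ∀ i, (¬ ∃ t, s t = i) → v i = 0 := by
      intro i hi
      have h1 := hrow i
      rw [Finset.sum_eq_single i] at h1
      · rw [hAn i hi, pderiv_X_self, map_one, one_mul] at h1
        exact h1
      · intro j _ hj
        rw [hAn i hi, pderiv_X_of_ne hj.symm, map_zero, zero_mul]
      · intro h
        exact absurd (Finset.mem_univ _) h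
    have hvs : (fun u => v (s u)) = 0 := by
      refine Matrix.eq_zero_of_vecMul_eq_zero hdet ?_
      funext t
      have h1 := hrow (s t)
      rw [Pi.zero_apply, ← h1, hAs]
      change ∑ u, v (s u) * MvPolynomial.eval p (MvPolynomial.pderiv (s u) (f (e t))) = _
      have h2 : ∀ j, constantCoeff (pderiv ℂ j (tay p (f (e t)))) * v j =
          v j * MvPolynomial.eval p (MvPolynomial.pderiv j (f (e t))) := by
        intro j
        rw [tay_pderiv, tay_cc, mul_comm]
      simp only [h2]
      rw [← Finset.sum_image (s := Finset.univ) (g := s)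
        (f := fun j => v j * MvPolynomial.eval p (MvPolynomial.pderiv j (f (e t))))
        (fun a _ b _ h => hinj h)]
      refine Finset.sum_subset (Finset.subset_univ _) fun j _ hj => ?_
      rw [hvn j, zero_mul]
      rintro ⟨t', rfl⟩
      exact hj (Finset.mem_image_of_mem _ (Finset.mem_univ _))
    funext i
    by_cases hi : ∃ t, s t = i
    · obtain ⟨t, rfl⟩ := hi
      exact congrFun hvs t
    · exact hvn i hi
  obtain ⟨G, hG0, -, hAG⟩ := Pool.Agent.Results.MP_51bf1a_an.JetDet.exists_formal_inverse A hA0
    (isUnit_iff_ne_zero.2 hJ)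
  have hGs : HasSubst G := hasSubst_of_constantCoeff_zero hG0
  have hGn : ∀ i, (¬ ∃ t, s t = i) → G i = X i := by
    intro i hi
    have h1 := hAG i
    rw [hAn i hi, subst_X hGs] at h1
    exact h1
  have hGdet : (Matrix.of fun t i => constantCoeff (pderiv ℂ t (G i))).det ≠ 0 := by
    intro h0
    have h1 : (Matrix.of fun t i => constantCoeff (pderiv ℂ t (G i))) *
        (Matrix.of fun i j => constantCoeff (pderiv ℂ j (A i))).transpose = 1 := by
      ext1 t i
      rw [Matrix.mul_apply]
      have h2 := congrArg (fun x => constantCoeff (pderiv ℂ t x)) (hAG i)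
      beta_reduce at h2
      rw [pderiv_subst hGs, map_sum] at h2
      simp only [Matrix.of_apply, Matrix.transpose_apply]
      have h3 : ∀ k, constantCoeff (pderiv ℂ t (G k)) * constantCoeff (pderiv ℂ k (A i)) =
          constantCoeff (subst G (pderiv ℂ k (A i)) * pderiv ℂ t (G k)) := by
        intro k
        rw [map_mul, constantCoeff_subst' hGs hG0, mul_comm]
      simp only [h3]
      rw [h2, Matrix.one_apply]
      by_cases hti : t = i
      · subst hti
        rw [pderiv_X_self, map_one, if_pos rfl]
      · rw [pderiv_X_of_ne (fun h => hti h.symm), map_zero, if_neg hti]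
    have h2 := congrArg Matrix.det h1
    rw [Matrix.det_mul, h0, zero_mul, Matrix.det_one] at h2
    exact zero_ne_one h2
  -- the blow-up
  set t0 : Fin c := ⟨0, hc⟩ with ht0
  set z : σ := s t0 with hz
  set T : Finset σ := (Finset.univ.erase t0).image s with hT
  have hzT : z ∉ T := by
    rw [hT, Finset.mem_image]
    rintro ⟨t, ht, h1⟩
    exact (Finset.mem_erase.1 ht).1 (hinj h1)
  have hTc : T.card = c - 1 := by
    rw [hT, Finset.card_image_of_injective _ hinj, Finset.card_erase_of_mem (Finset.mem_univ _),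
      Finset.card_univ, Fintype.card_fin]
  set B : σ → MvPowerSeries σ ℂ := blw z T with hB
  have hB0 : ∀ i, constantCoeff (B i) = 0 := blw_cc z T
  have hBs : HasSubst B := hasSubst_of_constantCoeff_zero hB0
  have hBz : B z = X z := if_pos rfl
  have hBt : ∀ t, t ≠ t0 → B (s t) = X z * X (s t) := by
    intro t ht
    have h1 : s t ≠ z := fun h => ht (hinj h)
    have h2 : s t ∈ T := by
      rw [hT]
      exact Finset.mem_image_of_mem _ (Finset.mem_erase.2 ⟨ht, Finset.mem_univ _⟩)
    change (if s t = z then _ else if s t ∈ T then _ else _) = _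
    rw [if_neg h1, if_pos h2]
  have hBn : ∀ i, (¬ ∃ t, s t = i) → B i = X i := by
    intro i hi
    have h1 : i ≠ z := fun h => hi ⟨t0, h.symm⟩
    have h2 : i ∉ T := by
      rw [hT, Finset.mem_image]
      rintro ⟨t, _, h⟩
      exact hi ⟨t, h⟩
    change (if i = z then _ else if i ∈ T then _ else _) = _
    rw [if_neg h1, if_neg h2]
  set Φ : MvPowerSeries σ ℂ →ₐ[ℂ] MvPowerSeries σ ℂ :=
    (substAlgHom hBs).comp (substAlgHom hGs) with hΦ
  have hΦa : ∀ x, Φ x = subst B (subst G x) := by
    intro x
    rw [hΦ, AlgHom.comp_apply, substAlgHom_apply, substAlgHom_apply]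
  set ξ : σ → MvPowerSeries σ ℂ := fun i => C (p i) + subst B (G i) with hξ
  have hξΦ : ∀ P : MvPolynomial σ ℂ, MvPolynomial.aeval ξ P = Φ (tay p P) := by
    intro P
    unfold tay
    rw [← AlgHom.comp_apply]
    congr 1
    refine MvPolynomial.algHom_ext fun i => ?_
    rw [AlgHom.comp_apply, MvPolynomial.aeval_X, MvPolynomial.aeval_X, map_add]
    simp only [hξ]
    congr 1
    · have : (C (p i) : MvPowerSeries σ ℂ) = algebraMap ℂ (MvPowerSeries σ ℂ) (p i) := rfl
      rw [this, AlgHom.commutes]
    · rw [hΦa, subst_X hGs]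
  have hfe : ∀ t, MvPolynomial.aeval ξ (f (e t)) = B (s t) := by
    intro t
    rw [hξΦ, hΦa, ← hAs, hAG, subst_X hBs]
  have hunit : IsUnit (MvPolynomial.aeval ξ w) := by
    rw [MvPowerSeries.isUnit_iff_constantCoeff, hξΦ, hΦa, constantCoeff_subst' hBs hB0,
      constantCoeff_subst' hGs hG0, tay_cc]
    exact isUnit_iff_ne_zero.2 hw
  have hzB : ∀ t, X z ∣ B (s t) := by
    intro t
    by_cases ht : t = t0
    · rw [ht, ← hz, hBz]
    · rw [hBt t ht]
      exact dvd_mul_right _ _
  have hdvd : ∀ j, X z ^ 1 ∣ MvPolynomial.aeval ξ (f j) := by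
    intro j
    rw [pow_one, ← hunit.dvd_mul_left, ← map_mul]
    obtain ⟨a, ha⟩ := Ideal.mem_span_range_iff_exists_fun.1 (hwe j)
    rw [← ha, map_sum]
    refine Finset.dvd_sum fun t _ => ?_
    rw [map_mul, hfe]
    exact (hzB t).mul_left _
  -- the Jacobian determinant
  have hjac : (Matrix.of fun t i => pderiv ℂ t (ξ i)).det =
      X z ^ (c - 1) * subst B (Matrix.of fun t i => pderiv ℂ t (G i)).det := by
    have h1 : (Matrix.of fun t i => pderiv ℂ t (ξ i)) =
        (Matrix.of fun t i => pderiv ℂ t (B i)) *
          (Matrix.of fun t i => subst B (pderiv ℂ t (G i))) := by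
      ext1 t i
      rw [Matrix.mul_apply]
      simp only [Matrix.of_apply, hξ]
      have h : pderiv ℂ t (C (p i) : MvPowerSeries σ ℂ) = 0 :=
        (MvPowerSeries.pderiv ℂ t).map_algebraMap (p i)
      rw [map_add, h, zero_add, pderiv_subst hBs]
      exact Finset.sum_congr rfl fun k _ => mul_comm _ _
    rw [h1, Matrix.det_mul, hB, det_blw z T hzT, hTc]
    congr 1
    have h2 := AlgHom.map_det (substAlgHom hBs) (Matrix.of fun t i => pderiv ℂ t (G i))
    rw [substAlgHom_apply] at h2
    rw [← hB, h2]
    congr 1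
    ext1 t i
    rw [AlgHom.mapMatrix_apply, Matrix.map_apply, Matrix.of_apply, Matrix.of_apply,
      substAlgHom_apply]
  have hU0 : constantCoeff (subst B (Matrix.of fun t i => pderiv ℂ t (G i)).det) ≠ 0 := by
    rw [constantCoeff_subst' hBs hB0, RingHom.map_det]
    exact hGdet
  have key := rees_coords f b hb z ξ (c - 1) 1 0 one_pos _ 1 1 hU0 (by simp) (by simp) hjac
    (e t0) hdvd (by rw [hfe, ← hz, hBz, pow_one, mul_one]) 1 (by rw [map_one, pow_zero, mul_one])
    X rfl (fun t => constantCoeff_X t) ?_ ?_
  · rw [← key]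
    congr 1
    have : ((c - 1 : ℕ) : ℂ) = (c : ℂ) - 1 := by
      rw [Nat.cast_sub hc, Nat.cast_one]
    rw [this]
    push_cast
    ring
  · have h1 : (Matrix.of fun s' t => constantCoeff (pderiv ℂ s' (X t : MvPowerSeries σ ℂ))) =
        (1 : Matrix σ σ ℂ) := by
      ext1 a b
      rw [Matrix.of_apply, Matrix.one_apply]
      by_cases hab : a = b
      · subst hab
        rw [pderiv_X_self, map_one, if_pos rfl]
      · rw [pderiv_X_of_ne (fun h => hab h.symm), map_zero, if_neg hab]
    rw [h1, Matrix.det_one]
    exact one_ne_zero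
  · intro i hi
    by_cases h1 : ∃ t, s t = i
    · obtain ⟨t, rfl⟩ := h1
      right
      refine ⟨Pi.single (e t) 1, ?_⟩
      rw [Finset.sum_eq_single (e t)]
      · rw [Pi.single_eq_same, one_smul, hfe, hfe, ← hz, hBz, hBt t]
        intro h
        rw [h] at hi
        exact hi rfl
      · intro j _ hj
        rw [Pi.single_eq_of_ne hj, zero_smul]
      · intro h
        exact absurd (Finset.mem_univ _) h
    · left
      refine ⟨MvPolynomial.X i - MvPolynomial.C (p i), ?_⟩
      rw [map_sub, MvPolynomial.aeval_X, MvPolynomial.aeval_C]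
      simp only [hξ]
      rw [hGn i h1, subst_X hBs, hBn i h1]
      have : (C (p i) : MvPowerSeries σ ℂ) = algebraMap ℂ (MvPowerSeries σ ℂ) (p i) := rfl
      rw [this, add_sub_cancel_left]

end root

end Pool.Agent.Q49.CO
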