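import Pool.Agent.Y229.SP4
import Pool.Agent.W574.CN.Gen
import Pool.Agent.Q49.CO.Root

set_option autoImplicit false
set_option linter.unusedSectionVars false
set_option linter.unusedVariables false

/-! # Translations, and the roots of the germs of a cone -/

namespace Pool.Agent.Q49.CO

open MvPolynomial Pool.Agent.W574.SM Pool.Agent.W574.CN Pool.Agent.Y229

section tr

variable {σ : Type}

/-- the translation by `q` -/
noncomputable def trn (q : σ → ℂ) : MvPolynomial σ ℂ ≃ₐ[ℂ] MvPolynomial σ ℂ :=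
  AlgEquiv.ofAlgHom (aeval fun i => X i + C (q i)) (aeval fun i => X i - C (q i))
    (by
      refine algHom_ext fun i => ?_
      rw [AlgHom.comp_apply, aeval_X, map_sub, aeval_X, algHom_C, AlgHom.id_apply,
        algebraMap_eq, add_sub_cancel_right])
    (by
      refine algHom_ext fun i => ?_
      rw [AlgHom.comp_apply, aeval_X, map_add, aeval_X, algHom_C, AlgHom.id_apply,
        algebraMap_eq, sub_add_cancel])

theorem trn_X (q : σ → ℂ) (i : σ) : trn q (X i) = X i + C (q i) :=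
  aeval_X _ _

theorem trn_C (q : σ → ℂ) (a : ℂ) : trn q (C a) = C a := by
  change aeval (fun i => X i + C (q i)) (C a) = C a
  rw [algHom_C]
  rfl

theorem trn_pderiv (q : σ → ℂ) (i : σ) (g : MvPolynomial σ ℂ) :
    trn q (pderiv i g) = pderiv i (trn q g) := by
  classical
  induction g using MvPolynomial.induction_on with
  | C a => rw [trn_C, pderiv_C, map_zero]
  | add p r hp hr => rw [map_add, map_add, map_add, map_add, hp, hr]
  | mul_X p j hp =>
    rw [Derivation.leibniz, map_add, smul_eq_mul, smul_eq_mul, map_mul, map_mul, hp, map_mul,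
      Derivation.leibniz, smul_eq_mul, smul_eq_mul, trn_X, map_add, pderiv_C, add_zero,
      pderiv_X]
    congr 2
    rcases eq_or_ne i j with rfl | h
    · rw [Pi.single_eq_same, map_one]
    · rw [Pi.single_eq_of_ne' h, map_zero]

theorem conj_weyl (q : σ → ℂ) (D : Module.End ℂ (MvPolynomial σ ℂ)) (hD : D ∈ weyl σ) :
    (trn q).toLinearMap ∘ₗ D ∘ₗ (trn q).symm.toLinearMap ∈ weyl σ := by
  set Ψ : Module.End ℂ (MvPolynomial σ ℂ) →ₐ[ℂ] Module.End ℂ (MvPolynomial σ ℂ) :=
    ((trn q).toLinearEquiv.conjAlgEquiv ℂ).toAlgHom with hΨ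
  have hΨa : ∀ (D : Module.End ℂ (MvPolynomial σ ℂ)) g, Ψ D g = trn q (D ((trn q).symm g)) :=
    fun D g => rfl
  have h1 : (weyl σ).map Ψ ≤ weyl σ := by
    unfold weyl
    rw [AlgHom.map_adjoin]
    refine Algebra.adjoin_le ?_
    rintro _ ⟨D, hD | hD, rfl⟩
    · obtain ⟨i, rfl⟩ := hD
      have h2 : Ψ (LinearMap.mulLeft ℂ (X i : MvPolynomial σ ℂ)) =
          LinearMap.mulLeft ℂ (X i : MvPolynomial σ ℂ) + q i • 1 := by
        refine LinearMap.ext fun g => ?_
        rw [hΨa, LinearMap.mulLeft_apply, map_mul, AlgEquiv.apply_symm_apply, trn_X,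
          LinearMap.add_apply, LinearMap.mulLeft_apply, LinearMap.smul_apply, add_mul,
          C_mul']
        rfl
      rw [SetLike.mem_coe, h2]
      exact Subalgebra.add_mem _ (Algebra.subset_adjoin (Or.inl ⟨i, rfl⟩))
        (Subalgebra.smul_mem _ (Subalgebra.one_mem _) _)
    · obtain ⟨i, rfl⟩ := hD
      refine Algebra.subset_adjoin (Or.inr ⟨i, ?_⟩)
      refine LinearMap.ext fun g => ?_
      rw [hΨa]
      change pderiv i g = trn q (pderiv i ((trn q).symm g))
      rw [trn_pderiv, AlgEquiv.apply_symm_apply]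
  exact h1 ⟨D, hD, rfl⟩

variable {ι : Type} [Fintype ι]

theorem applyAt_trn (q : σ → ℂ) (P : (ι →₀ ℕ) →₀ weyl σ) :
    ∃ P' : (ι →₀ ℕ) →₀ weyl σ, ∀ s g, trn q (applyAt P s g) = applyAt P' s (trn q g) := by
  classical
  set cj : weyl σ → weyl σ := fun D => ⟨_, conj_weyl q D.1 D.2⟩ with hcj
  have h0 : cj 0 = 0 := by
    apply Subtype.ext
    refine LinearMap.ext fun g => ?_
    change trn q (0 : MvPolynomial σ ℂ) = 0
    exact map_zero _
  refine ⟨P.mapRange cj h0, fun s g => ?_⟩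
  unfold applyAt
  rw [Finsupp.sum_mapRange_index]
  · rw [Finsupp.sum, Finsupp.sum, map_sum]
    refine Finset.sum_congr rfl fun β _ => ?_
    rw [map_smul]
    congr 1
    change _ = trn q ((P β : Module.End ℂ (MvPolynomial σ ℂ)) ((trn q).symm (trn q g)))
    rw [AlgEquiv.symm_apply_apply]
  · intro β
    change _ • (0 : MvPolynomial σ ℂ) = 0
    rw [smul_zero]

theorem functionalEq_trn (q : σ → ℂ) (f : ι → MvPolynomial σ ℂ) (b : Polynomial ℂ)
    (hb : IsFunctionalEq f b) : IsFunctionalEq (fun j => trn q (f j)) b := by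
  obtain ⟨S, P, hS, hP⟩ := hb
  choose P' hP' using fun c => applyAt_trn q (P c)
  refine ⟨S, P', hS, fun s => ?_⟩
  have h1 := congrArg (trn q) (hP s)
  rw [map_mul, trn_C, map_prod, map_sum] at h1
  simp only [map_pow] at h1
  rw [h1]
  refine Finset.sum_congr rfl fun c _ => ?_
  rw [hP', map_mul, trn_C, map_prod]
  simp only [map_pow]

theorem localBI_of_fe (f : ι → MvPolynomial σ ℂ) (b : Polynomial ℂ) (hb : IsFunctionalEq f b) :
    IsLocalBI f b := by
  classical
  obtain ⟨S, P, hS, hP⟩ := hb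
  set I := Σ c : S, (P c).support with hI
  set e := Fintype.equivFin I with he
  refine ⟨Fintype.card I, fun l => ((e.symm l).1 : ι → ℤ),
    fun l => monomial ((e.symm l).2 : ι →₀ ℕ) 1, fun _ => 1,
    fun l => ⟨(P (e.symm l).1 (e.symm l).2 : weyl σ), (P (e.symm l).1 (e.symm l).2 : weyl σ).2⟩,
    fun l => hS _ (e.symm l).1.2, fun s => ?_⟩
  rw [← MvPolynomial.coe_C, ← MvPolynomial.coe_mul, hP s]
  rw [Equiv.sum_comp e.symm (fun x : I => MvPowerSeries.C (eval (fun j => (s j : ℂ))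
      (monomial (x.2 : ι →₀ ℕ) 1) * ∏ j, ((s j).choose (-((x.1 : ι → ℤ) j)).toNat : ℂ)) *
    (1 * (((P x.1 x.2 : Module.End ℂ (MvPolynomial σ ℂ))
      (∏ j, f j ^ ((s j : ℤ) + (x.1 : ι → ℤ) j).toNat) : MvPolynomial σ ℂ) :
        MvPowerSeries σ ℂ)))]
  refine Eq.trans ?_ (Fintype.sum_sigma _).symm
  rw [← Finset.sum_coe_sort S, ← MvPolynomial.coeToMvPowerSeries.ringHom_apply, map_sum]
  refine Finset.sum_congr rfl fun c _ => ?_
  unfold applyAt
  rw [Finsupp.sum, ← Finset.sum_coe_sort (P c).support, map_sum]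
  refine Finset.sum_congr rfl fun β _ => ?_
  rw [MvPolynomial.coeToMvPowerSeries.ringHom_apply, one_mul, ← MvPolynomial.coe_C,
    ← MvPolynomial.coe_mul]
  congr 1
  rw [C_mul', map_smul, smul_smul, C_mul']
  congr 1
  rw [eval_monomial, one_mul, Finsupp.prod_fintype _ _ (fun i => pow_zero _)]
  congr 1
  rw [Nat.cast_prod]
  refine Finset.prod_congr rfl fun j _ => ?_
  split_ifs with hj
  · rfl
  · have h3 : (-((c : ι → ℤ) j)).toNat = 0 := by omega
    rw [h3, Nat.choose_zero_right]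

end tr

section cone

variable {n : ℕ} {ι : Type} [Fintype ι] [DecidableEq ι]

theorem germ_eq (q : Fin n → ℂ) (P : MvPolynomial (Fin (n + 1)) ℂ) :
    germ q P = trn q (deh 0 P) := by
  unfold germ deh
  change _ = (trn q).toAlgHom (aeval _ P)
  rw [← AlgHom.comp_apply]
  congr 1
  refine algHom_ext fun i => ?_
  rw [AlgHom.comp_apply, aeval_X, aeval_X]
  refine Fin.cases ?_ (fun i => ?_) i
  · rw [Fin.cons_zero, Fin.insertNth_apply_same, map_one]
  · rw [Fin.cons_succ]
    have h1 : (Fin.insertNth 0 (1 : MvPolynomial (Fin n) ℂ) X : Fin (n + 1) →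
        MvPolynomial (Fin n) ℂ) i.succ = X i := by
      rw [Fin.insertNth_zero]
      rfl
    rw [h1]
    exact (trn_X q i).symm

theorem germ_fe (f : ι → MvPolynomial (Fin (n + 1)) ℂ) (d : ℕ)
    (hf : ∀ j, (f j).IsHomogeneous d) (q : Fin n → ℂ) (b : Polynomial ℂ)
    (hb : IsFunctionalEq f b) : IsFunctionalEq (fun j => germ q (f j)) b := by
  have h1 := functionalEq_trn q _ b (functionalEq_deh 0 f d hf b hb)
  simp only [germ_eq]
  exact h1

/-- The roots of the germs. -/
theorem germ_localBI (f : ι → MvPolynomial (Fin (n + 1)) ℂ) (d : ℕ)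
    (hf : ∀ j, (f j).IsHomogeneous d) (q : Fin n → ℂ) (b : Polynomial ℂ)
    (hb : IsFunctionalEq f b) : IsLocalBI (fun j => germ q (f j)) b :=
  localBI_of_fe _ b (germ_fe f d hf q b hb)

/-- The roots of the germs. -/
theorem germ_forced (f : ι → MvPolynomial (Fin (n + 1)) ℂ) (d : ℕ)
    (hf : ∀ j, (f j).IsHomogeneous d) (q : Fin n → ℂ) (α : ℂ)
    (h : ∀ b, IsLocalBI (fun j => germ q (f j)) b → b.eval α = 0) :
    Pool.Agent.W574.RO.Forced f α :=
  fun b hb => h b (germ_localBI f d hf q b hb)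

end cone

end Pool.Agent.Q49.CO
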