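import Pool.Agent.Q49.CO.Jets
import Pool.Agent.Q49.CO.Tr

set_option autoImplicit false
set_option linter.unusedSectionVars false
set_option linter.unusedVariables false

/-! # The strong motivic monodromy conjecture for cones -/

namespace Pool.Agent.Q49.CO

open MvPolynomial Pool.Agent.W428.MOT Pool.Agent.TH192.MT Pool.Agent.Y229
open Pool.Agent.W574.SM (IsFunctionalEq)
open Pool.Agent.W574.RO (Forced)

/-- **The strong motivic monodromy conjecture at the origin for the ideal generated by the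
`f j`**, with the finite set `S` of pairs `(a, b)`: one has `a < 0 < b`, the number `a / b` is a
root of every polynomial which satisfies a local functional equation of the `f j` at the origin,
and the local motivic zeta function of the ideal is in the subring of `𝓜⟦T⟧` generated over `𝓜` by
`T` and the `1 / (1 - 𝕃 ^ a T ^ b)`, `(a, b) ∈ S`. -/
def StrongMC {σ J : Type} [Fintype σ] [Fintype J] (f : J → MvPolynomial σ ℂ)
    (S : Finset (ℤ × ℤ)) : Prop :=
  (∀ q ∈ S, q.1 < 0 ∧ 0 < q.2 ∧ ∀ b : Polynomial ℂ, IsLocalBI f b →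
    b.eval ((q.1 : ℂ) / q.2) = 0) ∧
  zetaJ f ∈ ratRing ℂ (S : Set (ℤ × ℤ))

/-- The set of the pairs of a cone. -/
noncomputable def conePairs {n : ℕ} (d : ℕ) (C : Finset ℕ) (Q : Finset (Fin n → ℂ))
    (T : (Fin n → ℂ) → Finset (ℤ × ℤ)) : Finset (ℤ × ℤ) :=
  insert (-((n + 1 : ℕ) : ℤ), (d : ℤ)) (C.image (fun c : ℕ => (-(c : ℤ), (1 : ℤ))) ∪ Q.biUnion T)

theorem smooth_card {σ J : Type} [Fintype σ] {f : J → MvPolynomial σ ℂ} {c : ℕ} {p : σ → ℂ}
    (h : SmoothAt f c p) : c ≤ Fintype.card σ := by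
  obtain ⟨e, s, w, -, -, -, hdet⟩ := h
  have hinj : Function.Injective s := by
    intro a b hab
    by_contra hne'
    apply hdet
    refine Matrix.det_zero_of_row_eq hne' ?_
    funext t
    simp only [Matrix.of_apply, hab]
  have := Fintype.card_le_of_injective s hinj
  rwa [Fintype.card_fin] at this

section main

variable {n : ℕ} {J : Type} [Fintype J]

/-- the pairs -/
theorem cone_forced [DecidableEq J] (f : J → MvPolynomial (Fin (n + 1)) ℂ) (d : ℕ) (hd : 0 < d)
    (hf : ∀ j, (f j).IsHomogeneous d)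
    (hg : ∃ e : Fin (n + 1) → J, (Matrix.of fun s t => pderiv s (f (e t))).det ≠ 0)
    (Q : Finset (Fin n → ℂ)) (T : (Fin n → ℂ) → Finset (ℤ × ℤ))
    (hT : ∀ q ∈ Q, StrongMC (fun j => germ q (f j)) (T q))
    (h : ∀ p : Fin (n + 1) → ℂ, p ≠ 0 → (∀ j, eval p (f j) = 0) → (∃ c, SmoothAt f c p) ∨
      ∃ q ∈ Q, p 0 ≠ 0 ∧ ∀ i : Fin n, p i.succ = p 0 * q i)
    (C : Finset ℕ) (hC : ∀ c, c ∈ C ↔ ∃ p, p ≠ 0 ∧ SmoothAt f c p) :
    (∀ q ∈ conePairs d C Q T, q.1 < 0 ∧ 0 < q.2 ∧ Forced f ((q.1 : ℂ) / q.2)) ∧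
      zetaJ f ∈ ratRing ℂ (conePairs d C Q T : Set (ℤ × ℤ)) := by
  classical
  obtain ⟨e, he⟩ := hg
  have hne : ∃ j, f j ≠ 0 := by
    by_contra h0
    push Not at h0
    apply he
    have h1 : (Matrix.of fun s t => pderiv s (f (e t))) =
        (0 : Matrix (Fin (n + 1)) (Fin (n + 1)) (MvPolynomial (Fin (n + 1)) ℂ)) := by
      ext1 s t
      rw [Matrix.of_apply, h0, map_zero]
      rfl
    rw [h1, Matrix.det_zero]
  refine ⟨?_, ?_⟩
  · intro x hx
    unfold conePairs at hx
    rcases Finset.mem_insert.1 hx with rfl | hx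
    · refine ⟨by simp only; omega, by simp only; omega, fun b hb => ?_⟩
      have h1 := Pool.Agent.W574.CN.generic_root f d hd hf b hb e he
      rw [← h1]
      congr 2
      push_cast
      rfl
    · rcases Finset.mem_union.1 hx with hx | hx
      · obtain ⟨c, hc, rfl⟩ := Finset.mem_image.1 hx
        obtain ⟨p, -, hp⟩ := (hC c).1 hc
        have hc0 : 0 < c := by
          rcases Nat.eq_zero_or_pos c with rfl | h4
          · exfalso
            obtain ⟨e', s, w, hw, -, hwe, -⟩ := hp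
            obtain ⟨j, hj⟩ := hne
            have h6 := hwe j
            have h7 : (Set.range fun t : Fin 0 => f (e' t)) = ∅ := Set.range_eq_empty _
            rw [h7, Ideal.span_empty, Ideal.mem_bot] at h6
            rcases mul_eq_zero.1 h6 with h8 | h8
            · apply hw
              rw [h8, map_zero]
            · exact hj h8
          · exact h4
        refine ⟨by simp only; omega, by simp only; omega, fun b hb => ?_⟩
        have h1 := smooth_root f b hb c hc0 p hp
        rw [← h1]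
        congr 1
        push_cast
        rw [div_one]
      · obtain ⟨q, hq, hx⟩ := Finset.mem_biUnion.1 hx
        obtain ⟨h1, h2⟩ := hT q hq
        exact ⟨(h1 x hx).1, (h1 x hx).2.1, germ_forced f d hf q _ (h1 x hx).2.2⟩
  · refine zeta_cone f hne d hd hf _ (Finset.mem_coe.2 (Finset.mem_insert_self _ _))
      ?_ Q ?_ h
    · intro c p hp hc hs
      exact Finset.mem_coe.2 (Finset.mem_insert_of_mem (Finset.mem_union_left _
        (Finset.mem_image.2 ⟨c, (hC c).2 ⟨p, hp, hs⟩, rfl⟩)))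
    · intro q hq
      have h1 : (T q : Set (ℤ × ℤ)) ⊆ (conePairs d C Q T : Set (ℤ × ℤ)) := by
        intro x hx
        exact Finset.mem_coe.2 (Finset.mem_insert_of_mem (Finset.mem_union_right _
          (Finset.mem_biUnion.2 ⟨q, hq, hx⟩)))
      exact rat_mono (Lu ℂ) h1 (hT q hq).2

/-- **The strong motivic monodromy conjecture for cones.** -/
theorem cone_strong (f : J → MvPolynomial (Fin (n + 1)) ℂ) (d : ℕ) (hd : 0 < d)
    (hf : ∀ j, (f j).IsHomogeneous d)
    (hg : ∃ e : Fin (n + 1) → J, (Matrix.of fun s t => pderiv s (f (e t))).det ≠ 0)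
    (Q : Finset (Fin n → ℂ)) (T : (Fin n → ℂ) → Finset (ℤ × ℤ))
    (hT : ∀ q ∈ Q, StrongMC (fun j => germ q (f j)) (T q))
    (h : ∀ p : Fin (n + 1) → ℂ, p ≠ 0 → (∀ j, eval p (f j) = 0) → (∃ c, SmoothAt f c p) ∨
      ∃ q ∈ Q, p 0 ≠ 0 ∧ ∀ i : Fin n, p i.succ = p 0 * q i)
    (C : Finset ℕ) (hC : ∀ c, c ∈ C ↔ ∃ p, p ≠ 0 ∧ SmoothAt f c p) :
    StrongMC f (conePairs d C Q T) := by
  classical
  obtain ⟨h1, h2⟩ := cone_forced f d hd hf hg Q T hT h C hC
  exact ⟨fun q hq => ⟨(h1 q hq).1, (h1 q hq).2.1, fun b hb =>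
    (sf_of_homog f d hf _ (h1 q hq).2.2).localBI b hb⟩, h2⟩

theorem exists_codims {σ J : Type} [Fintype σ] (f : J → MvPolynomial σ ℂ) :
    ∃ C : Finset ℕ, ∀ c, c ∈ C ↔ ∃ p, p ≠ 0 ∧ SmoothAt f c p := by
  classical
  refine ⟨(Finset.range (Fintype.card σ + 1)).filter fun c => ∃ p, p ≠ 0 ∧ SmoothAt f c p,
    fun c => ?_⟩
  rw [Finset.mem_filter, Finset.mem_range]
  constructor
  · exact fun h => h.2
  · rintro ⟨p, hp, hs⟩
    exact ⟨by have := smooth_card hs; omega, p, hp, hs⟩

end main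

section truncation

variable {n : ℕ} {J : Type} [Fintype J]

theorem det_trunc (g : MvPolynomial (Fin (n + 1)) ℂ) (k : ℕ) (hg : g.IsHomogeneous k)
    (hg0 : g ≠ 0) :
    (Matrix.of fun (s t : Fin (n + 1)) => pderiv s (X t * g)).det ≠ 0 := by
  classical
  obtain ⟨p, hp⟩ : ∃ p, eval p g ≠ 0 := by
    by_contra h0
    push Not at h0
    exact hg0 (MvPolynomial.funext fun p => by rw [h0 p, map_zero])
  intro h0
  have h1 := congrArg (eval p) h0
  rw [map_zero, RingHom.map_det] at h1
  set γ := eval p g with hγ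
  set u : Fin (n + 1) → ℂ := fun s => eval p (pderiv s g) / γ with hu
  have h2 : (RingHom.mapMatrix (eval p)) (Matrix.of fun (s t : Fin (n + 1)) =>
      pderiv s (X t * g)) = γ • ((1 : Matrix (Fin (n + 1)) (Fin (n + 1)) ℂ) +
        Matrix.replicateCol Unit u * Matrix.replicateRow Unit p) := by
    ext1 s t
    rw [RingHom.mapMatrix_apply, Matrix.map_apply, Matrix.of_apply, Derivation.leibniz,
      Matrix.smul_apply, Matrix.add_apply, Matrix.mul_apply]
    simp only [Matrix.replicateCol_apply, Matrix.replicateRow_apply, Finset.univ_unique,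
      Finset.sum_singleton, smul_eq_mul, map_add, map_mul, eval_X]
    rw [Matrix.one_apply, hu]
    by_cases hst : s = t
    · subst hst
      rw [pderiv_X_self, map_one, if_pos rfl]
      field_simp
      ring
    · rw [pderiv_X_of_ne (fun h => hst h.symm), map_zero, if_neg hst]
      field_simp
      ring
  rw [h2, Matrix.det_smul, Matrix.det_one_add_replicateCol_mul_replicateRow] at h1
  have h3 : dotProduct p u = k := by
    have h4 := congrArg (eval p) (hg.sum_X_mul_pderiv)
    rw [map_sum, map_nsmul, nsmul_eq_mul] at h4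
    simp only [map_mul, eval_X] at h4
    refine mul_right_cancel₀ hp ?_
    rw [← h4]
    unfold dotProduct
    rw [Finset.sum_mul]
    refine Finset.sum_congr rfl fun s _ => ?_
    simp only [hu]
    field_simp
  rw [h3] at h1
  rcases mul_eq_zero.1 h1 with h5 | h5
  · exact hp (pow_eq_zero_iff (by simp) |>.1 h5)
  · have h6 : ((1 + k : ℕ) : ℂ) = 0 := by push_cast; exact h5
    rw [Nat.cast_eq_zero] at h6
    omega

theorem smooth_trunc (h : J → MvPolynomial (Fin (n + 1)) ℂ) (c : ℕ) (p : Fin (n + 1) → ℂ)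
    (hp : p ≠ 0) (hs : SmoothAt h c p) :
    SmoothAt (fun x : Fin (n + 1) × J => X x.1 * h x.2) c p := by
  obtain ⟨i, hi⟩ : ∃ i, p i ≠ 0 := by
    by_contra h0
    push Not at h0
    exact hp (funext h0)
  obtain ⟨e, s, w, hw, he, hwe, hdet⟩ := hs
  refine ⟨fun t => (i, e t), s, X i * w, ?_, fun t => ?_, ?_, ?_⟩
  · rw [map_mul, eval_X]
    exact mul_ne_zero hi hw
  · simp only
    rw [map_mul, he t, mul_zero]
  · rintro ⟨i', j⟩
    obtain ⟨a, ha⟩ := Ideal.mem_span_range_iff_exists_fun.1 (hwe j)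
    refine Ideal.mem_span_range_iff_exists_fun.2 ⟨fun t => X i' * a t, ?_⟩
    have h1 : X i * w * (X i' * h j) = X i' * X i * (w * h j) := by ring
    simp only
    rw [h1, ← ha, Finset.mul_sum]
    refine Finset.sum_congr rfl fun t _ => ?_
    ring
  · have h1 : (Matrix.of fun u t => eval p (pderiv (s u) (X i * h (e t)))) =
        p i • (Matrix.of fun u t => eval p (pderiv (s u) (h (e t)))) := by
      ext1 u t
      rw [Matrix.of_apply, Matrix.smul_apply, Matrix.of_apply, Derivation.leibniz, smul_eq_mul,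
        smul_eq_mul, map_add, map_mul, map_mul, eval_X, he t, zero_mul, add_zero, smul_eq_mul]
    simp only
    rw [h1, Matrix.det_smul]
    exact mul_ne_zero (pow_ne_zero _ hi) hdet

theorem eval_trunc (h : J → MvPolynomial (Fin (n + 1)) ℂ) (p : Fin (n + 1) → ℂ) (hp : p ≠ 0)
    (hz : ∀ x : Fin (n + 1) × J, eval p (X x.1 * h x.2) = 0) (j : J) : eval p (h j) = 0 := by
  obtain ⟨i, hi⟩ : ∃ i, p i ≠ 0 := by
    by_contra h2
    push Not at h2
    exact hp (funext h2)
  have h2 := hz (i, j)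
  simp only at h2
  rw [map_mul, eval_X] at h2
  exact (mul_eq_zero.1 h2).resolve_left hi

/-- **The truncations** `𝔪 J` of the ideals `J` generated by forms of the same degree which define a
smooth projective scheme. -/
theorem trunc_strong (h : J → MvPolynomial (Fin (n + 1)) ℂ) (k : ℕ)
    (hh : ∀ j, (h j).IsHomogeneous k) (h0 : ∃ j, h j ≠ 0)
    (hs : ∀ p : Fin (n + 1) → ℂ, p ≠ 0 → (∀ j, eval p (h j) = 0) → ∃ c, SmoothAt h c p) :
    ∃ C : Finset ℕ, (∀ c ∈ C, 0 < c) ∧ StrongMC (fun x : Fin (n + 1) × J => X x.1 * h x.2)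
      (conePairs (n := n) (1 + k) C ∅ fun _ => ∅) := by
  obtain ⟨j, hj⟩ := h0
  obtain ⟨C, hC⟩ := exists_codims fun x : Fin (n + 1) × J => X x.1 * h x.2
  have h1 := cone_strong _ (1 + k) (by omega) (fun x : Fin (n + 1) × J =>
    (isHomogeneous_X ℂ x.1).mul (hh x.2)) ⟨fun i => (i, j), det_trunc (h j) k (hh j) hj⟩ ∅
    (fun _ => ∅) (by simp) (fun p hp hz => by
      left
      obtain ⟨c, hc⟩ := hs p hp (eval_trunc h p hp hz)
      exact ⟨c, smooth_trunc h c p hp hc⟩) C hC
  refine ⟨C, fun c hc => ?_, h1⟩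
  have h2 := (h1.1 (-(c : ℤ), 1) (Finset.mem_insert_of_mem (Finset.mem_union_left _
    (Finset.mem_image.2 ⟨c, hc, rfl⟩)))).1
  simp only at h2
  omega

end truncation

end Pool.Agent.Q49.CO
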