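import Pool.Agent.Q49.CO.Main

set_option autoImplicit false
set_option linter.unusedSectionVars false
set_option linter.unusedVariables false

/-! # Jets of the hypersurfaces `∑ y_j f_j(x) = 0` -/

namespace Pool.Agent.Q49.CO

open MvPolynomial Pool.Agent.W428.MOT Pool.Agent.TH192.MT Pool.Agent.TH192.DT

section ser

variable {K F : Type} [Field K] [Field F] [Algebra K F] {σ J : Type} [Fintype J]

/-- the form `∑ y_j f_j` -/
noncomputable def uni (f : J → MvPolynomial σ K) : MvPolynomial (J ⊕ σ) K :=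
  ∑ j, X (Sum.inl j) * rename Sum.inr (f j)

/-- the member `∑ y_j f_j` of the linear system -/
noncomputable def lsy (f : J → MvPolynomial σ K) (y : J → K) : MvPolynomial σ K :=
  ∑ j, C (y j) * f j

theorem aeval_uni {A : Type} [CommRing A] [Algebra K A] (f : J → MvPolynomial σ K)
    (z : J ⊕ σ → A) :
    aeval z (uni f) = ∑ j, z (Sum.inl j) * aeval (fun i => z (Sum.inr i)) (f j) := by
  unfold uni
  rw [map_sum]
  refine Finset.sum_congr rfl fun j _ => ?_
  rw [map_mul, aeval_X, aeval_rename]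
  rfl

theorem aeval_lsy {A : Type} [CommRing A] [Algebra K A] (f : J → MvPolynomial σ K) (y : J → K)
    (x : σ → A) : aeval x (lsy f y) = ∑ j, algebraMap K A (y j) * aeval x (f j) := by
  unfold lsy
  rw [map_sum]
  refine Finset.sum_congr rfl fun j _ => ?_
  rw [map_mul, algHom_C]

theorem lsy_hom (f : J → MvPolynomial σ K) (y : J → K) (d : ℕ)
    (hf : ∀ j, (f j).IsHomogeneous d) : (lsy f y).IsHomogeneous d := by
  refine IsHomogeneous.sum _ _ _ fun j _ => ?_
  have h1 := (isHomogeneous_C σ (y j)).mul (hf j)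
  rwa [zero_add] at h1

end ser

section split

/-- the coordinates of the jets -/
def eU (σ J : Type) (N : ℕ) :
    (σ × Fin (N + 1) ⊕ J) ⊕ (J × Fin N) ≃ (J ⊕ σ) × Fin (N + 1) where
  toFun := fun x => match x with
    | Sum.inl (Sum.inl q) => (Sum.inr q.1, q.2)
    | Sum.inl (Sum.inr j) => (Sum.inl j, 0)
    | Sum.inr q => (Sum.inl q.1, q.2.succ)
  invFun := fun x => match x with
    | (Sum.inr s, i) => Sum.inl (Sum.inl (s, i))
    | (Sum.inl j, i) => Fin.cases (motive := fun _ => (σ × Fin (N + 1) ⊕ J) ⊕ (J × Fin N))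
        (Sum.inl (Sum.inr j)) (fun i => Sum.inr (j, i)) i
  left_inv := by
    rintro ((⟨s, i⟩ | j) | ⟨j, i⟩)
    · rfl
    · rfl
    · rfl
  right_inv := by
    rintro ⟨j | s, i⟩
    · refine Fin.cases ?_ (fun i => ?_) i
      · rfl
      · rfl
    · rfl

variable {K : Type} [Field K] {R : Type} [CommRing R] (M : Meas K R) {σ J : Type} [Fintype σ]
  [Fintype J]

theorem constr_pt {τ : Type} [Fintype τ] (y : τ → K) :
    Constr ({fun j => algebraMap K (AlgebraicClosure K) (y j)} : Set (Pt K τ)) :=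
  constr_point y

theorem chi_pt {τ : Type} [Fintype τ] (y : τ → K) :
    M.χ τ ({fun j => algebraMap K (AlgebraicClosure K) (y j)} : Set (Pt K τ)) = 1 := by
  rw [← M.point (ι := Empty)]
  refine M.iso _ _ (constr_pt y) Constr.univ (fun _ i => i.elim)
    (fun _ j => algebraMap K (AlgebraicClosure K) (y j)) (fun i => i.elim)
    (fun i => (IsPF.const _).isRF _) (fun _ _ => trivial) (fun _ _ => rfl) ?_ ?_
  · intro z hz
    rw [Set.mem_singleton_iff] at hz
    rw [hz]
  · intro w _
    funext i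
    exact i.elim

/-- the `x`-part -/
def xp {N : ℕ} (z : Pt K ((J ⊕ σ) × Fin (N + 1))) : Pt K (σ × Fin (N + 1)) :=
  fun q => z (Sum.inr q.1, q.2)

theorem ar_xp {N : ℕ} (z : Pt K ((J ⊕ σ) × Fin (N + 1))) :
    (fun i => ar z (Sum.inr i)) = ar (xp z) := rfl

/-- the jets with `y(0) = y` and `x`-part in `A` -/
def SY (y : J → K) {N : ℕ} (A : Set (Pt K (σ × Fin (N + 1)))) :
    Set (Pt K ((J ⊕ σ) × Fin (N + 1))) :=
  {z | (∀ j, z (Sum.inl j, 0) = algebraMap K _ (y j)) ∧ xp z ∈ A}

theorem constr_SY (y : J → K) {N : ℕ} {A : Set (Pt K (σ × Fin (N + 1)))} (hA : Constr A) :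
    Constr (SY y A) :=
  Constr.and (Constr.all fun j => Constr.eq (IsPF.coord _) (IsPF.const _))
    (hA.preimage (fun z : Pt K ((J ⊕ σ) × Fin (N + 1)) => xp z) fun i => IsPF.coord _)

/-- Jets with given `x`-part and `y(0)`. -/
theorem chi_SY (y : J → K) {N : ℕ} (A : Set (Pt K (σ × Fin (N + 1)))) (hA : Constr A) :
    M.χ _ (SY y A) = M.χ _ A * M.L ^ (Fintype.card J * N) := by
  set P : Set (Pt K J) := {fun j => algebraMap K (AlgebraicClosure K) (y j)} with hP
  have cT : Constr {z : Pt K (σ × Fin (N + 1) ⊕ J) | (fun i => z (Sum.inl i)) ∈ A ∧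
      (fun i => z (Sum.inr i)) ∈ P} :=
    Constr.and (hA.preimage (fun z : Pt K (σ × Fin (N + 1) ⊕ J) => fun i => z (Sum.inl i))
      fun i => IsPF.coord _) ((constr_pt y).preimage (fun z : Pt K (σ × Fin (N + 1) ⊕ J) =>
        fun i => z (Sum.inr i)) fun i => IsPF.coord _)
  rw [chi_split M (eU σ J N) _ _ cT, M.prod A P hA (constr_pt y), hP, chi_pt, mul_one,
    Fintype.card_prod, Fintype.card_fin]
  intro z
  unfold SY
  rw [Set.mem_ofPred_eq, Set.mem_ofPred_eq, and_comm]
  refine and_congr Iff.rfl ?_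
  rw [hP, Set.mem_singleton_iff]
  exact ⟨fun h => funext fun j => h j, fun h j => congrFun h j⟩

end split

section lin

variable {K : Type} [Field K] {R : Type} [CommRing R] (M : Meas K R) {σ J : Type} [Fintype σ]
  [Fintype J]

/-- the `x`-jets of order exactly `k` -/
def AX (f : J → MvPolynomial σ K) (W : Set (Pt K σ)) (k N : ℕ) : Set (Pt K (σ × Fin (N + 1))) :=
  GW f W k N ∩ (GW f W (k + 1) N)ᶜ

theorem constr_AX (f : J → MvPolynomial σ K) {W : Set (Pt K σ)} (hW : Constr W) (k N : ℕ) :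
    Constr (AX f W k N) := (constr_GW f hW k N).inter (constr_GW f hW (k + 1) N).compl

open Classical in
/-- the coordinates `y_{j,i}`, `i > 0` -/
noncomputable def yC (σ J : Type) [Fintype J] (N : ℕ) : Finset ((J ⊕ σ) × Fin (N + 1)) :=
  (Finset.univ : Finset (J × Fin N)).image fun q => ((Sum.inl q.1 : J ⊕ σ), q.2.succ)

/-- the coefficients of `∑ y_j f_j` -/
theorem coeff_uni (f : J → MvPolynomial σ K) (y : J → K) (W : Set (Pt K σ)) (k N m : ℕ)
    (hm : k + m ≤ N) (z : Pt K ((J ⊕ σ) × Fin (N + 1))) (hz : z ∈ SY y (GW f W k N)) :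
    PowerSeries.coeff (k + m) (aeval (ar z) (uni f)) =
      ∑ v ∈ yC σ J N,
        (if (v.2 : ℕ) ≤ m then PowerSeries.coeff (k + m - v.2)
          (aeval (ar (xp z)) (Sum.elim f (fun _ => 0) v.1)) else 0) * z v +
      PowerSeries.coeff (k + m) (aeval (ar (xp z)) (lsy f y)) := by
  classical
  unfold yC
  rw [Finset.sum_image (by
    rintro ⟨j, i⟩ _ ⟨j', i'⟩ _ h
    have h1 := (Prod.mk.inj h).1
    have h2 := (Prod.mk.inj h).2
    exact Prod.ext (Sum.inl.inj h1) (Fin.succ_injective _ h2)), ← Finset.univ_product_univ,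
    Finset.sum_product, aeval_uni, aeval_lsy, map_sum, map_sum, ← Finset.sum_add_distrib]
  refine Finset.sum_congr rfl fun j _ => ?_
  simp only [Sum.elim_inl]
  rw [PowerSeries.coeff_mul, Finset.Nat.sum_antidiagonal_eq_sum_range_succ_mk, ar_xp]
  have h0 : ∀ i : ℕ, i ∈ Finset.range (k + m).succ → m < i →
      PowerSeries.coeff i (ar z (Sum.inl j)) *
        PowerSeries.coeff (k + m - i) (aeval (ar (xp z)) (f j)) = 0 := by
    intro i hi h
    rw [Finset.mem_range] at hi
    have h1 := hz.2.2 j (k + m - i) (by omega)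
    rw [h1, mul_zero]
  rw [Finset.sum_range_succ']
  congr 1
  · rw [← Finset.sum_subset (s₁ := Finset.range m) (Finset.range_subset_range.2 (by omega))]
    · rw [Finset.sum_fin_eq_sum_range]
      rw [← Finset.sum_subset (s₁ := Finset.range m) (s₂ := Finset.range N)
        (Finset.range_subset_range.2 (by omega))]
      · refine Finset.sum_congr rfl fun i hi => ?_
        rw [Finset.mem_range] at hi
        rw [dif_pos (by omega : i < N), if_pos (by simp only [Fin.val_succ]; omega), coeff_ar,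
          dif_pos (by omega)]
        simp only [Fin.val_succ]
        rw [mul_comm]
        rfl
      · intro i hi hi'
        rw [Finset.mem_range] at hi hi'
        rw [dif_pos hi, if_neg (by simp only [Fin.val_succ]; omega), zero_mul]
    · intro i hi hi'
      rw [Finset.mem_range] at hi hi'
      exact h0 (i + 1) (by rw [Finset.mem_range]; omega) (by omega)
  · rw [coeff_ar_zero, hz.1 j, PowerSeries.algebraMap_apply, PowerSeries.coeff_C_mul,
      Nat.sub_zero]

/-- Linear conditions on `y`. -/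
theorem chi_lin (f : J → MvPolynomial σ K) (y : J → K) {W : Set (Pt K σ)} (hW : Constr W)
    (k N q : ℕ) (hq : k + q ≤ N) (c : Fin q → K) (A : Set (Pt K (σ × Fin (N + 1))))
    (hA : Constr A) (hAX : A ⊆ AX f W k N) :
    M.χ _ (SY y A ∩ {z | ∀ p : Fin q, PowerSeries.coeff (k + (p + 1))
      (aeval (ar z) (uni f)) = algebraMap K _ (c p)}) * M.L ^ q = M.χ _ (SY y A) := by
  classical
  set C : Finset ((J ⊕ σ) × Fin (N + 1)) := yC σ J N with hC
  have hmC : ∀ (j : J) (i : Fin N), ((Sum.inl j : J ⊕ σ), i.succ) ∈ C := fun j i =>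
    Finset.mem_image.2 ⟨(j, i), Finset.mem_univ _, rfl⟩
  have hnC : ∀ v ∈ C, ∃ (j : J) (i : Fin N), v = (Sum.inl j, i.succ) := by
    intro v hv
    obtain ⟨⟨j, i⟩, _, rfl⟩ := Finset.mem_image.1 hv
    exact ⟨j, i, rfl⟩
  set D : Fin q → ((J ⊕ σ) × Fin (N + 1)) → Pt K ((J ⊕ σ) × Fin (N + 1)) →
      AlgebraicClosure K := fun p v z =>
    if (v.2 : ℕ) ≤ (p + 1 : ℕ) then PowerSeries.coeff (k + (p + 1) - v.2)
      (aeval (ar (xp z)) (Sum.elim f (fun _ => 0) v.1)) else 0 with hD
  have key := sLin' M C q (SY y A) D (fun p z => PowerSeries.coeff (k + (p + 1))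
    (aeval (ar (xp z)) (lsy f y)) - algebraMap K _ (c p)) (constr_SY y hA) ?_ ?_ ?_ ?_
  · rw [← key]
    congr 2
    ext z
    rw [Set.mem_inter_iff, Set.mem_inter_iff]
    refine and_congr_right fun hz => forall_congr' fun p => ?_
    rw [coeff_uni f y W k N (p + 1) (by omega) z ⟨hz.1, (hAX hz.2).1⟩, ← add_sub_assoc,
      sub_eq_zero]
  · intro p v
    simp only [hD]
    split_ifs
    · exact pf_coeffK (fun z : Pt K ((J ⊕ σ) × Fin (N + 1)) => xp z) (fun i => IsPF.coord _) _ _
    · exact IsPF.zero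
  · intro p
    have h1 := IsPF.const (K := K) (ι := (J ⊕ σ) × Fin (N + 1)) (-(c p))
    simp only [sub_eq_add_neg]
    refine (pf_coeffK (fun z : Pt K ((J ⊕ σ) × Fin (N + 1)) => xp z)
      (fun i => IsPF.coord _) _ _).add ?_
    simpa only [map_neg] using h1
  · intro z w hzw
    have h1 : xp w = xp z := by
      funext i
      refine hzw _ fun h => ?_
      obtain ⟨j, i', h2⟩ := hnC _ h
      have h3 := (Prod.mk.inj h2).1
      cases h3
    refine ⟨?_, ?_, fun _ => by rw [h1]⟩
    · rintro ⟨h2, h3⟩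
      refine ⟨fun j => ?_, by rw [h1]; exact h3⟩
      rw [hzw _ fun h => ?_]
      · exact h2 j
      · obtain ⟨j', i', h4⟩ := hnC _ h
        exact (Fin.succ_ne_zero i') (Prod.mk.inj h4).2.symm
    · intro p v
      simp only [hD, h1]
  · intro z hz l hl
    obtain ⟨h1, h4⟩ := hz
    obtain ⟨h2, h3⟩ := hAX h4
    obtain ⟨j, hj⟩ : ∃ j, PowerSeries.coeff k (aeval (ar (xp z)) (f j)) ≠ 0 := by
      by_contra h4
      push Not at h4
      apply h3
      refine ⟨h2.1, fun j i hi => ?_⟩
      rcases Nat.lt_succ_iff_lt_or_eq.1 hi with h5 | rfl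
      · exact h2.2 j i h5
      · exact h4 j
    by_contra hne
    push Not at hne
    obtain ⟨p0, hp0⟩ := hne
    obtain ⟨p, hp, hmax⟩ := (Finset.univ.filter fun p => l p ≠ 0).exists_maximal
      ⟨p0, by simp [hp0]⟩
    have hp' := (Finset.mem_filter.1 hp).2
    have h4 := hl (Sum.inl j, (⟨p, by omega⟩ : Fin N).succ) (hmC _ _)
    rw [Finset.sum_eq_single p] at h4
    · simp only [hD, Fin.val_succ, Sum.elim_inl] at h4
      rw [if_pos le_rfl, Nat.add_sub_cancel] at h4
      exact (mul_ne_zero hp' hj) h4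
    · intro p' _ hpp
      simp only [hD, Fin.val_succ]
      by_cases hlt : (p : ℕ) ≤ p'
      · have h5 : l p' = 0 := by
          by_contra h6
          have h7 := hmax (Finset.mem_filter.2 ⟨Finset.mem_univ p', h6⟩) (Fin.le_def.2 hlt)
          exact hpp (le_antisymm h7 (Fin.le_def.2 hlt))
        rw [h5, zero_mul]
      · rw [if_neg (by omega), mul_zero]
    · intro h
      exact absurd (Finset.mem_univ _) h

end lin

section eps

variable {K : Type} [Field K] {R : Type} [CommRing R]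

/-- conditions with values in `E` are constructible -/
def CE (E : Set (AlgebraicClosure K)) : Prop :=
  ∀ {ι : Type} (φ : Pt K ι → AlgebraicClosure K), IsPF φ → Constr {z | φ z ∈ E}

theorem ce_zero : CE (K := K) {0} := fun φ h => Constr.eqz h

theorem ce_one : CE (K := K) {1} := fun φ h => Constr.eq h IsPF.one

theorem ce_ne : CE (K := K) {c | c ≠ 0} := fun φ h => Constr.not (Constr.eqz h)

/-- `ε` is the class of `E`, for equidistributed functions. -/
def Eps (M : Meas K R) (v : R) (E : Set (AlgebraicClosure K)) (ε : R) : Prop :=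
  ∀ {ι : Type} [Fintype ι] (S : Set (Pt K ι)) (φ : Pt K ι → AlgebraicClosure K), Constr S →
    IsPF φ → (∀ c : K, M.χ ι (S ∩ {z | φ z = algebraMap K _ c}) * M.L = M.χ ι S) →
    M.χ ι (S ∩ {z | φ z ∈ E}) = ε * v * M.χ ι S

theorem eps_one (M : Meas K R) {v : R} (hv : M.L * v = 1) : Eps M v {1} 1 := by
  intro ι _ S φ hS hφ h
  have h1 := h 1
  rw [map_one] at h1
  rw [← h1]
  change M.χ ι (S ∩ {z | φ z = 1}) = _
  linear_combination (- M.χ ι (S ∩ {z | φ z = 1})) * hv

theorem eps_ne (M : Meas K R) {v : R} (hv : M.L * v = 1) : Eps M v {c | c ≠ 0} (M.L - 1) := by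
  intro ι _ S φ hS hφ h
  have h1 := h 0
  rw [map_zero] at h1
  have h2 : S = (S ∩ {z | φ z = 0}) ∪ (S ∩ {z | φ z ≠ 0}) := by
    ext z
    simp only [Set.mem_union, Set.mem_inter_iff, Set.mem_ofPred_eq]
    tauto
  have h3 : Disjoint (S ∩ {z | φ z = 0}) (S ∩ {z | φ z ≠ 0}) :=
    Set.disjoint_left.2 fun z hz hz' => hz'.2 hz.2
  have h4 := M.add _ _ (hS.inter (Constr.eqz hφ)) (hS.inter (Constr.not (Constr.eqz hφ))) h3
  rw [← h2] at h4
  change M.χ ι (S ∩ {z | φ z ≠ 0}) = _
  linear_combination (-(1 : R)) * h4 + (M.χ ι (S ∩ {z | φ z = 0}) - M.χ ι S) * hv - v * h1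

end eps

end Pool.Agent.Q49.CO
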