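import Pool.Agent.Q49.CO.Hyp

set_option autoImplicit false
set_option linter.unusedSectionVars false
set_option linter.unusedVariables false

/-! # The volumes with a condition on the leading coefficient of a member of the linear system -/

namespace Pool.Agent.Q49.CO

open MvPolynomial Pool.Agent.W428.MOT Pool.Agent.TH192.MT Pool.Agent.TH192.DT

section vol

variable {K : Type} [Field K] {R : Type} [CommRing R] (M : Meas K R) {σ J : Type} [Fintype σ]
  [Fintype J]

/-- The jets with origin in `W` on which the `f j` have the order at least `N` and the coefficient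
of order `N` of `g` is in `E`. -/
def GH (f : J → MvPolynomial σ K) (g : MvPolynomial σ K) (E : Set (AlgebraicClosure K))
    (W : Set (Pt K σ)) (N m : ℕ) : Set (Pt K (σ × Fin (m + 1))) :=
  GW f W N m ∩ {z | PowerSeries.coeff N (aeval (ar z) g) ∈ E}

theorem mem_GH (f : J → MvPolynomial σ K) (g : MvPolynomial σ K) (E : Set (AlgebraicClosure K))
    (W : Set (Pt K σ)) (N m : ℕ) (z : Pt K (σ × Fin (m + 1))) :
    z ∈ GH f g E W N m ↔ ((fun i => z (i, 0)) ∈ W ∧ ∀ j, Vn N (aeval (ar z) (f j))) ∧
      PowerSeries.coeff N (aeval (ar z) g) ∈ E := Iff.rfl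

theorem constr_GH (f : J → MvPolynomial σ K) (g : MvPolynomial σ K)
    {E : Set (AlgebraicClosure K)} (hE : CE E) {W : Set (Pt K σ)} (hW : Constr W) (N m : ℕ) :
    Constr (GH f g E W N m) :=
  (constr_GW f hW N m).inter (hE _ (pf_coeffK (fun z => z) (fun i => IsPF.coord _) _ _))

theorem chi_levH (f : J → MvPolynomial σ K) (g : MvPolynomial σ K)
    {E : Set (AlgebraicClosure K)} (hE : CE E) {W : Set (Pt K σ)} (hW : Constr W) (N m : ℕ)
    (hN : N ≤ m) :
    M.χ _ (GH f g E W N (m + 1)) = M.χ _ (GH f g E W N m) * M.L ^ Fintype.card σ := by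
  refine chi_split M (eL σ m) _ _ (constr_GH f g hE hW N m) fun z => ?_
  have h1 : ∀ i, Cg m (ar z i) (ar (N := m) (fun x => z (eL σ m (Sum.inl x))) i) := by
    intro i k hk
    rw [coeff_ar, coeff_ar, dif_pos (by omega), dif_pos (by omega)]
    rfl
  rw [mem_GH, mem_GH, cg_aevalK g m _ _ h1 N hN]
  refine and_congr (and_congr Iff.rfl (forall_congr' fun j => ?_)) Iff.rfl
  exact vn_congr' (cg_aevalK _ m _ _ h1) (by omega)

variable (v : R)

noncomputable def volH (f : J → MvPolynomial σ K) (g : MvPolynomial σ K)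
    (E : Set (AlgebraicClosure K)) (W : Set (Pt K σ)) (N : ℕ) : R :=
  M.χ _ (GH f g E W N N) * v ^ (Fintype.card σ * (N + 1))

variable {v} (hv : M.L * v = 1)
include hv

theorem volH_eq (f : J → MvPolynomial σ K) (g : MvPolynomial σ K)
    {E : Set (AlgebraicClosure K)} (hE : CE E) {W : Set (Pt K σ)} (hW : Constr W) (N m : ℕ)
    (hN : N ≤ m) :
    M.χ _ (GH f g E W N m) * v ^ (Fintype.card σ * (m + 1)) = volH M v f g E W N := by
  obtain ⟨k, rfl⟩ := Nat.exists_eq_add_of_le hN
  unfold volH
  clear hN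
  induction k with
  | zero => rfl
  | succ k ih =>
    rw [← ih]
    have h2 : N + (k + 1) = (N + k) + 1 := by ring
    rw [h2, chi_levH M f g hE hW N (N + k) (by omega), mul_add (Fintype.card σ) (N + k + 1) 1,
      pow_add, mul_one]
    have h3 : M.L ^ Fintype.card σ * v ^ Fintype.card σ = 1 := by rw [← mul_pow, hv, one_pow]
    linear_combination (M.χ _ (GH f g E W N (N + k)) * v ^ (Fintype.card σ * (N + k + 1))) * h3

omit hv in
theorem volH_add (f : J → MvPolynomial σ K) (g : MvPolynomial σ K)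
    {E : Set (AlgebraicClosure K)} (hE : CE E) {W W' : Set (Pt K σ)} (hW : Constr W)
    (hW' : Constr W') (hd : Disjoint W W') (N : ℕ) :
    volH M v f g E (W ∪ W') N = volH M v f g E W N + volH M v f g E W' N := by
  have h1 : GH f g E (W ∪ W') N N = GH f g E W N N ∪ GH f g E W' N N := by
    ext z
    rw [Set.mem_union, mem_GH, mem_GH, mem_GH, Set.mem_union]
    tauto
  have h2 : Disjoint (GH f g E W N N) (GH f g E W' N N) := by
    rw [Set.disjoint_left] at hd ⊢
    intro z hz hz'
    exact hd hz.1.1 hz'.1.1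
  unfold volH
  rw [h1, M.add _ _ (constr_GH f g hE hW _ _) (constr_GH f g hE hW' _ _) h2, add_mul]

omit hv in
theorem volH_empty (f : J → MvPolynomial σ K) (g : MvPolynomial σ K)
    (E : Set (AlgebraicClosure K)) (N : ℕ) : volH M v f g E ∅ N = 0 := by
  have h1 : GH f g E ∅ N N = ∅ := by
    rw [Set.eq_empty_iff_forall_notMem]
    intro z hz
    exact hz.1.1
  unfold volH
  rw [h1, Pool.Agent.W375.MT.chi_empty, zero_mul]

/-- away from the zeros -/
theorem volH_off (f : J → MvPolynomial σ K) (g : MvPolynomial σ K)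
    (E : Set (AlgebraicClosure K)) {W : Set (Pt K σ)}
    (h : ∀ w ∈ W, ∃ j, aeval w (f j) ≠ 0) (N : ℕ) : volH M v f g E W (N + 1) = 0 := by
  have h1 : GH f g E W (N + 1) (N + 1) = ∅ := by
    rw [Set.eq_empty_iff_forall_notMem]
    intro z hz
    obtain ⟨j, hj⟩ := h _ hz.1.1
    apply hj
    have h2 := hz.1.2 j 0 (Nat.succ_pos N)
    rw [coeff_zero_aevalK] at h2
    rw [← h2]
    congr 2
    funext i
    rw [coeff_ar_zero]
  unfold volH
  rw [h1, Pool.Agent.W375.MT.chi_empty, zero_mul]

/-- `g` of order at least `N + 1` on all the jets -/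
theorem volH_all (f : J → MvPolynomial σ K) (g : MvPolynomial σ K) {W : Set (Pt K σ)} (N : ℕ)
    (h : ∀ z ∈ GW f W N N, PowerSeries.coeff N (aeval (ar z) g) = 0) :
    volH M v f g {0} W N = vol M v f W N := by
  have h1 : GH f g {0} W N N = GW f W N N := Set.inter_eq_left.2 fun z hz => h z hz
  unfold volH vol
  rw [h1]

theorem volH_none (f : J → MvPolynomial σ K) (g : MvPolynomial σ K)
    (E : Set (AlgebraicClosure K)) (hE : (0 : AlgebraicClosure K) ∉ E) {W : Set (Pt K σ)} (N : ℕ)
    (h : ∀ z ∈ GW f W N N, PowerSeries.coeff N (aeval (ar z) g) = 0) :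
    volH M v f g E W N = 0 := by
  have h1 : GH f g E W N N = ∅ := by
    rw [Set.eq_empty_iff_forall_notMem]
    rintro z ⟨hz, hz'⟩
    rw [Set.mem_ofPred_eq, h z hz] at hz'
    exact hE hz'
  unfold volH
  rw [h1, Pool.Agent.W375.MT.chi_empty, zero_mul]

/-- equidistribution, where the differential of `g` does not vanish -/
theorem chi_equi (f : J → MvPolynomial σ K) (g : MvPolynomial σ K) {W : Set (Pt K σ)}
    (hW : Constr W) (hg : ∀ z ∈ W, ∃ s, aeval z (pderiv s g) ≠ 0) (k : ℕ)
    (c : K) :
    M.χ _ (GW f W (k + 1) (k + 1) ∩ {z | PowerSeries.coeff (k + 1) (aeval (ar z) g) =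
      algebraMap K _ c}) * M.L = M.χ _ (GW f W (k + 1) (k + 1)) := by
  classical
  set m := k + 1 with hm
  set s' : Fin (m + 1) := Fin.last m with hs'
  set C : Finset (σ × Fin (m + 1)) := Finset.univ.image (fun s => (s, s')) with hC
  have hmC : ∀ p, p ∈ C ↔ p.2 = s' := by
    intro p
    rw [hC, Finset.mem_image]
    constructor
    · rintro ⟨v, _, rfl⟩
      rfl
    · intro h
      exact ⟨p.1, Finset.mem_univ _, Prod.ext rfl h.symm⟩
  have h0s : (0 : Fin (m + 1)) ≠ s' := by
    intro h
    have := congrArg Fin.val h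
    simp [hs', hm] at this
  set zr : Pt K (σ × Fin (m + 1)) → Pt K (σ × Fin (m + 1)) := fun z q =>
    if q.2 = s' then 0 else z q with hzr
  set D : Fin 1 → (σ × Fin (m + 1)) → Pt K (σ × Fin (m + 1)) → AlgebraicClosure K :=
    fun _ q z => aeval (fun i => z (i, 0)) (pderiv q.1 g) with hD
  set H : Fin 1 → Pt K (σ × Fin (m + 1)) → AlgebraicClosure K :=
    fun _ z => PowerSeries.coeff (k + 1) (aeval (ar (zr z)) g) - algebraMap K _ c with hH
  have hcoef : ∀ (z : Pt K (σ × Fin (m + 1))),
      PowerSeries.coeff (k + 1) (aeval (ar z) g) = ∑ q ∈ C, D 0 q z * z q +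
        PowerSeries.coeff (k + 1) (aeval (ar (zr z)) g) := by
    intro z
    rw [coeff_taylor g k (ar z) (ar (zr z)) (fun i => z (i, s'))]
    · rw [hC, Finset.sum_image (fun a _ b _ h => (Prod.mk.inj h).1)]
      congr 1
      refine Finset.sum_congr rfl fun s _ => ?_
      simp only [hD]
      congr 3
      funext i
      rw [coeff_ar_zero]
      simp only [hzr]
      rw [if_neg h0s]
    · intro i
      ext j
      rw [map_add, PowerSeries.coeff_C_mul, PowerSeries.coeff_X_pow, coeff_ar, coeff_ar]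
      by_cases hj : j < m + 1
      · rw [dif_pos hj, dif_pos hj]
        simp only [hzr]
        by_cases hjk : j = k + 1
        · subst hjk
          have h1 : (⟨k + 1, hj⟩ : Fin (m + 1)) = s' := Fin.ext (by simp [hs', hm])
          rw [h1, if_pos rfl, if_pos rfl, zero_add, mul_one]
        · rw [if_neg, if_neg hjk, mul_zero, add_zero]
          intro h
          apply hjk
          have := congrArg Fin.val h
          simpa [hs', hm] using this
      · rw [dif_neg hj, dif_neg hj, if_neg (by omega), mul_zero, add_zero]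
  have key := sLin' M C 1 (GW f W (k + 1) m) D H (constr_GW f hW _ _) ?_ ?_ ?_ ?_
  · rw [pow_one] at key
    rw [← key]
    congr 2
    ext z
    rw [Set.mem_inter_iff, Set.mem_inter_iff]
    refine and_congr_right fun _ => ?_
    rw [Set.mem_ofPred_eq, Set.mem_ofPred_eq, hcoef, Fin.forall_fin_one]
    simp only [hH]
    rw [← add_sub_assoc, sub_eq_zero]
  · intro t q
    exact (IsPF.poly (pderiv q.1 g)).comp (fun (z : Pt K (σ × Fin (m + 1))) (i : σ) =>
      z (i, 0)) fun i => IsPF.coord _
  · intro t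
    have h1 := IsPF.const (K := K) (ι := σ × Fin (m + 1)) (-c)
    simp only [hH, sub_eq_add_neg]
    refine IsPF.add ?_ (by simpa only [map_neg] using h1)
    refine pf_coeffK (fun z => zr z) (fun q => ?_) _ _
    simp only [hzr]
    by_cases h : q.2 = s'
    · simp only [if_pos h]
      exact IsPF.zero
    · simp only [if_neg h]
      exact IsPF.coord q
  · intro z w hzw
    have h1 : ∀ i, w (i, 0) = z (i, 0) := fun i => hzw _ fun hc => h0s ((hmC _).1 hc)
    have h2 : ∀ i, Cg k (ar w i) (ar z i) := by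
      intro i j hj
      rw [coeff_ar, coeff_ar, dif_pos (by omega), dif_pos (by omega)]
      refine hzw _ fun hc => ?_
      have := congrArg Fin.val ((hmC _).1 hc)
      simp [hs', hm] at this
      omega
    refine ⟨?_, ?_, ?_⟩
    · rintro ⟨h3, h4⟩
      refine ⟨?_, fun t => (vn_congr' (cg_aevalK _ k _ _ h2) le_rfl).2 (h4 t)⟩
      have : (fun i => w (i, 0)) = fun i => z (i, 0) := funext h1
      rw [this]
      exact h3
    · intro t q
      simp only [hD]
      congr 2
      funext i
      exact h1 i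
    · intro t
      simp only [hH]
      have h5 : zr w = zr z := by
        funext q
        simp only [hzr]
        by_cases h : q.2 = s'
        · rw [if_pos h, if_pos h]
        · rw [if_neg h, if_neg h]
          exact hzw q fun hc => h ((hmC q).1 hc)
      rw [h5]
  · rintro z ⟨h1, h2⟩ l hl t
    obtain ⟨s, hs⟩ := hg _ h1
    have h3 := hl (s, s') ((hmC _).2 rfl)
    rw [Fin.sum_univ_one] at h3
    have h4 := (mul_eq_zero.1 h3).resolve_right hs
    rw [Fin.fin_one_eq_zero t]
    exact h4

theorem volH_equi (f : J → MvPolynomial σ K) (g : MvPolynomial σ K) {W : Set (Pt K σ)}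
    (hW : Constr W) (hg : ∀ z ∈ W, ∃ s, aeval z (pderiv s g) ≠ 0) (k : ℕ)
    {E : Set (AlgebraicClosure K)} {ε : R} (hE : Eps M v E ε) :
    volH M v f g E W (k + 1) = ε * v * vol M v f W (k + 1) := by
  unfold volH vol GH
  rw [hE _ _ (constr_GW f hW _ _) (pf_coeffK (fun z => z) (fun i => IsPF.coord _) _ _)
    (fun c => chi_equi M hv f g hW hg k c)]
  ring

theorem volH_equi0 (f : J → MvPolynomial σ K) (g : MvPolynomial σ K) {W : Set (Pt K σ)}
    (hW : Constr W) (hg : ∀ z ∈ W, ∃ s, aeval z (pderiv s g) ≠ 0) (k : ℕ) :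
    volH M v f g {0} W (k + 1) = v * vol M v f W (k + 1) := by
  have h1 := chi_equi M hv f g hW hg k 0
  rw [map_zero] at h1
  unfold volH vol GH
  rw [← h1]
  change M.χ _ (GW f W (k + 1) (k + 1) ∩ {z | PowerSeries.coeff (k + 1) (aeval (ar z) g) = 0}) *
    _ = _
  linear_combination (-(M.χ _ (GW f W (k + 1) (k + 1) ∩ {z | PowerSeries.coeff (k + 1)
    (aeval (ar z) g) = 0}) * v ^ (Fintype.card σ * (k + 1 + 1)))) * hv

end vol

end Pool.Agent.Q49.CO
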