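import Pool.Agent.Q49.CO.Hyp2

set_option autoImplicit false
set_option linter.unusedSectionVars false
set_option linter.unusedVariables false

/-! # Rationality of the generating series of the volumes -/

namespace Pool.Agent.Q49.CO

open MvPolynomial Pool.Agent.W428.MOT Pool.Agent.TH192.MT Pool.Agent.TH192.DT

section cover

variable {K : Type} [Field K] {R : Type} [CommRing R] {σ J : Type} [Fintype σ] [Finite J]

/-- additive functions of the set of the origins -/
structure AddF (Z : Set (Pt K σ) → PowerSeries R) : Prop where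
  empty : Z ∅ = 0
  add : ∀ W W', Constr W → Constr W' → Disjoint W W' → Z (W ∪ W') = Z W + Z W'

theorem AddF.cover {Z : Set (Pt K σ) → PowerSeries R} (hZ : AddF Z) {ι : Type}
    {A : Type} [SetLike A (PowerSeries R)]
    [AddSubmonoidClass A (PowerSeries R)] (P : A)
    (s : Finset ι) (C : ι → Set (Pt K σ)) (hC : ∀ i, Constr (C i)) :
    (∀ i ∈ s, ∀ W, Constr W → W ⊆ C i → Z W ∈ P) →
    ∀ W : Set (Pt K σ), Constr W → (∀ z ∈ W, ∃ i ∈ s, z ∈ C i) → Z W ∈ P := by
  classical
  induction s using Finset.induction_on with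
  | empty =>
    intro _ W hW h
    have : W = ∅ := Set.eq_empty_of_forall_notMem fun z hz => by
      obtain ⟨i, hi, _⟩ := h z hz
      exact absurd hi (Finset.notMem_empty i)
    rw [this, hZ.empty]
    exact zero_mem P
  | insert i s hi ih =>
    intro hP W hW h
    have h1 : W = (W ∩ C i) ∪ (W ∩ (C i)ᶜ) := (Set.inter_union_compl W (C i)).symm
    have h2 : Disjoint (W ∩ C i) (W ∩ (C i)ᶜ) :=
      Set.disjoint_left.2 fun z hz hz' => hz'.2 hz.2
    rw [h1, hZ.add _ _ (hW.inter (hC i)) (hW.inter (hC i).compl) h2]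
    refine add_mem (hP i (Finset.mem_insert_self _ _) _ (hW.inter (hC i)) Set.inter_subset_right)
      (ih (fun j hj => hP j (Finset.mem_insert_of_mem hj)) _ (hW.inter (hC i).compl) ?_)
    intro z hz
    obtain ⟨j, hj, hz'⟩ := h z hz.1
    rcases Finset.mem_insert.1 hj with rfl | hj
    · exact absurd hz' hz.2
    · exact ⟨j, hj, hz'⟩

end cover

section smooth

variable {R : Type} [CommRing R] {σ J : Type} [Fintype σ] [Finite J]

/-- the local generators on a set -/
def Gens (f : J → MvPolynomial σ ℂ) {c : ℕ} (e : Fin c → J) (W : Set (Pt ℂ σ)) : Prop :=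
  ∀ z ∈ W, ∃ w : MvPolynomial σ ℂ, aeval z w ≠ 0 ∧
    ∀ j, w * f j ∈ Ideal.span (Set.range fun t => f (e t))

theorem AddF.smooth {Z : Set (Pt ℂ σ) → PowerSeries R} (hZ : AddF Z)
    {A : Type} [SetLike A (PowerSeries R)]
    [AddSubmonoidClass A (PowerSeries R)] (P : A) (f : J → MvPolynomial σ ℂ)
    (hne : ∃ j, f j ≠ 0) (W : Set (Pt ℂ σ)) (hW : Constr W)
    (h : ∀ p : σ → ℂ, (fun i => algebraMap ℂ (AlgebraicClosure ℂ) (p i)) ∈ W →
      (∀ j, eval p (f j) = 0) → ∃ c, SmoothAt f c p)
    (off : ∀ W', Constr W' → W' ⊆ W → (∀ z ∈ W', ∃ j, aeval z (f j) ≠ 0) → Z W' ∈ P)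
    (st : ∀ (c : ℕ) (e : Fin c → J) (W' : Set (Pt ℂ σ)), 0 < c → Constr W' → W' ⊆ W →
      Indep (fun t => f (e t)) W' → Gens f e W' → (∃ p : σ → ℂ,
        (fun i => algebraMap ℂ (AlgebraicClosure ℂ) (p i)) ∈ W' ∧ SmoothAt f c p) →
      Z W' ∈ P) :
    Z W ∈ P := by
  classical
  cases nonempty_fintype J
  choose G hG1 hG2 using fun (x : Σ c : Fin (Fintype.card σ + 1), (Fin (c : ℕ) → J) ×
    (Fin (c : ℕ) → σ)) => exists_gen (Ideal.span (Set.range fun t => f (x.2.1 t))) f
  set C : Option (Σ c : Fin (Fintype.card σ + 1), (Fin (c : ℕ) → J) × (Fin (c : ℕ) → σ)) →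
      Set (Pt ℂ σ) := fun x => W ∩ (match x with
    | none => {z | ∃ j, aeval z (f j) ≠ 0}
    | some x => St f (G x) x.1 x.2.1 x.2.2) with hC
  refine hZ.cover P Finset.univ C ?_ ?_ W hW ?_
  · rintro (_ | x)
    · exact hW.inter (Constr.ex fun j => Constr.not (Constr.eqz (IsPF.poly _)))
    · exact hW.inter (constr_St f _ _ _ _)
  · rintro (_ | x) - W' hW' hs
    · exact off W' hW' (fun z hz => (hs hz).1) fun w hw => (hs hw).2
    · rcases W'.eq_empty_or_nonempty with rfl | ⟨z, hz⟩
      · rw [hZ.empty]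
        exact zero_mem _
      · obtain ⟨p, rfl⟩ := exists_pt z
        have h2 := smooth_of_St f (G x) x.1 x.2.1 x.2.2 (hG1 x) p (hs hz).2
        have h3 : 0 < (x.1 : ℕ) := by
          obtain ⟨⟨c, hc⟩, e, s⟩ := x
          rcases Nat.eq_zero_or_pos c with rfl | h4
          · exfalso
            obtain ⟨j, hj⟩ := hne
            obtain ⟨g, hg, h5⟩ := (hs hz).2.2.2
            have h6 := hG1 _ g hg j
            have h7 : (Set.range fun t : Fin 0 => f (e t)) = ∅ := Set.range_eq_empty _
            rw [h7, Ideal.span_empty, Ideal.mem_bot] at h6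
            rcases mul_eq_zero.1 h6 with h8 | h8
            · apply h5
              rw [h8, map_zero]
            · exact hj h8
          · exact h4
        exact st x.1 x.2.1 W' h3 hW' (fun z hz => (hs hz).1)
          (indep_St f (G x) x.1 x.2.1 x.2.2 W' fun z hz => (hs hz).2)
          (fun z hz => by
            obtain ⟨g, hg, h3⟩ := (hs hz).2.2.2
            exact ⟨g, h3, hG1 x g hg⟩) ⟨p, hz, h2⟩
  · intro z hz
    by_cases h0 : ∃ j, aeval z (f j) ≠ 0
    · exact ⟨none, Finset.mem_univ _, hz, h0⟩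
    · push Not at h0
      obtain ⟨p, rfl⟩ := exists_pt z
      obtain ⟨c, e, s, w, h1, h2, h3, h4⟩ := h p hz fun j => (aeval_pt_zero p _).1 (h0 j)
      have hinj : Function.Injective s := by
        intro a b hab
        by_contra hne'
        apply h4
        refine Matrix.det_zero_of_row_eq hne' ?_
        funext t
        simp only [Matrix.of_apply, hab]
      have hc : c < Fintype.card σ + 1 := by
        have := Fintype.card_le_of_injective s hinj
        rw [Fintype.card_fin] at this
        omega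
      refine ⟨some ⟨⟨c, hc⟩, e, s⟩, Finset.mem_univ _, hz, fun t => (aeval_pt_zero p _).2 (h2 t),
        ?_, ?_⟩
      · have h5 := det_aeval (A := ℂ) p fun u t => pderiv (s u) (f (e t))
        rw [Ne, aeval_pt_zero]
        intro h6
        apply h4
        exact h5.symm.trans h6
      · exact hG2 ⟨⟨c, hc⟩, e, s⟩ _ w h3 (by rw [Ne, aeval_pt_zero]; exact h1)

end smooth

section series

variable {K : Type} [Field K] {R : Type} [CommRing R] (M : Meas K R) (v : R) {σ J : Type}
  [Fintype σ] [Fintype J]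

/-- `∑ volH T ^ N` -/
noncomputable def ZA (f : J → MvPolynomial σ K) (g : MvPolynomial σ K)
    (E : Set (AlgebraicClosure K)) (W : Set (Pt K σ)) : PowerSeries R :=
  PowerSeries.mk fun N => volH M v f g E W N

/-- `∑ (volH - vol) T ^ N` -/
noncomputable def ZB (f : J → MvPolynomial σ K) (g : MvPolynomial σ K) (W : Set (Pt K σ)) :
    PowerSeries R :=
  PowerSeries.mk fun N => volH M v f g {0} W N - vol M v f W (N + 1)

theorem addF_ZA (f : J → MvPolynomial σ K) (g : MvPolynomial σ K)
    {E : Set (AlgebraicClosure K)} (hE : CE E) : AddF (ZA M v f g E) where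
  empty := by
    ext N
    rw [ZA, PowerSeries.coeff_mk, volH_empty, map_zero]
  add := by
    intro W W' hW hW' hd
    ext N
    rw [map_add]
    simp only [ZA, PowerSeries.coeff_mk]
    exact volH_add M f g hE hW hW' hd N

theorem addF_ZB (f : J → MvPolynomial σ K) (g : MvPolynomial σ K) : AddF (ZB M v f g) where
  empty := by
    ext N
    rw [ZB, PowerSeries.coeff_mk, volH_empty, vol_empty, map_zero, sub_zero]
  add := by
    intro W W' hW hW' hd
    ext N
    rw [map_add]
    simp only [ZB, PowerSeries.coeff_mk]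
    rw [volH_add M f g ce_zero hW hW' hd N, vol_add M f hW hW' hd]
    ring

variable {v} (hv : M.L * v = 1)
include hv

theorem ZA_off (f : J → MvPolynomial σ K) (g : MvPolynomial σ K) (E : Set (AlgebraicClosure K))
    {W : Set (Pt K σ)} (h : ∀ w ∈ W, ∃ j, aeval w (f j) ≠ 0) :
    ZA M v f g E W = PowerSeries.C (volH M v f g E W 0) := by
  ext N
  rw [ZA, PowerSeries.coeff_mk, PowerSeries.coeff_C]
  rcases N with _ | N
  · rw [if_pos rfl]
  · rw [if_neg (Nat.succ_ne_zero N), volH_off M hv f g E h]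

theorem ZB_off (f : J → MvPolynomial σ K) (g : MvPolynomial σ K)
    {W : Set (Pt K σ)} (h : ∀ w ∈ W, ∃ j, aeval w (f j) ≠ 0) :
    ZB M v f g W = PowerSeries.C (volH M v f g {0} W 0) := by
  ext N
  rw [ZB, PowerSeries.coeff_mk, PowerSeries.coeff_C, vol_off M hv f h, sub_zero]
  rcases N with _ | N
  · rw [if_pos rfl]
  · rw [if_neg (Nat.succ_ne_zero N), volH_off M hv f g {0} h]

/-! ### scaling -/

omit hv in
theorem chi_scaleH (f : J → MvPolynomial σ K) (g : MvPolynomial σ K)
    {E : Set (AlgebraicClosure K)} (hE : CE E) (d : ℕ) (hf : ∀ j, (f j).IsHomogeneous d)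
    (hg : g.IsHomogeneous d) (N m : ℕ) :
    M.χ _ (GH f g E {0} (N + d) (m + 1)) = M.χ _ (GH f g E Set.univ N m) := by
  have key : ∀ z : Pt K (σ × Fin (m + 2)), (∀ i, z (i, 0) = 0) →
      (z ∈ GH f g E {0} (N + d) (m + 1) ↔
        (fun q => z (q.1, q.2.succ) : Pt K (σ × Fin (m + 1))) ∈ GH f g E Set.univ N m) := by
    intro z hz
    rw [mem_GH, mem_GH]
    refine and_congr (and_congr ⟨fun _ => trivial, fun _ => funext hz⟩
      (forall_congr' fun j => ?_)) ?_
    · rw [ar_shift z hz, hom_aeval _ d (hf j), vn_X]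
    · rw [ar_shift z hz, hom_aeval _ d hg, PowerSeries.coeff_X_pow_mul', if_pos (by omega),
        Nat.add_sub_cancel]
  refine M.iso _ _ (constr_GH f g hE constr_pt0 _ _) (constr_GH f g hE Constr.univ _ _)
    (fun z q => z (q.1, q.2.succ))
    (fun w q => Fin.cases (motive := fun _ => AlgebraicClosure K) 0 (fun j => w (q.1, j)) q.2)
    (regularOn_poly (fun i => IsPF.coord _) _) (regularOn_poly ?_ _) ?_ ?_ ?_ ?_
  · rintro ⟨i, j⟩
    refine Fin.cases ?_ (fun j => ?_) j
    · exact IsPF.zero
    · exact IsPF.coord _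
  · intro z hz
    exact (key z fun i => congrFun hz.1.1 i).1 hz
  · intro w hw
    exact (key _ fun i => rfl).2 hw
  · intro z hz
    funext ⟨i, j⟩
    refine Fin.cases ?_ (fun j => ?_) j
    · exact (congrFun hz.1.1 i).symm
    · rfl
  · intro w _
    rfl

theorem volH_scale (f : J → MvPolynomial σ K) (g : MvPolynomial σ K)
    {E : Set (AlgebraicClosure K)} (hE : CE E) (d : ℕ) (hf : ∀ j, (f j).IsHomogeneous d)
    (hg : g.IsHomogeneous d) (N : ℕ) :
    volH M v f g E {0} (N + d) = v ^ Fintype.card σ * volH M v f g E Set.univ N := by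
  rw [← volH_eq M hv f g hE constr_pt0 (N + d) (N + d + 1) (by omega),
    chi_scaleH M f g hE d hf hg,
    ← volH_eq M hv f g hE Constr.univ N (N + d) (by omega),
    mul_add (Fintype.card σ) (N + d + 1) 1, pow_add, mul_one]
  ring

omit hv in
/-- the coefficients of small order -/
theorem coeff_small (f : J → MvPolynomial σ K) (g : MvPolynomial σ K) (d : ℕ)
    (hg : g.IsHomogeneous d) (N : ℕ) (hN : N < d) :
    ∀ z ∈ GW f {0} N N, PowerSeries.coeff N (aeval (ar z) g) = 0 := by
  intro z hz
  have hz0 : ∀ i, z (i, 0) = 0 := fun i => congrFun hz.1 i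
  have h1 : (ar z) = fun i => PowerSeries.X * PowerSeries.mk fun j =>
      PowerSeries.coeff (j + 1) (ar z i) := by
    funext i
    ext j
    rcases j with _ | j
    · rw [coeff_ar_zero, PowerSeries.coeff_zero_X_mul]
      exact hz0 i
    · rw [PowerSeries.coeff_succ_X_mul, PowerSeries.coeff_mk]
  rw [h1, hom_aeval _ d hg, PowerSeries.coeff_X_pow_mul', if_neg (by omega)]

theorem ZA_cone (f : J → MvPolynomial σ K) (g : MvPolynomial σ K)
    {E : Set (AlgebraicClosure K)} (hE : CE E) (h0 : (0 : AlgebraicClosure K) ∉ E) (d : ℕ)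
    (hf : ∀ j, (f j).IsHomogeneous d) (hg : g.IsHomogeneous d) :
    ZA M v f g E {0} = PowerSeries.C (v ^ Fintype.card σ) * PowerSeries.X ^ d *
        ZA M v f g E {0}ᶜ +
      PowerSeries.C (v ^ Fintype.card σ) * PowerSeries.X ^ d * ZA M v f g E {0} := by
  have h1 : ZA M v f g E Set.univ = ZA M v f g E {0}ᶜ + ZA M v f g E {0} := by
    rw [← (addF_ZA M v f g hE).add _ _ constr_pt0.compl constr_pt0
      (Set.disjoint_left.2 fun z h h' => h h'), Set.compl_union_self]
  rw [← mul_add, ← h1]
  ext N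
  rw [mul_assoc, PowerSeries.coeff_C_mul, PowerSeries.coeff_X_pow_mul']
  split_ifs with hd
  · obtain ⟨k, rfl⟩ := Nat.exists_eq_add_of_le hd
    rw [Nat.add_sub_cancel_left]
    simp only [ZA, PowerSeries.coeff_mk]
    rw [Nat.add_comm d k, volH_scale M hv f g hE d hf hg]
  · simp only [ZA, PowerSeries.coeff_mk]
    rw [volH_none M hv f g E h0 N (coeff_small f g d hg N (by omega)), mul_zero]

theorem ZB_cone (f : J → MvPolynomial σ K) (g : MvPolynomial σ K) (d : ℕ)
    (hf : ∀ j, (f j).IsHomogeneous d) (hg : g.IsHomogeneous d) :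
    ZB M v f g {0} = PowerSeries.C (v ^ Fintype.card σ) * PowerSeries.X ^ d *
        ZB M v f g {0}ᶜ +
      PowerSeries.C (v ^ Fintype.card σ) * PowerSeries.X ^ d * ZB M v f g {0} := by
  have h1 : ZB M v f g Set.univ = ZB M v f g {0}ᶜ + ZB M v f g {0} := by
    rw [← (addF_ZB M v f g).add _ _ constr_pt0.compl constr_pt0
      (Set.disjoint_left.2 fun z h h' => h h'), Set.compl_union_self]
  rw [← mul_add, ← h1]
  ext N
  rw [mul_assoc, PowerSeries.coeff_C_mul, PowerSeries.coeff_X_pow_mul']
  split_ifs with hd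
  · obtain ⟨k, rfl⟩ := Nat.exists_eq_add_of_le hd
    rw [Nat.add_sub_cancel_left]
    simp only [ZB, PowerSeries.coeff_mk]
    rw [Nat.add_comm d k, volH_scale M hv f g ce_zero d hf hg,
      show k + d + 1 = (k + 1) + d by ring, vol_scale M hv f d hf]
    ring
  · simp only [ZB, PowerSeries.coeff_mk]
    rw [volH_all M hv f g N (coeff_small f g d hg N (by omega)),
      vol_small M hv f d hf N (by omega), vol_small M hv f d hf (N + 1) (by omega), sub_self,
      mul_zero]

end series

end Pool.Agent.Q49.CO
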