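import Pool.Agent.Q49.CO.Hyp3

set_option autoImplicit false
set_option linter.unusedSectionVars false
set_option linter.unusedVariables false

/-! # The strata of the smooth points -/

namespace Pool.Agent.Q49.CO

open MvPolynomial Pool.Agent.W428.MOT Pool.Agent.TH192.MT Pool.Agent.TH192.DT

section gen

variable {R : Type} [CommRing R] (M : Meas ℂ R) {σ J : Type} [Fintype σ] [Fintype J]

theorem gens_lsy {f : J → MvPolynomial σ ℂ} (y : J → ℂ) {c : ℕ} {e : Fin c → J}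
    {W : Set (Pt ℂ σ)} (h : Gens f e W) (z : Pt ℂ σ) (hz : z ∈ W) :
    ∃ w : MvPolynomial σ ℂ, aeval z w ≠ 0 ∧
      w * lsy f y ∈ Ideal.span (Set.range fun t => f (e t)) := by
  obtain ⟨w, hw, hj⟩ := h z hz
  refine ⟨w, hw, ?_⟩
  unfold lsy
  rw [Finset.mul_sum]
  refine Ideal.sum_mem _ fun j _ => ?_
  have h1 : w * (C (y j) * f j) = C (y j) * (w * f j) := by ring
  rw [h1]
  exact Ideal.mul_mem_left _ _ (hj j)

/-- all the polynomials vanish on the stratum -/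
theorem zero_of_gens {f : J → MvPolynomial σ ℂ} {c : ℕ} {e : Fin c → J} {z : Pt ℂ σ}
    (he : ∀ t, aeval z (f (e t)) = 0) {w g : MvPolynomial σ ℂ} (hw : aeval z w ≠ 0)
    (h : w * g ∈ Ideal.span (Set.range fun t => f (e t))) : aeval z g = 0 := by
  obtain ⟨a, ha⟩ := Ideal.mem_span_range_iff_exists_fun.1 h
  have h1 := congrArg (aeval z) ha
  rw [map_sum, map_mul] at h1
  rw [Finset.sum_eq_zero fun t _ => by rw [map_mul, he t, mul_zero]] at h1
  exact (mul_eq_zero.1 h1.symm).resolve_left hw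

theorem zeroW {f : J → MvPolynomial σ ℂ} {c : ℕ} {e : Fin c → J} {W : Set (Pt ℂ σ)}
    (hI : Indep (fun t => f (e t)) W) (hG : Gens f e W) (z : Pt ℂ σ) (hz : z ∈ W) (j : J) :
    aeval z (f j) = 0 := by
  obtain ⟨w, hw, hj⟩ := hG z hz
  exact zero_of_gens (hI z hz).1 hw (hj j)

theorem zeroW_lsy {f : J → MvPolynomial σ ℂ} (y : J → ℂ) {c : ℕ} {e : Fin c → J}
    {W : Set (Pt ℂ σ)} (hI : Indep (fun t => f (e t)) W) (hG : Gens f e W) (z : Pt ℂ σ)
    (hz : z ∈ W) : aeval z (lsy f y) = 0 := by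
  rw [aeval_lsy]
  refine Finset.sum_eq_zero fun j _ => ?_
  rw [zeroW hI hG z hz j, mul_zero]

theorem coeff_zero_ar {N : ℕ} (z : Pt ℂ (σ × Fin (N + 1))) (P : MvPolynomial σ ℂ) :
    PowerSeries.coeff 0 (aeval (ar z) P) = aeval (fun i => z (i, 0)) P := by
  rw [coeff_zero_aevalK]
  congr 2
  funext i
  rw [coeff_ar_zero]

/-- where the differential of `g` vanishes -/
theorem coeff_flat {f : J → MvPolynomial σ ℂ} (y : J → ℂ) {c : ℕ} {e : Fin c → J}
    {W : Set (Pt ℂ σ)} (hI : Indep (fun t => f (e t)) W) (hG : Gens f e W)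
    (hg : ∀ z ∈ W, ∀ s, aeval z (pderiv s (lsy f y)) = 0) (N m : ℕ) :
    ∀ z ∈ GW f W N m, PowerSeries.coeff N (aeval (ar z) (lsy f y)) = 0 := by
  classical
  intro z hz
  obtain ⟨h1, h2⟩ := hz
  obtain ⟨w, hw, hwg⟩ := gens_lsy y hG _ h1
  obtain ⟨a, ha⟩ := Ideal.mem_span_range_iff_exists_fun.1 hwg
  set z0 : Pt ℂ σ := fun i => z (i, 0) with hz0
  have ha0 : ∀ t, aeval z0 (a t) = 0 := by
    refine (hI z0 h1).2 _ fun s => ?_
    have h3 := congrArg (fun P => aeval z0 (pderiv s P)) ha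
    beta_reduce at h3
    rw [map_sum, map_sum, Derivation.leibniz, smul_eq_mul, smul_eq_mul, map_add, map_mul,
      map_mul, hg z0 h1 s, zeroW_lsy y hI hG z0 h1, mul_zero, zero_mul, add_zero] at h3
    rw [← h3]
    refine Finset.sum_congr rfl fun t _ => ?_
    rw [Derivation.leibniz, smul_eq_mul, smul_eq_mul, map_add, map_mul, map_mul, (hI z0 h1).1 t,
      zero_mul, add_zero]
  have h3 : Vn (N + 1) (aeval (ar z) (w * lsy f y)) := by
    rw [← ha, map_sum]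
    refine vn_sum _ _ fun t _ => ?_
    rw [map_mul, vn_iff, pow_succ']
    refine mul_dvd_mul ?_ (vn_iff.1 (h2 (e t)))
    rw [PowerSeries.X_dvd_iff, ← PowerSeries.coeff_zero_eq_constantCoeff_apply, coeff_zero_ar]
    exact ha0 t
  rw [map_mul, vn_unit (by rw [coeff_zero_ar]; exact hw)] at h3
  exact h3 N (Nat.lt_succ_self N)

variable {v : R} (hv : M.L * v = 1)
include hv

theorem vol_st {c : ℕ} (f : J → MvPolynomial σ ℂ) (e : Fin c → J) {W : Set (Pt ℂ σ)}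
    (hW : Constr W) (hI : Indep (fun t => f (e t)) W) (h : Gens f e W) (N : ℕ) :
    vol M v f W (N + 1) = M.χ σ W * v ^ Fintype.card σ * (v ^ c) ^ N := by
  have h0 : ∀ N, vol M v f W N = vol M v (fun t => f (e t)) W N := by
    intro N
    unfold vol
    rw [GW_gen f e h]
  rw [h0, vol_smooth M hv _ hW hI]

end gen

section mem

variable {R : Type} [CommRing R] (M : Meas ℂ R) (u : Rˣ) (hL : M.L = (u : R)) {σ J : Type}
  [Fintype σ] [Fintype J]

omit [Fintype J] [Fintype σ] in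
theorem constr_dg (g : MvPolynomial σ ℂ) [Finite σ] :
    Constr {z : Pt ℂ σ | ∃ s, aeval z (pderiv s g) ≠ 0} :=
  Constr.ex fun s => Constr.not (Constr.eqz (IsPF.poly _))

include hL

theorem ZA_st (f : J → MvPolynomial σ ℂ) (y : J → ℂ) {c : ℕ} (e : Fin c → J)
    {W : Set (Pt ℂ σ)} (hW : Constr W) (hI : Indep (fun t => f (e t)) W) (hG : Gens f e W)
    {E : Set (AlgebraicClosure ℂ)} (hE : CE E) (h0 : (0 : AlgebraicClosure ℂ) ∉ E) {ε : R}
    (hε : Eps M ((u⁻¹ : Rˣ) : R) E ε) (D : Set (ℤ × ℤ)) (hD : (-(c : ℤ), (1 : ℤ)) ∈ D) :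
    ZA M ((u⁻¹ : Rˣ) : R) f (lsy f y) E W ∈ ratU u D := by
  set v := ((u⁻¹ : Rˣ) : R) with hvdef
  have hv : M.L * v = 1 := by rw [hL, Units.mul_inv]
  set g := lsy f y with hg
  set V : Set (Pt ℂ σ) := {z | ∃ s, aeval z (pderiv s g) ≠ 0} with hV
  have hVc : Constr V := constr_dg g
  have h1 : W = (W ∩ V) ∪ (W ∩ Vᶜ) := (Set.inter_union_compl W V).symm
  have h2 : Disjoint (W ∩ V) (W ∩ Vᶜ) := Set.disjoint_left.2 fun z hz hz' => hz'.2 hz.2
  rw [h1, (addF_ZA M v f g hE).add _ _ (hW.inter hVc) (hW.inter hVc.compl) h2]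
  refine Subalgebra.add_mem _ ?_ ?_
  · have hI' : Indep (fun t => f (e t)) (W ∩ V) := fun z hz => hI z hz.1
    have hG' : Gens f e (W ∩ V) := fun z hz => hG z hz.1
    have hv1 := vol_st M hv f e (hW.inter hVc) hI' hG'
    set κ := M.χ σ (W ∩ V) * v ^ Fintype.card σ with hκ
    have h3 : ZA M v f g E (W ∩ V) =
        PowerSeries.C (ε * v * κ) * PowerSeries.X +
          PowerSeries.C (v ^ c) * PowerSeries.X ^ 1 * ZA M v f g E (W ∩ V) := by
      have e1 : PowerSeries.C (v ^ c) * PowerSeries.X ^ 1 * ZA M v f g E (W ∩ V) =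
        PowerSeries.C (v ^ c) * (PowerSeries.X * ZA M v f g E (W ∩ V)) := by
          rw [pow_one, mul_assoc]
      have hz : volH M v f g E (W ∩ V) 0 = 0 := by
        refine volH_none M hv f g E h0 0 fun z hz => ?_
        rw [coeff_zero_ar]
        exact zeroW_lsy y hI' hG' _ hz.1
      have hs : ∀ N, volH M v f g E (W ∩ V) (N + 1) = ε * v * (κ * (v ^ c) ^ N) := by
        intro N
        rw [volH_equi M hv f g (hW.inter hVc) (fun z hz => hz.2) N hε, hv1]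
      ext N
      rw [e1, map_add, PowerSeries.coeff_C_mul, PowerSeries.coeff_C_mul]
      rcases N with _ | N
      · rw [PowerSeries.coeff_zero_X_mul, mul_zero, add_zero, PowerSeries.coeff_zero_X, mul_zero]
        simp only [ZA, PowerSeries.coeff_mk]
        exact hz
      · rw [PowerSeries.coeff_succ_X_mul, PowerSeries.coeff_X]
        simp only [ZA, PowerSeries.coeff_mk]
        rcases N with _ | N
        · rw [if_pos rfl, hs, hz]
          ring
        · rw [if_neg (by omega), mul_zero, zero_add, hs, hs]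
          ring
    exact geo_solve u one_pos hD _ _ (Subalgebra.mul_mem _ (rat_C u _) (rat_X u)) h3
  · have hI' : Indep (fun t => f (e t)) (W ∩ Vᶜ) := fun z hz => hI z hz.1
    have hG' : Gens f e (W ∩ Vᶜ) := fun z hz => hG z hz.1
    have h3 : ZA M v f g E (W ∩ Vᶜ) = 0 := by
      ext N
      simp only [ZA, PowerSeries.coeff_mk, map_zero]
      refine volH_none M hv f g E h0 N (coeff_flat y hI' hG' (fun z hz s => ?_) N N)
      by_contra h4
      exact hz.2 ⟨s, h4⟩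
    rw [h3]
    exact Subalgebra.zero_mem _

theorem ZB_st (f : J → MvPolynomial σ ℂ) (y : J → ℂ) {c : ℕ} (e : Fin c → J)
    {W : Set (Pt ℂ σ)} (hW : Constr W) (hI : Indep (fun t => f (e t)) W) (hG : Gens f e W)
    (D : Set (ℤ × ℤ)) (hD : (-(c : ℤ), (1 : ℤ)) ∈ D) :
    ZB M ((u⁻¹ : Rˣ) : R) f (lsy f y) W ∈ ratU u D := by
  set v := ((u⁻¹ : Rˣ) : R) with hvdef
  have hv : M.L * v = 1 := by rw [hL, Units.mul_inv]
  set g := lsy f y with hg
  set V : Set (Pt ℂ σ) := {z | ∃ s, aeval z (pderiv s g) ≠ 0} with hV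
  have hVc : Constr V := constr_dg g
  have h1 : W = (W ∩ V) ∪ (W ∩ Vᶜ) := (Set.inter_union_compl W V).symm
  have h2 : Disjoint (W ∩ V) (W ∩ Vᶜ) := Set.disjoint_left.2 fun z hz hz' => hz'.2 hz.2
  rw [h1, (addF_ZB M v f g).add _ _ (hW.inter hVc) (hW.inter hVc.compl) h2]
  have key : ∀ (W' : Set (Pt ℂ σ)) (τ : R), Constr W' → Indep (fun t => f (e t)) W' →
      Gens f e W' → (∀ N, volH M v f g {0} W' (N + 1) = τ * vol M v f W' (N + 1)) →
      ZB M v f g W' ∈ ratU u D := by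
    intro W' τ hW' hI' hG' hτ
    have hv1 := vol_st M hv f e hW' hI' hG'
    have hv0 := vol_zero M hv f hW'
    set κ := M.χ σ W' * v ^ Fintype.card σ with hκ
    have hz : volH M v f g {0} W' 0 = κ := by
      rw [volH_all M hv f g 0, hv0]
      intro z hz
      rw [coeff_zero_ar]
      exact zeroW_lsy y hI' hG' _ hz.1
    have h3 : ZB M v f g W' =
        PowerSeries.C (κ * (τ - v ^ c)) * PowerSeries.X +
          PowerSeries.C (v ^ c) * PowerSeries.X ^ 1 * ZB M v f g W' := by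
      have e1 : PowerSeries.C (v ^ c) * PowerSeries.X ^ 1 * ZB M v f g W' =
        PowerSeries.C (v ^ c) * (PowerSeries.X * ZB M v f g W') := by
          rw [pow_one, mul_assoc]
      ext N
      rw [e1, map_add, PowerSeries.coeff_C_mul, PowerSeries.coeff_C_mul]
      rcases N with _ | N
      · rw [PowerSeries.coeff_zero_X_mul, mul_zero, add_zero, PowerSeries.coeff_zero_X, mul_zero]
        simp only [ZB, PowerSeries.coeff_mk]
        rw [hz, hv1, pow_zero, mul_one, sub_self]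
      · rw [PowerSeries.coeff_succ_X_mul, PowerSeries.coeff_X]
        simp only [ZB, PowerSeries.coeff_mk]
        rcases N with _ | N
        · rw [if_pos rfl, hτ, hz, hv1, hv1]
          ring
        · rw [if_neg (by omega), mul_zero, zero_add, hτ, hτ, hv1, hv1, hv1]
          ring
    exact geo_solve u one_pos hD _ _ (Subalgebra.mul_mem _ (rat_C u _) (rat_X u)) h3
  refine Subalgebra.add_mem _ ?_ ?_
  · refine key _ v (hW.inter hVc) (fun z hz => hI z hz.1) (fun z hz => hG z hz.1) fun N => ?_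
    exact volH_equi0 M hv f g (hW.inter hVc) (fun z hz => hz.2) N
  · refine key _ 1 (hW.inter hVc.compl) (fun z hz => hI z hz.1) (fun z hz => hG z hz.1)
      fun N => ?_
    rw [one_mul]
    refine volH_all M hv f g (N + 1) (coeff_flat y (fun z hz => hI z hz.1)
      (fun z hz => hG z hz.1) (fun z hz s => ?_) (N + 1) (N + 1))
    by_contra h4
    exact hz.2 ⟨s, h4⟩

/-- Everything is rational, for the sets of origins without `0`. -/
theorem ZA_smooth (f : J → MvPolynomial σ ℂ) (hne : ∃ j, f j ≠ 0) (y : J → ℂ)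
    {E : Set (AlgebraicClosure ℂ)} (hE : CE E) (h0 : (0 : AlgebraicClosure ℂ) ∉ E) {ε : R}
    (hε : Eps M ((u⁻¹ : Rˣ) : R) E ε) (D : Set (ℤ × ℤ)) (W : Set (Pt ℂ σ)) (hW : Constr W)
    (hD : ∀ c p, (fun i => algebraMap ℂ (AlgebraicClosure ℂ) (p i)) ∈ W → 0 < c →
      SmoothAt f c p → (-(c : ℤ), (1 : ℤ)) ∈ D)
    (h : ∀ p : σ → ℂ, (fun i => algebraMap ℂ (AlgebraicClosure ℂ) (p i)) ∈ W →
      (∀ j, eval p (f j) = 0) → ∃ c, SmoothAt f c p) :
    ZA M ((u⁻¹ : Rˣ) : R) f (lsy f y) E W ∈ ratU u D ∧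
      ZB M ((u⁻¹ : Rˣ) : R) f (lsy f y) W ∈ ratU u D := by
  have hv : M.L * ((u⁻¹ : Rˣ) : R) = 1 := by rw [hL, Units.mul_inv]
  constructor
  · refine (addF_ZA M _ f (lsy f y) hE).smooth (ratU u D) f hne W hW h ?_ ?_
    · intro W' _ _ hoff
      rw [ZA_off M hv f _ E hoff]
      exact rat_C u _
    · rintro c e W' hc hW' hs hI hG ⟨p, hp, hsm⟩
      exact ZA_st M u hL f y e hW' hI hG hE h0 hε D (hD c p (hs hp) hc hsm)
  · refine (addF_ZB M _ f (lsy f y)).smooth (ratU u D) f hne W hW h ?_ ?_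
    · intro W' _ _ hoff
      rw [ZB_off M hv f _ hoff]
      exact rat_C u _
    · rintro c e W' hc hW' hs hI hG ⟨p, hp, hsm⟩
      exact ZB_st M u hL f y e hW' hI hG D (hD c p (hs hp) hc hsm)

/-- Everything is rational. -/
theorem ZAB_mem (f : J → MvPolynomial σ ℂ) (hne : ∃ j, f j ≠ 0) (d : ℕ)
    (hd : 0 < d) (hf : ∀ j, (f j).IsHomogeneous d) (y : J → ℂ)
    {E : Set (AlgebraicClosure ℂ)} (hE : CE E) (h0 : (0 : AlgebraicClosure ℂ) ∉ E) {ε : R}
    (hε : Eps M ((u⁻¹ : Rˣ) : R) E ε) (D : Set (ℤ × ℤ))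
    (hD0 : (-(Fintype.card σ : ℤ), (d : ℤ)) ∈ D)
    (hD : ∀ c p, p ≠ 0 → 0 < c → SmoothAt f c p → (-(c : ℤ), (1 : ℤ)) ∈ D)
    (h : ∀ p : σ → ℂ, p ≠ 0 → (∀ j, eval p (f j) = 0) → ∃ c, SmoothAt f c p)
    (W : Set (Pt ℂ σ)) (hW : Constr W) :
    ZA M ((u⁻¹ : Rˣ) : R) f (lsy f y) E W ∈ ratU u D ∧
      ZB M ((u⁻¹ : Rˣ) : R) f (lsy f y) W ∈ ratU u D := by
  have hv : M.L * ((u⁻¹ : Rˣ) : R) = 1 := by rw [hL, Units.mul_inv]
  have hc : ∀ W' : Set (Pt ℂ σ), Constr W' → W' ⊆ {0}ᶜ →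
      ZA M ((u⁻¹ : Rˣ) : R) f (lsy f y) E W' ∈ ratU u D ∧
        ZB M ((u⁻¹ : Rˣ) : R) f (lsy f y) W' ∈ ratU u D := by
    intro W' hW' hs
    exact ZA_smooth M u hL f hne y hE h0 hε D W' hW'
      (fun c p hp hc hS => hD c p (pt_ne_zero p (hs hp)) hc hS)
      fun p hp hz => h p (pt_ne_zero p (hs hp)) hz
  obtain ⟨hc1, hc2⟩ := hc _ constr_pt0.compl le_rfl
  have hX : PowerSeries.C (((u⁻¹ : Rˣ) : R) ^ Fintype.card σ) * PowerSeries.X ^ d ∈ ratU u D :=
    Subalgebra.mul_mem _ (rat_C u _) (Subalgebra.pow_mem _ (rat_X u) _)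
  have hA0 : ZA M ((u⁻¹ : Rˣ) : R) f (lsy f y) E {0} ∈ ratU u D :=
    geo_solve u hd hD0 _ _ (Subalgebra.mul_mem _ hX hc1)
      (ZA_cone M hv f (lsy f y) hE h0 d hf (lsy_hom f y d hf))
  have hB0 : ZB M ((u⁻¹ : Rˣ) : R) f (lsy f y) {0} ∈ ratU u D :=
    geo_solve u hd hD0 _ _ (Subalgebra.mul_mem _ hX hc2)
      (ZB_cone M hv f (lsy f y) d hf (lsy_hom f y d hf))
  by_cases hz : (0 : Pt ℂ σ) ∈ W
  · have h1 : W = (W ∩ {0}ᶜ) ∪ {0} := by
      rw [← Set.sdiff_eq, Set.sdiff_union_of_subset (Set.singleton_subset_iff.2 hz)]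
    have h2 : Disjoint (W ∩ {0}ᶜ) {0} := Set.disjoint_left.2 fun z hz hz' => hz.2 hz'
    obtain ⟨h3, h4⟩ := hc (W ∩ {0}ᶜ) (hW.inter constr_pt0.compl) Set.inter_subset_right
    rw [h1, (addF_ZA M _ f _ hE).add _ _ (hW.inter constr_pt0.compl) constr_pt0 h2,
      (addF_ZB M _ f _).add _ _ (hW.inter constr_pt0.compl) constr_pt0 h2]
    exact ⟨Subalgebra.add_mem _ h3 hA0, Subalgebra.add_mem _ h4 hB0⟩
  · exact hc W hW fun z hz' h1 => hz (by rw [Set.mem_singleton_iff] at h1; rwa [h1] at hz')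

end mem

end Pool.Agent.Q49.CO
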