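import Pool.Agent.Q49.CO.Hyp4

set_option autoImplicit false
set_option linter.unusedSectionVars false
set_option linter.unusedVariables false

/-! # The jets of `∑ y_j f_j` -/

namespace Pool.Agent.Q49.CO

open MvPolynomial Pool.Agent.W428.MOT Pool.Agent.TH192.MT Pool.Agent.TH192.DT

section dec

variable {K : Type} [Field K] {R : Type} [CommRing R] (M : Meas K R) {σ J : Type} [Fintype σ]
  [Fintype J]

/-- the origins `(y, x)`, `x ∈ W` -/
def WY (y : J → K) (W : Set (Pt K σ)) : Set (Pt K (J ⊕ σ)) :=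
  {z | (∀ j, z (Sum.inl j) = algebraMap K _ (y j)) ∧ (fun i => z (Sum.inr i)) ∈ W}

/-- the jets on which the order is `k` -/
def TK (f : J → MvPolynomial σ K) (y : J → K) (W : Set (Pt K σ))
    (E : Set (AlgebraicClosure K)) (k q : ℕ) : Set (Pt K ((J ⊕ σ) × Fin (k + q + 1 + 1))) :=
  (SY y (GH f (lsy f y) {0} W k (k + q + 1) ∩ (GW f W (k + 1) (k + q + 1))ᶜ) ∩
    {z | ∀ p : Fin q, PowerSeries.coeff (k + (p + 1)) (aeval (ar z) (uni f)) =
      algebraMap K _ ((fun _ => 0 : Fin q → K) p)}) ∩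
    {z | PowerSeries.coeff (k + q + 1) (aeval (ar z) (uni f)) ∈ E}

variable (f : J → MvPolynomial σ K) (y : J → K) {W : Set (Pt K σ)} (hW : Constr W)

theorem coeff_low {k N : ℕ} {z : Pt K ((J ⊕ σ) × Fin (N + 1))}
    (hz : z ∈ SY y (GW f W k N)) (i : ℕ) (hi : i < k) :
    PowerSeries.coeff i (aeval (ar z) (uni f)) = 0 := by
  rw [aeval_uni, map_sum]
  refine Finset.sum_eq_zero fun j _ => ?_
  have h1 : Vn k (ar z (Sum.inl j) * aeval (fun i => ar z (Sum.inr i)) (f j)) := by
    rw [ar_xp]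
    exact vn_mul _ (hz.2.2 j)
  exact h1 i hi

theorem coeff_eq {k N : ℕ} (hk : k ≤ N) {z : Pt K ((J ⊕ σ) × Fin (N + 1))}
    (hz : z ∈ SY y (GW f W k N)) :
    PowerSeries.coeff k (aeval (ar z) (uni f)) =
      PowerSeries.coeff k (aeval (ar (xp z)) (lsy f y)) := by
  classical
  have h1 := coeff_uni f y W k N 0 (by omega) z hz
  rw [Nat.add_zero] at h1
  rw [h1, Finset.sum_eq_zero, zero_add]
  intro v hv
  unfold yC at hv
  obtain ⟨⟨j, i⟩, _, rfl⟩ := Finset.mem_image.1 hv
  rw [if_neg (by simp), zero_mul]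

theorem constr_TK {E : Set (AlgebraicClosure K)} (hE : CE E) (k q : ℕ) :
    Constr W → Constr (TK f y W E k q) := by
  intro hW
  refine (Constr.inter (constr_SY y ((constr_GH f _ ce_zero hW _ _).inter
    (constr_GW f hW _ _).compl)) ?_).inter (hE _ ?_)
  · exact Constr.all fun p => Constr.eq (pf_coeffK (fun z => z) (fun i => IsPF.coord _) _ _)
      (IsPF.const _)
  · exact pf_coeffK (fun z => z) (fun i => IsPF.coord _) _ _

/-- the decomposition of the jets -/
theorem jets_dec (E : Set (AlgebraicClosure K)) (h0 : (0 : AlgebraicClosure K) ∉ E) (N : ℕ)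
    (z : Pt K ((J ⊕ σ) × Fin (N + 1))) :
    z ∈ JetS (uni f) (WY y W) E N ↔ z ∈ SY y (GH f (lsy f y) E W N N) ∨
      ∃ k < N, z ∈ SY y (GH f (lsy f y) {0} W k N ∩ (GW f W (k + 1) N)ᶜ) ∧
        (∀ i, k < i → i < N → PowerSeries.coeff i (aeval (ar z) (uni f)) = 0) ∧
        PowerSeries.coeff N (aeval (ar z) (uni f)) ∈ E := by
  classical
  constructor
  · rintro ⟨⟨h1, h2⟩, h3, h4⟩
    by_cases h5 : ∀ j, Vn N (aeval (ar (xp z)) (f j))
    · left
      have h6 : z ∈ SY y (GW f W N N) := ⟨h1, h2, h5⟩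
      refine ⟨h1, ⟨h2, h5⟩, ?_⟩
      rw [Set.mem_ofPred_eq, ← coeff_eq f y le_rfl h6]
      exact h4
    · right
      have hex : ∃ k, ¬ ∀ j, Vn (k + 1) (aeval (ar (xp z)) (f j)) := by
        refine ⟨N, fun h => h5 fun j => vn_mono (h j) (Nat.le_succ N)⟩
      set k := Nat.find hex with hk
      have hk1 := Nat.find_spec hex
      have hkN : k < N := by
        by_contra hge
        push Not at hge
        apply h5
        rcases Nat.eq_zero_or_pos N with rfl | hN
        · exact fun j i hi => absurd hi (Nat.not_lt_zero i)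
        · have h6 := Nat.find_min hex (m := N - 1) (by omega)
          push Not at h6
          rwa [Nat.sub_add_cancel hN] at h6
      have hk2 : ∀ j, Vn k (aeval (ar (xp z)) (f j)) := by
        rcases Nat.eq_zero_or_pos k with h6 | h6
        · rw [h6]
          exact fun j i hi => absurd hi (Nat.not_lt_zero i)
        · have h7 := Nat.find_min hex (m := k - 1) (by omega)
          push Not at h7
          rwa [Nat.sub_add_cancel h6] at h7
      have h6 : z ∈ SY y (GW f W k N) := ⟨h1, h2, hk2⟩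
      refine ⟨k, hkN, ⟨h1, ⟨⟨h2, hk2⟩, ?_⟩, fun h => hk1 h.2⟩, fun i _ hi => h3 i hi, h4⟩
      rw [Set.mem_ofPred_eq, ← coeff_eq f y hkN.le h6, h3 k hkN]
      rfl
  · rintro (⟨h1, ⟨h2, h3⟩, h4⟩ | ⟨k, hk, ⟨h1, ⟨⟨h2, h3⟩, h4⟩, h5⟩, h6, h7⟩)
    · have h6 : z ∈ SY y (GW f W N N) := ⟨h1, h2, h3⟩
      refine ⟨⟨h1, h2⟩, fun i hi => coeff_low f y h6 i hi, ?_⟩
      rw [coeff_eq f y le_rfl h6]
      exact h4
    · have h8 : z ∈ SY y (GW f W k N) := ⟨h1, h2, h3⟩
      refine ⟨⟨h1, h2⟩, fun i hi => ?_, h7⟩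
      rcases lt_trichotomy i k with h9 | rfl | h9
      · exact coeff_low f y h8 i h9
      · rw [coeff_eq f y hk.le h8]
        exact h4
      · exact h6 i h9 hi

variable {v : R} (hv : M.L * v = 1)
include hv

theorem chi_TK {E : Set (AlgebraicClosure K)} (hE : CE E) {ε : R} (hε : Eps M v E ε)
    (hW : Constr W) (k q : ℕ) :
    M.χ _ (TK f y W E k q) * v ^ (Fintype.card (J ⊕ σ) * (k + q + 1)) * v ^ Fintype.card σ =
      ε * v ^ (q + 1) * (volH M v f (lsy f y) {0} W k - vol M v f W (k + 1)) := by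
  set A : Set (Pt K (σ × Fin (k + q + 1 + 1))) :=
    GH f (lsy f y) {0} W k (k + q + 1) ∩ (GW f W (k + 1) (k + q + 1))ᶜ with hAdef
  have hA : Constr A := (constr_GH f _ ce_zero hW _ _).inter (constr_GW f hW _ _).compl
  have hAX : A ⊆ AX f W k (k + q + 1) := fun z hz => ⟨hz.1.1, hz.2⟩
  have hAv : M.χ _ A * v ^ (Fintype.card σ * (k + q + 1 + 1)) =
      volH M v f (lsy f y) {0} W k - vol M v f W (k + 1) := by
    rw [← volH_eq M hv f (lsy f y) ce_zero hW k (k + q + 1) (by omega),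
      ← vol_eq M hv f hW (k + 1) (k + q + 1) (by omega), ← sub_mul]
    congr 1
    have h1 : GW f W (k + 1) (k + q + 1) ⊆ GH f (lsy f y) {0} W k (k + q + 1) := by
      intro z hz
      refine ⟨⟨hz.1, fun j => vn_mono (hz.2 j) (Nat.le_succ k)⟩, ?_⟩
      rw [Set.mem_ofPred_eq, Set.mem_singleton_iff, aeval_lsy, map_sum]
      refine Finset.sum_eq_zero fun j _ => ?_
      rw [PowerSeries.algebraMap_apply, PowerSeries.coeff_C_mul, hz.2 j k (Nat.lt_succ_self k),
        mul_zero]
    have h2 : GH f (lsy f y) {0} W k (k + q + 1) = A ∪ GW f W (k + 1) (k + q + 1) := by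
      rw [hAdef, ← Set.sdiff_eq, Set.sdiff_union_of_subset h1]
    have h3 : Disjoint A (GW f W (k + 1) (k + q + 1)) :=
      Set.disjoint_left.2 fun z hz hz' => hz.2 hz'
    rw [eq_sub_iff_add_eq, ← M.add _ _ hA (constr_GW f hW _ _) h3, ← h2]
  set S : Set (Pt K ((J ⊕ σ) × Fin (k + q + 1 + 1))) := SY y A ∩
    {z | ∀ p : Fin q, PowerSeries.coeff (k + (p + 1)) (aeval (ar z) (uni f)) =
      algebraMap K _ ((fun _ => 0 : Fin q → K) p)} with hS
  have hSc : Constr S := (constr_SY y hA).inter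
    (Constr.all fun p => Constr.eq (pf_coeffK (fun z => z) (fun i => IsPF.coord _) _ _)
      (IsPF.const _))
  have e1 := chi_lin M f y hW k (k + q + 1) q (by omega) (fun _ => 0) A hA hAX
  have hLq : M.L ^ q * v ^ q = 1 := by rw [← mul_pow, hv, one_pow]
  have e2 : ∀ c : K, M.χ _ (S ∩ {z | PowerSeries.coeff (k + q + 1) (aeval (ar z) (uni f)) =
      algebraMap K _ c}) * M.L = M.χ _ S := by
    intro c
    have e3 := chi_lin M f y hW k (k + q + 1) (q + 1) (by omega)
      (Fin.lastCases c fun _ => 0) A hA hAX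
    have e4 : SY y A ∩ {z : Pt K ((J ⊕ σ) × Fin (k + q + 1 + 1)) | ∀ p : Fin (q + 1),
        PowerSeries.coeff (k + (p + 1)) (aeval (ar z) (uni f)) =
          algebraMap K _ ((Fin.lastCases c fun _ => 0 : Fin (q + 1) → K) p)} =
        S ∩ {z | PowerSeries.coeff (k + q + 1) (aeval (ar z) (uni f)) =
          algebraMap K _ c} := by
      ext z
      rw [hS, Set.inter_assoc, Set.mem_inter_iff, Set.mem_inter_iff, Set.mem_inter_iff]
      refine and_congr_right fun _ => ?_
      rw [Set.mem_ofPred_eq, Set.mem_ofPred_eq, Set.mem_ofPred_eq, Fin.forall_fin_succ']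
      simp only [Fin.lastCases_last, Fin.lastCases_castSucc, Fin.val_castSucc, Fin.val_last]
      rw [← add_assoc k q 1]
    rw [e4, pow_succ, ← e1, ← hS] at e3
    linear_combination (v ^ q) * e3 + (M.χ _ S - M.χ _ (S ∩ {z | PowerSeries.coeff (k + q + 1)
      (aeval (ar z) (uni f)) = algebraMap K _ c}) * M.L) * hLq
  have e5 := hε S _ hSc (pf_coeffK (fun z => z) (fun i => IsPF.coord _) (uni f) (k + q + 1)) e2
  have e6 : TK f y W E k q = S ∩ {z | PowerSeries.coeff (k + q + 1)
      (aeval (ar z) (uni f)) ∈ E} := rfl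
  rw [e6, e5, ← hAv]
  have e7 : M.χ _ S = v ^ q * (M.χ _ A * M.L ^ (Fintype.card J * (k + q + 1))) := by
    rw [← chi_SY M y A hA, ← e1, ← hS]
    linear_combination (-(M.χ _ S)) * hLq
  have e8 : M.L ^ (Fintype.card J * (k + q + 1)) * v ^ (Fintype.card J * (k + q + 1)) = 1 := by
    rw [← mul_pow, hv, one_pow]
  rw [e7, Fintype.card_sum, add_mul (Fintype.card J) (Fintype.card σ) (k + q + 1),
    pow_add v (Fintype.card J * (k + q + 1)), mul_add (Fintype.card σ) (k + q + 1) 1,
    pow_add v (Fintype.card σ * (k + q + 1)), mul_one, pow_succ]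
  linear_combination (ε * v * v ^ q * M.χ _ A * v ^ (Fintype.card σ * (k + q + 1)) *
    v ^ Fintype.card σ) * e8

/-- the coefficients of the zeta function -/
theorem chi_jets {E : Set (AlgebraicClosure K)} (hE : CE E) (h0 : (0 : AlgebraicClosure K) ∉ E)
    {ε : R} (hε : Eps M v E ε) (hW : Constr W) (N : ℕ) :
    M.χ _ (JetS (uni f) (WY y W) E N) * v ^ (Fintype.card (J ⊕ σ) * N) * v ^ Fintype.card σ =
      volH M v f (lsy f y) E W N + ∑ k ∈ Finset.range N,
        ε * v ^ (N - k) * (volH M v f (lsy f y) {0} W k - vol M v f W (k + 1)) := by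
  classical
  set T : ℕ → Set (Pt K ((J ⊕ σ) × Fin (N + 1))) := fun k =>
    {z | z ∈ SY y (GH f (lsy f y) {0} W k N ∩ (GW f W (k + 1) N)ᶜ) ∧
        (∀ i ∈ Finset.range N, k < i →
          PowerSeries.coeff i (aeval (ar z) (uni f)) = 0) ∧
        PowerSeries.coeff N (aeval (ar z) (uni f)) ∈ E} with hT
  have hTc : ∀ k, Constr (T k) := by
    intro k
    refine Constr.and (constr_SY y ((constr_GH f _ ce_zero hW _ _).inter
      (constr_GW f hW _ _).compl)) (Constr.and ?_ (hE _ ?_))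
    · exact Constr.ballFinset _ fun i _ => Constr.imp' fun _ =>
        Constr.eqz (pf_coeffK (fun z => z) (fun i => IsPF.coord _) _ _)
    · exact pf_coeffK (fun z => z) (fun i => IsPF.coord _) _ _
  have h1 : JetS (uni f) (WY y W) E N = SY y (GH f (lsy f y) E W N N) ∪
      ⋃ k ∈ Finset.range N, T k := by
    ext z
    rw [jets_dec f y E h0 N z, Set.mem_union, Set.mem_iUnion₂]
    refine or_congr Iff.rfl ?_
    constructor
    · rintro ⟨k, hk, h2, h3, h4⟩
      exact ⟨k, Finset.mem_range.2 hk, h2, fun i hi hki => h3 i hki (Finset.mem_range.1 hi), h4⟩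
    · rintro ⟨k, hk, h2, h3, h4⟩
      exact ⟨k, Finset.mem_range.1 hk, h2, fun i hki hi => h3 i (Finset.mem_range.2 hi) hki, h4⟩
  have hlt : ∀ k k', k < k' → Disjoint (T k) (T k') := by
    intro k k' hkk
    rw [Set.disjoint_left]
    rintro z ⟨⟨_, _, h2⟩, _⟩ ⟨⟨_, ⟨⟨h3, h4⟩, _⟩, _⟩, _⟩
    exact h2 ⟨h3, fun j => vn_mono (h4 j) hkk⟩
  rw [h1, M.add _ _ (constr_SY y (constr_GH f _ hE hW N N))
    (Pool.Agent.W375.MT.constr_biUnion _ T fun k _ => hTc k),
    Pool.Agent.W375.MT.chi_biUnion M _ T (fun k _ => hTc k), add_mul, add_mul, Finset.sum_mul,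
    Finset.sum_mul]
  · congr 1
    · rw [chi_SY M y _ (constr_GH f _ hE hW N N)]
      unfold volH
      have e8 : M.L ^ (Fintype.card J * N) * v ^ (Fintype.card J * N) = 1 := by
        rw [← mul_pow, hv, one_pow]
      rw [Fintype.card_sum, add_mul (Fintype.card J) (Fintype.card σ) N,
        pow_add v (Fintype.card J * N), mul_add (Fintype.card σ) N 1,
        pow_add v (Fintype.card σ * N), mul_one]
      linear_combination (M.χ _ (GH f (lsy f y) E W N N) * v ^ (Fintype.card σ * N) *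
        v ^ Fintype.card σ) * e8
    · refine Finset.sum_congr rfl fun k hk => ?_
      obtain ⟨q, rfl⟩ : ∃ q, N = k + q + 1 :=
        ⟨N - k - 1, by have := Finset.mem_range.1 hk; omega⟩
      have h2 : T k = TK f y W E k q := by
        ext z
        simp only [hT, TK]
        rw [Set.mem_ofPred_eq, Set.mem_inter_iff, Set.mem_inter_iff, and_assoc]
        refine and_congr_right fun _ => and_congr ?_ Iff.rfl
        rw [Set.mem_ofPred_eq]
        constructor
        · intro h p
          rw [map_zero]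
          exact h _ (Finset.mem_range.2 (by omega)) (by omega)
        · intro h i hi hki
          rw [Finset.mem_range] at hi
          have h3 := h ⟨i - k - 1, by omega⟩
          simp only [map_zero] at h3
          rw [show k + (i - k - 1 + 1) = i by omega] at h3
          exact h3
      rw [h2, chi_TK M f y hv hE hε hW k q, show k + q + 1 - k = q + 1 by omega]
  · intro k _ k' _ hne
    rcases lt_or_gt_of_ne hne with h | h
    · exact hlt k k' h
    · exact (hlt k' k h).symm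
  · rw [Set.disjoint_left]
    rintro z ⟨_, ⟨h3, h4⟩, _⟩ hz
    obtain ⟨k, hk, ⟨⟨_, _, h2⟩, _⟩⟩ := Set.mem_iUnion₂.1 hz
    exact h2 ⟨h3, fun j => vn_mono (h4 j) (Finset.mem_range.1 hk)⟩

end dec

end Pool.Agent.Q49.CO
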