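import Pool.Agent.Q49.CO.Strat

set_option autoImplicit false
set_option linter.unusedSectionVars false
set_option linter.unusedVariables false

/-! # The motivic zeta function of a cone -/

namespace Pool.Agent.Q49.CO

open MvPolynomial Pool.Agent.W428.MOT Pool.Agent.TH192.MT Pool.Agent.TH192.DT

section cover

variable {K : Type} [Field K] {R : Type} [CommRing R] (M : Meas K R) (v : R) {σ J : Type}
  [Fintype σ] [Finite J]

theorem ZW_cover {ι : Type} (f : J → MvPolynomial σ K) {A : Type} [SetLike A (PowerSeries R)]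
    [AddSubmonoidClass A (PowerSeries R)] (P : A)
    (s : Finset ι) (C : ι → Set (Pt K σ)) (hC : ∀ i, Constr (C i)) :
    (∀ i ∈ s, ∀ W, Constr W → W ⊆ C i → ZW M v f W ∈ P) →
    ∀ W : Set (Pt K σ), Constr W → (∀ z ∈ W, ∃ i ∈ s, z ∈ C i) → ZW M v f W ∈ P := by
  classical
  induction s using Finset.induction_on with
  | empty =>
    intro _ W hW h
    have : W = ∅ := Set.eq_empty_of_forall_notMem fun z hz => by
      obtain ⟨i, hi, _⟩ := h z hz
      exact absurd hi (Finset.notMem_empty i)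
    rw [this, ZW_empty]
    exact zero_mem P
  | insert i s hi ih =>
    intro hP W hW h
    have h1 : W = (W ∩ C i) ∪ (W ∩ (C i)ᶜ) := (Set.inter_union_compl W (C i)).symm
    have h2 : Disjoint (W ∩ C i) (W ∩ (C i)ᶜ) :=
      Set.disjoint_left.2 fun z hz hz' => hz'.2 hz.2
    rw [h1, ZW_add M f (hW.inter (hC i)) (hW.inter (hC i).compl) h2]
    refine add_mem (hP i (Finset.mem_insert_self _ _) _ (hW.inter (hC i)) Set.inter_subset_right)
      (ih (fun j hj => hP j (Finset.mem_insert_of_mem hj)) _ (hW.inter (hC i).compl) ?_)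
    intro z hz
    obtain ⟨j, hj, hz'⟩ := h z hz.1
    rcases Finset.mem_insert.1 hj with rfl | hj
    · exact absurd hz' hz.2
    · exact ⟨j, hj, hz'⟩

end cover

section smooth

variable {R : Type} [CommRing R] (M : Meas ℂ R) (u : Rˣ) (hL : M.L = (u : R)) {σ J : Type}
  [Fintype σ] [Finite J]
include hL

theorem mem_smooth (f : J → MvPolynomial σ ℂ) (hne : ∃ j, f j ≠ 0) (D : Set (ℤ × ℤ))
    (W : Set (Pt ℂ σ)) (hW : Constr W)
    (hD : ∀ c p, (fun i => algebraMap ℂ (AlgebraicClosure ℂ) (p i)) ∈ W → 0 < c →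
      SmoothAt f c p → (-(c : ℤ), (1 : ℤ)) ∈ D)
    (h : ∀ p : σ → ℂ, (fun i => algebraMap ℂ (AlgebraicClosure ℂ) (p i)) ∈ W →
      (∀ j, eval p (f j) = 0) → ∃ c, SmoothAt f c p) :
    ZW M ((u⁻¹ : Rˣ) : R) f W ∈ ratU u D := by
  classical
  cases nonempty_fintype J
  have hv : M.L * ((u⁻¹ : Rˣ) : R) = 1 := by rw [hL, Units.mul_inv]
  choose G hG1 hG2 using fun (x : Σ c : Fin (Fintype.card σ + 1), (Fin (c : ℕ) → J) ×
    (Fin (c : ℕ) → σ)) => exists_gen (Ideal.span (Set.range fun t => f (x.2.1 t))) f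
  set C : Option (Σ c : Fin (Fintype.card σ + 1), (Fin (c : ℕ) → J) × (Fin (c : ℕ) → σ)) →
      Set (Pt ℂ σ) := fun x => W ∩ (match x with
    | none => {z | ∃ j, aeval z (f j) ≠ 0}
    | some x => St f (G x) x.1 x.2.1 x.2.2) with hC
  refine ZW_cover M _ f (ratU u D) Finset.univ C ?_ ?_ W hW ?_
  · rintro (_ | x)
    · exact hW.inter (Constr.ex fun j => Constr.not (Constr.eqz (IsPF.poly _)))
    · exact hW.inter (constr_St f _ _ _ _)
  · rintro (_ | x) - W' hW' hs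
    · rw [ZW_off M hv f hW' fun w hw => (hs hw).2]
      exact rat_C u _
    · rcases W'.eq_empty_or_nonempty with rfl | ⟨z, hz⟩
      · rw [ZW_empty]
        exact zero_mem _
      · have h1 := ZW_smooth M hv f x.2.1 hW'
          (indep_St f (G x) x.1 x.2.1 x.2.2 W' fun z hz => (hs hz).2)
          (fun z hz => by
            obtain ⟨g, hg, h3⟩ := (hs hz).2.2.2
            exact ⟨g, h3, hG1 x g hg⟩)
        obtain ⟨p, rfl⟩ := exists_pt z
        have h2 := smooth_of_St f (G x) x.1 x.2.1 x.2.2 (hG1 x) p (hs hz).2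
        have h3 : 0 < (x.1 : ℕ) := by
          obtain ⟨⟨c, hc⟩, e, s⟩ := x
          rcases Nat.eq_zero_or_pos c with rfl | h4
          · exfalso
            obtain ⟨j, hj⟩ := hne
            obtain ⟨g, hg, h5⟩ := (hs hz).2.2.2
            have h6 := hG1 _ g hg j
            have h7 : (Set.range fun t : Fin 0 => f (e t)) = ∅ := Set.range_eq_empty _
            rw [h7, Ideal.span_empty, Ideal.mem_bot] at h6
            rcases mul_eq_zero.1 h6 with h8 | h8
            · apply h5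
              rw [h8, map_zero]
            · exact hj h8
          · exact h4
        refine geo_solve u (ν := (x.1 : ℕ)) (N := 1) one_pos ?_ _ _ ?_ h1
        · exact hD _ p (hs hz).1 h3 h2
        · exact Subalgebra.mul_mem _ (rat_C u _) (rat_X u)
  · intro z hz
    by_cases h0 : ∃ j, aeval z (f j) ≠ 0
    · exact ⟨none, Finset.mem_univ _, hz, h0⟩
    · push Not at h0
      obtain ⟨p, rfl⟩ := exists_pt z
      obtain ⟨c, e, s, w, h1, h2, h3, h4⟩ := h p hz fun j => (aeval_pt_zero p _).1 (h0 j)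
      have hinj : Function.Injective s := by
        intro a b hab
        by_contra hne'
        apply h4
        refine Matrix.det_zero_of_row_eq hne' ?_
        funext t
        simp only [Matrix.of_apply, hab]
      have hc : c < Fintype.card σ + 1 := by
        have := Fintype.card_le_of_injective s hinj
        rw [Fintype.card_fin] at this
        omega
      refine ⟨some ⟨⟨c, hc⟩, e, s⟩, Finset.mem_univ _, hz, fun t => (aeval_pt_zero p _).2 (h2 t),
        ?_, ?_⟩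
      · have h5 := det_aeval (A := ℂ) p fun u t => pderiv (s u) (f (e t))
        rw [Ne, aeval_pt_zero]
        intro h6
        apply h4
        exact h5.symm.trans h6
      · exact hG2 ⟨⟨c, hc⟩, e, s⟩ _ w h3 (by rw [Ne, aeval_pt_zero]; exact h1)

end smooth

section lines

variable {R : Type} [CommRing R] (M : Meas ℂ R) (v : R) {n : ℕ} {J : Type} [Finite J]

theorem disj_Ln {q q' : Fin n → ℂ} (h : q ≠ q') : Disjoint (Ln q) (Ln q') := by
  rw [Set.disjoint_left]
  rintro z ⟨h0, h1⟩ ⟨_, h2⟩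
  apply h
  funext i
  have h3 := (h1 i).symm.trans (h2 i)
  exact (algebraMap ℂ (AlgebraicClosure ℂ)).injective (mul_left_cancel₀ h0 h3)

theorem ZW_lines {A : Type} [SetLike A (PowerSeries R)] [AddSubmonoidClass A (PowerSeries R)]
    (P : A) (f : J → MvPolynomial (Fin (n + 1)) ℂ) (Q : Finset (Fin n → ℂ)) :
    (∀ q ∈ Q, ZW M v f (Ln q) ∈ P) →
    ∀ W : Set (Pt ℂ (Fin (n + 1))), Constr W → (∀ q ∈ Q, Ln q ⊆ W) →
    (∀ W', Constr W' → W' ⊆ W → (∀ q ∈ Q, Disjoint (Ln q) W') → ZW M v f W' ∈ P) →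
    ZW M v f W ∈ P := by
  classical
  induction Q using Finset.induction_on with
  | empty =>
    intro _ W hW _ h
    exact h W hW le_rfl (by simp)
  | insert q Q hq ih =>
    intro hP W hW hs h
    have h1 : W = Ln q ∪ (W ∩ (Ln q)ᶜ) := by
      rw [← Set.sdiff_eq, Set.union_sdiff_cancel (hs q (Finset.mem_insert_self _ _))]
    have h2 : Disjoint (Ln q) (W ∩ (Ln q)ᶜ) :=
      Set.disjoint_left.2 fun z hz hz' => hz'.2 hz
    rw [h1, ZW_add M f (constr_Ln q) (hW.inter (constr_Ln q).compl) h2]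
    refine add_mem (hP q (Finset.mem_insert_self _ _))
      (ih (fun j hj => hP j (Finset.mem_insert_of_mem hj)) _ (hW.inter (constr_Ln q).compl) ?_ ?_)
    · intro q' hq' z hz
      refine ⟨hs q' (Finset.mem_insert_of_mem hq') hz, fun hz' => ?_⟩
      have h3 : q ≠ q' := fun h => hq (h ▸ hq')
      exact Set.disjoint_left.1 (disj_Ln h3) hz' hz
    · intro W' hW' hs' hd
      refine h W' hW' (fun z hz => (hs' hz).1) ?_
      intro q' hq'
      rcases Finset.mem_insert.1 hq' with rfl | hq'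
      · exact Set.disjoint_left.2 fun z hz hz' => (hs' hz').2 hz
      · exact hd q' hq'

end lines

section cone

variable {R : Type} [CommRing R] (M : Meas ℂ R) (u : Rˣ) (hL : M.L = (u : R)) {n : ℕ} {J : Type}
  [Finite J]
include hL

theorem cone_mem (f : J → MvPolynomial (Fin (n + 1)) ℂ) (hne : ∃ j, f j ≠ 0) (d : ℕ)
    (hd : 0 < d) (hf : ∀ j, (f j).IsHomogeneous d) (D : Set (ℤ × ℤ))
    (h0 : (-((n + 1 : ℕ) : ℤ), (d : ℤ)) ∈ D)
    (hD : ∀ c p, p ≠ 0 → 0 < c → SmoothAt f c p → (-(c : ℤ), (1 : ℤ)) ∈ D)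
    (Q : Finset (Fin n → ℂ))
    (hQ : ∀ q ∈ Q, ZW M ((u⁻¹ : Rˣ) : R) (fun j => germ q (f j)) {0} ∈ ratU u D)
    (h : ∀ p : Fin (n + 1) → ℂ, p ≠ 0 → (∀ j, eval p (f j) = 0) → (∃ c, SmoothAt f c p) ∨
      ∃ q ∈ Q, p 0 ≠ 0 ∧ ∀ i : Fin n, p i.succ = p 0 * q i) :
    ZW M ((u⁻¹ : Rˣ) : R) f {0} ∈ ratU u D := by
  have hv : M.L * ((u⁻¹ : Rˣ) : R) = 1 := by rw [hL, Units.mul_inv]
  have h1 := ZW_cone M hv f d hf
  rw [Fintype.card_fin] at h1
  refine geo_solve u (ν := n + 1) (N := d) hd h0 _ _ ?_ h1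
  refine Subalgebra.mul_mem _ (Subalgebra.mul_mem _ (rat_C u _)
    (Subalgebra.pow_mem _ (rat_X u) _)) ?_
  refine ZW_lines M _ (ratU u D) f Q ?_ _ constr_pt0.compl ?_ ?_
  · intro q hq
    rw [ZW_line M hv f d hf q]
    exact Subalgebra.mul_mem _ (rat_C u _) (hQ q hq)
  · rintro q hq z ⟨hz, _⟩ hz'
    rw [Set.mem_singleton_iff] at hz'
    apply hz
    rw [hz']
    rfl
  · intro W' hW' hs hdj
    refine mem_smooth M u hL f hne D W' hW' ?_ ?_
    · intro c p hp hc hS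
      exact hD c p (pt_ne_zero p (hs hp)) hc hS
    · intro p hp hz
      rcases h p (pt_ne_zero p (hs hp)) hz with h2 | ⟨q, hq, h2, h3⟩
      · exact h2
      · exfalso
        refine Set.disjoint_left.1 (hdj q hq) ?_ hp
        refine ⟨?_, fun i => ?_⟩
        · rw [Ne, map_eq_zero_iff _ (algebraMap ℂ (AlgebraicClosure ℂ)).injective]
          exact h2
        · change algebraMap ℂ (AlgebraicClosure ℂ) (p i.succ) =
            algebraMap ℂ (AlgebraicClosure ℂ) (p 0) * algebraMap ℂ (AlgebraicClosure ℂ) (q i)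
          rw [h3 i, map_mul]

end cone

section zeta

variable {K : Type} [Field K] {σ J : Type} [Fintype σ] [Finite J]

theorem constr_JetF (f : J → MvPolynomial σ K) {W : Set (Pt K σ)} (hW : Constr W) (N : ℕ) :
    Constr (JetF f W N) := by
  refine Constr.and (hW.preimage (fun (z : Pt K (σ × Fin (N + 1))) (i : σ) => z (i, 0))
    fun i => IsPF.coord _) (Constr.and ?_ ?_)
  · refine Constr.all fun j => Constr.allLt _ fun k _ => Constr.eqz ?_
    exact pf_coeffK (fun z => z) (fun i => IsPF.coord _) _ _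
  · refine Constr.ex fun j => Constr.not (Constr.eqz ?_)
    exact pf_coeffK (fun z => z) (fun i => IsPF.coord _) _ _

theorem chi_JetF {R : Type} [CommRing R] (M : Meas K R) (f : J → MvPolynomial σ K)
    {W : Set (Pt K σ)} (hW : Constr W) (N : ℕ) :
    M.χ _ (JetF f W N) + M.χ _ (GW f W (N + 1) N) = M.χ _ (GW f W N N) := by
  rw [← M.add _ _ (constr_JetF f hW N) (constr_GW f hW _ _)]
  · congr 1
    ext z
    rw [Set.mem_union, mem_GW, mem_GW]
    constructor
    · rintro (⟨h1, h2, _⟩ | ⟨h1, h2⟩)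
      · exact ⟨h1, h2⟩
      · exact ⟨h1, fun j => vn_mono (h2 j) (Nat.le_succ N)⟩
    · rintro ⟨h1, h2⟩
      by_cases h3 : ∃ j, PowerSeries.coeff N (aeval (ar z) (f j)) ≠ 0
      · exact Or.inl ⟨h1, h2, h3⟩
      · push Not at h3
        refine Or.inr ⟨h1, fun j k hk => ?_⟩
        rcases Nat.lt_succ_iff_lt_or_eq.1 hk with h4 | rfl
        · exact h2 j k h4
        · exact h3 j
  · rw [Set.disjoint_left]
    rintro z ⟨_, _, j, hj⟩ ⟨_, h2⟩
    exact hj (h2 j N (Nat.lt_succ_self N))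

theorem zetaJ_eq {M : Meas K (MK K)} (hL : M.L = ((Lu K : (MK K)ˣ) : MK K))
    (hχ : ∀ (ι : Type) [Fintype ι] (S : Set (Pt K ι)),
      M.χ ι S = algebraMap (K0 K) (MK K) (cls ι S)) (f : J → MvPolynomial σ K) :
    ZW M (((Lu K)⁻¹ : (MK K)ˣ) : MK K) f {0} = zetaJ f +
      PowerSeries.C (PowerSeries.coeff 0 (ZW M (((Lu K)⁻¹ : (MK K)ˣ) : MK K) f {0})) := by
  have hv : M.L * (((Lu K)⁻¹ : (MK K)ˣ) : MK K) = 1 := by rw [hL, Units.mul_inv]
  ext N
  rw [map_add, PowerSeries.coeff_C]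
  unfold zetaJ
  rw [PowerSeries.coeff_C_mul, PowerSeries.coeff_mk]
  rcases Nat.eq_zero_or_pos N with rfl | hN
  · rw [if_pos rfl, if_pos rfl, mul_zero, zero_add]
  · rw [if_neg hN.ne', if_neg hN.ne', add_zero]
    simp only [ZW, PowerSeries.coeff_mk]
    rw [← vol_eq M hv f constr_pt0 (N + 1) N (by omega),
      ← vol_eq M hv f constr_pt0 N N (by omega), ← hχ, ← inv_pow_eq, ← inv_pow_eq,
      mul_add (Fintype.card σ) N 1, pow_add, mul_one]
    have h1 := chi_JetF M f (constr_pt0 (K := K) (σ := σ)) N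
    linear_combination (-((((Lu K)⁻¹ : (MK K)ˣ) : MK K) ^ (Fintype.card σ * N) *
      (((Lu K)⁻¹ : (MK K)ˣ) : MK K) ^ Fintype.card σ)) * h1

end zeta

theorem ratRing_eq (K : Type) [Field K] (D : Set (ℤ × ℤ)) : ratRing K D = ratU (Lu K) D := rfl

/-- **The motivic zeta function of a cone.** -/
theorem zeta_cone {n : ℕ} {J : Type} [Finite J] (f : J → MvPolynomial (Fin (n + 1)) ℂ)
    (hne : ∃ j, f j ≠ 0) (d : ℕ)
    (hd : 0 < d) (hf : ∀ j, (f j).IsHomogeneous d) (D : Set (ℤ × ℤ))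
    (h0 : (-((n + 1 : ℕ) : ℤ), (d : ℤ)) ∈ D)
    (hD : ∀ c p, p ≠ 0 → 0 < c → SmoothAt f c p → (-(c : ℤ), (1 : ℤ)) ∈ D)
    (Q : Finset (Fin n → ℂ))
    (hQ : ∀ q ∈ Q, zetaJ (fun j => germ q (f j)) ∈ ratRing ℂ D)
    (h : ∀ p : Fin (n + 1) → ℂ, p ≠ 0 → (∀ j, eval p (f j) = 0) → (∃ c, SmoothAt f c p) ∨
      ∃ q ∈ Q, p 0 ≠ 0 ∧ ∀ i : Fin n, p i.succ = p 0 * q i) :
    zetaJ f ∈ ratRing ℂ D := by
  obtain ⟨M, hL, hχ⟩ := exists_meas ℂ
  have h1 := cone_mem M (Lu ℂ) hL f hne d hd hf D h0 hD Q (fun q hq => by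
    rw [zetaJ_eq hL hχ]
    exact Subalgebra.add_mem _ (hQ q hq) (rat_C _ _)) h
  have h2 := zetaJ_eq hL hχ f
  have h3 : zetaJ f = ZW M (((Lu ℂ)⁻¹ : (MK ℂ)ˣ) : MK ℂ) f {0} -
      PowerSeries.C (PowerSeries.coeff 0 (ZW M (((Lu ℂ)⁻¹ : (MK ℂ)ˣ) : MK ℂ) f {0})) := by
    rw [eq_sub_iff_add_eq]
    exact h2.symm
  rw [ratRing_eq, h3]
  exact Subalgebra.sub_mem _ h1 (rat_C _ _)

end Pool.Agent.Q49.CO
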