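import Pool.Agent.Q49.CO.Vol
import Pool.Agent.Q49.CO.Defs

set_option autoImplicit false
set_option linter.unusedSectionVars false
set_option linter.unusedVariables false

/-! # Scaling, and the volumes of the arcs with origin on a line through the origin -/

namespace Pool.Agent.Q49.CO

open MvPolynomial Pool.Agent.W428.MOT Pool.Agent.TH192.MT Pool.Agent.TH192.DT

theorem hom_aeval {K A : Type} [Field K] [CommRing A] [Algebra K A] {σ : Type} [Fintype σ]
    (P : MvPolynomial σ K) (n : ℕ) (h : P.IsHomogeneous n) (c : A) (x : σ → A) :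
    aeval (fun i => c * x i) P = c ^ n * aeval x P := by
  rw [aeval_def, aeval_def, eval₂_eq', eval₂_eq', Finset.mul_sum]
  refine Finset.sum_congr rfl fun d hd => ?_
  have h1 : ∑ i, d i = n := by
    have := h (mem_support_iff.1 hd)
    rw [Finsupp.weight_apply, Finsupp.sum_fintype] at this
    · simpa using this
    · simp
  simp only [mul_pow, Finset.prod_mul_distrib, Finset.prod_pow_eq_pow_sum, h1]
  ring

variable {K : Type} [Field K] {R : Type} [CommRing R] (M : Meas K R)

section scale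

variable {σ J : Type} [Fintype σ] [Finite J]

theorem constr_pt0 : Constr ({0} : Set (Pt K σ)) := by
  have h1 : ({0} : Set (Pt K σ)) = {z | ∀ i, z i = 0} := by
    ext z
    rw [Set.mem_singleton_iff, Set.mem_ofPred_eq]
    exact funext_iff
  rw [h1]
  exact Constr.all fun i => Constr.eqz (IsPF.coord i)

theorem chi_pt0 : M.χ σ ({0} : Set (Pt K σ)) = 1 := by
  rw [← M.point (ι := Empty)]
  refine M.iso _ _ constr_pt0 Constr.univ (fun _ i => i.elim) (fun _ _ => 0) (fun i => i.elim)
    (fun i => IsPF.zero.isRF _) (fun _ _ => trivial) (fun _ _ => rfl) ?_ ?_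
  · intro z hz
    rw [Set.mem_singleton_iff] at hz
    rw [hz]
    rfl
  · intro w _
    funext i
    exact i.elim

theorem ar_shift {m : ℕ} (z : Pt K (σ × Fin (m + 2))) (h : ∀ i, z (i, 0) = 0) :
    ar z = fun i => PowerSeries.X * ar (N := m) (fun q => z (q.1, q.2.succ)) i := by
  funext i
  ext j
  rw [coeff_ar]
  rcases j with _ | j
  · rw [dif_pos (by omega), PowerSeries.coeff_zero_X_mul]
    exact h i
  · rw [PowerSeries.coeff_succ_X_mul, coeff_ar]
    by_cases hj : j < m + 1
    · rw [dif_pos (by omega), dif_pos hj]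
      rfl
    · rw [dif_neg (by omega), dif_neg hj]

theorem c0_mul {F : Type} [Field F] (a b : PowerSeries F) : PowerSeries.coeff 0 (a * b) =
    PowerSeries.coeff 0 a * PowerSeries.coeff 0 b := by
  simp only [PowerSeries.coeff_zero_eq_constantCoeff_apply, map_mul]

theorem vn_X {F : Type} [Field F] (N d : ℕ) (a : PowerSeries F) :
    Vn (N + d) (PowerSeries.X ^ d * a) ↔ Vn N a := by
  rw [vn_iff, vn_iff, pow_add, mul_comm (PowerSeries.X ^ N)]
  exact mul_dvd_mul_iff_left (pow_ne_zero _ PowerSeries.X_ne_zero)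

theorem chi_scale (f : J → MvPolynomial σ K) (d : ℕ) (hf : ∀ j, (f j).IsHomogeneous d)
    (N m : ℕ) : M.χ _ (GW f {0} (N + d) (m + 1)) = M.χ _ (GW f Set.univ N m) := by
  have key : ∀ z : Pt K (σ × Fin (m + 2)), (∀ i, z (i, 0) = 0) →
      (z ∈ GW f {0} (N + d) (m + 1) ↔
        (fun q => z (q.1, q.2.succ) : Pt K (σ × Fin (m + 1))) ∈ GW f Set.univ N m) := by
    intro z hz
    rw [mem_GW, mem_GW]
    refine and_congr ⟨fun _ => trivial, fun _ => funext hz⟩ (forall_congr' fun j => ?_)
    rw [ar_shift z hz, hom_aeval _ d (hf j), vn_X]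
  refine M.iso _ _ (constr_GW f constr_pt0 _ _) (constr_GW f Constr.univ _ _)
    (fun z q => z (q.1, q.2.succ))
    (fun w q => Fin.cases (motive := fun _ => AlgebraicClosure K) 0 (fun j => w (q.1, j)) q.2)
    (regularOn_poly (fun i => IsPF.coord _) _) (regularOn_poly ?_ _) ?_ ?_ ?_ ?_
  · rintro ⟨i, j⟩
    refine Fin.cases ?_ (fun j => ?_) j
    · exact IsPF.zero
    · exact IsPF.coord _
  · intro z hz
    exact (key z fun i => congrFun hz.1 i).1 hz
  · intro w hw
    exact (key _ fun i => rfl).2 hw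
  · intro z hz
    funext ⟨i, j⟩
    refine Fin.cases ?_ (fun j => ?_) j
    · exact (congrFun hz.1 i).symm
    · rfl
  · intro w _
    rfl

variable {v : R} (hv : M.L * v = 1)
include hv

theorem vol_scale (f : J → MvPolynomial σ K) (d : ℕ) (hf : ∀ j, (f j).IsHomogeneous d)
    (N : ℕ) : vol M v f {0} (N + d) = v ^ Fintype.card σ * vol M v f Set.univ N := by
  rw [← vol_eq M hv f constr_pt0 (N + d) (N + d + 1) (by omega), chi_scale M f d hf,
    ← vol_eq M hv f Constr.univ N (N + d) (by omega), mul_add (Fintype.card σ) (N + d + 1) 1,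
    pow_add, mul_one]
  ring

theorem vol_small (f : J → MvPolynomial σ K) (d : ℕ) (hf : ∀ j, (f j).IsHomogeneous d)
    (N : ℕ) (hN : N ≤ d) : vol M v f {0} N = v ^ Fintype.card σ := by
  have h1 : ∀ m, GW f {0} N (m + 1) = GW f {0} 0 (m + 1) := by
    intro m
    ext z
    rw [mem_GW, mem_GW]
    refine and_congr_right fun h => ⟨fun h2 j => vn_mono (h2 j) (Nat.zero_le _), fun _ j => ?_⟩
    rw [ar_shift z (fun i => congrFun h i), hom_aeval _ d (hf j), vn_iff]
    exact (pow_dvd_pow _ hN).mul_right _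
  have h2 := vol_zero M hv f (constr_pt0 (K := K) (σ := σ))
  rw [chi_pt0, one_mul] at h2
  rw [← h2, ← vol_eq M hv f constr_pt0 N (N + 1) (by omega),
    ← vol_eq M hv f constr_pt0 0 (N + 1) (by omega), h1]

theorem ZW_cone (f : J → MvPolynomial σ K) (d : ℕ) (hf : ∀ j, (f j).IsHomogeneous d) :
    ZW M v f {0} = PowerSeries.C (v ^ Fintype.card σ) * PowerSeries.X ^ d * ZW M v f {0}ᶜ +
      PowerSeries.C (v ^ Fintype.card σ) * PowerSeries.X ^ d * ZW M v f {0} := by
  have h1 : ZW M v f Set.univ = ZW M v f {0}ᶜ + ZW M v f {0} := by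
    rw [← ZW_add M f constr_pt0.compl constr_pt0 (Set.disjoint_left.2 fun z h h' => h h'),
      Set.compl_union_self]
  rw [← mul_add, ← h1]
  ext N
  rw [mul_assoc, PowerSeries.coeff_C_mul, PowerSeries.coeff_X_pow_mul']
  split_ifs with hd
  · obtain ⟨k, rfl⟩ := Nat.exists_eq_add_of_le hd
    rw [Nat.add_sub_cancel_left]
    simp only [ZW, PowerSeries.coeff_mk]
    rw [Nat.add_comm d k, vol_scale M hv f d hf, show k + d + 1 = (k + 1) + d by ring,
      vol_scale M hv f d hf]
    ring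
  · simp only [ZW, PowerSeries.coeff_mk]
    rw [vol_small M hv f d hf N (by omega), vol_small M hv f d hf (N + 1) (by omega), sub_self,
      mul_zero]

end scale

section line

variable {n : ℕ} {J : Type} [Finite J]

theorem aeval_germ {A : Type} [CommRing A] [Algebra K A] (q : Fin n → K)
    (P : MvPolynomial (Fin (n + 1)) K) (y : Fin n → A) :
    aeval y (germ q P) =
      aeval (Fin.cons 1 fun i => y i + algebraMap K A (q i) : Fin (n + 1) → A) P := by
  unfold germ
  rw [← AlgHom.comp_apply]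
  congr 1
  ext i
  rw [AlgHom.comp_apply, aeval_X, aeval_X]
  refine Fin.cases ?_ (fun i => ?_) i
  · rw [Fin.cons_zero, Fin.cons_zero, map_one]
  · rw [Fin.cons_succ, Fin.cons_succ, map_add, aeval_X, algHom_C]

/-- the punctured line through `(1, q)` -/
def Ln (q : Fin n → K) : Set (Pt K (Fin (n + 1))) :=
  {z | z 0 ≠ 0 ∧ ∀ i : Fin n, z i.succ = z 0 * algebraMap K _ (q i)}

theorem constr_Ln (q : Fin n → K) : Constr (Ln q) :=
  Constr.and (Constr.not (Constr.eqz (IsPF.coord 0)))
    (Constr.all fun i => Constr.eq (IsPF.coord _) ((IsPF.coord _).mul (IsPF.const _)))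

/-- the condition on the order -/
theorem line_iff (f : J → MvPolynomial (Fin (n + 1)) K) (d : ℕ)
    (hf : ∀ j, (f j).IsHomogeneous d) (q : Fin n → K) (N m : ℕ) (hN : N ≤ m + 1)
    (z : Pt K (Fin (n + 1) × Fin (m + 1))) (A : PowerSeries (AlgebraicClosure K))
    (hA : PowerSeries.coeff 0 A ≠ 0) (y : Pt K (Fin n × Fin (m + 1))) (h0 : ar z 0 = A)
    (h1 : ∀ i : Fin n, Cg m (ar z i.succ)
      (A * (ar y i + PowerSeries.C (algebraMap K _ (q i))))) (j : J) :
    Vn N (aeval (ar z) (f j)) ↔ Vn N (aeval (ar y) (germ q (f j))) := by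
  have h2 : ∀ i, Cg m (ar z i) (A * (Fin.cons 1 fun i => ar y i +
      algebraMap K (PowerSeries (AlgebraicClosure K)) (q i) :
        Fin (n + 1) → PowerSeries (AlgebraicClosure K)) i) := by
    intro i
    refine Fin.cases ?_ (fun i => ?_) i
    · rw [Fin.cons_zero, mul_one, h0]
      exact fun _ _ => rfl
    · rw [Fin.cons_succ, PowerSeries.algebraMap_apply]
      exact h1 i
  rw [vn_congr' (cg_aevalK (f j) m _ _ h2) hN, hom_aeval _ d (hf j), aeval_germ, vn_unit]
  rw [PowerSeries.coeff_zero_eq_constantCoeff_apply, map_pow,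
    ← PowerSeries.coeff_zero_eq_constantCoeff_apply]
  exact pow_ne_zero _ hA

theorem chi_A0 (m : ℕ) : M.χ (Fin (m + 1)) {a : Pt K (Fin (m + 1)) | a 0 ≠ 0} =
    (M.L - 1) * M.L ^ m := by
  classical
  have h1 := Pool.Agent.W417.MT.Free.main M (Set.univ : Set (Pt K (Fin (m + 1)))) {0}
    (Finset.univ.erase 0) (fun _ => 0)
    (Finset.disjoint_left.2 fun x hx hx' => by
      rw [Finset.mem_singleton] at hx
      exact (Finset.mem_erase.1 hx').1 hx) Constr.univ (fun _ _ _ h => h)
  have h2 : (Set.univ ∩ {z : Pt K (Fin (m + 1)) | ∀ i ∈ ({0} : Finset (Fin (m + 1))), z i ≠ 0}) =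
      {a : Pt K (Fin (m + 1)) | a 0 ≠ 0} := by
    ext z
    simp
  have h3 : (Set.univ ∩ {z : Pt K (Fin (m + 1)) | ∀ i ∈ ({0} : Finset (Fin (m + 1))) ∪
      Finset.univ.erase 0, z i = algebraMap K _ (0 : K)}) = {0} := by
    ext z
    rw [Set.mem_inter_iff, Set.mem_singleton_iff, Set.mem_ofPred_eq]
    constructor
    · rintro ⟨_, h⟩
      funext i
      rw [h i (by
        rw [Finset.mem_union, Finset.mem_singleton, Finset.mem_erase]
        by_cases hi : i = 0
        · exact Or.inl hi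
        · exact Or.inr ⟨hi, Finset.mem_univ _⟩), map_zero]
      rfl
    · rintro rfl
      exact ⟨trivial, fun i _ => by rw [map_zero]; rfl⟩
  rw [h2, h3, chi_pt0, one_mul, Finset.card_singleton, pow_one,
    Finset.card_erase_of_mem (Finset.mem_univ _), Finset.card_univ, Fintype.card_fin,
    Nat.add_sub_cancel] at h1
  exact h1

theorem chi_line (f : J → MvPolynomial (Fin (n + 1)) K) (d : ℕ)
    (hf : ∀ j, (f j).IsHomogeneous d) (q : Fin n → K) (N m : ℕ) (hN : N ≤ m + 1) :
    M.χ _ (GW f (Ln q) N m) =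
      (M.L - 1) * M.L ^ m * M.χ _ (GW (fun j => germ q (f j)) {0} N m) := by
  set A0 : Set (Pt K (Fin (m + 1))) := {a | a 0 ≠ 0} with hA0
  have cA0 : Constr A0 := Constr.not (Constr.eqz (IsPF.coord _))
  have cG := constr_GW (fun j => germ q (f j)) (constr_pt0 (K := K) (σ := Fin n)) N m
  rw [← chi_A0 M m, ← M.prod A0 _ cA0 cG]
  set T : Set (Pt K (Fin (m + 1) ⊕ Fin n × Fin (m + 1))) :=
    {z | (fun i => z (Sum.inl i)) ∈ A0 ∧
      (fun i => z (Sum.inr i)) ∈ GW (fun j => germ q (f j)) {0} N m} with hT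
  have cT : Constr T := Constr.and (cA0.preimage (fun (z : Pt K (Fin (m + 1) ⊕ Fin n ×
      Fin (m + 1))) (i : Fin (m + 1)) => z (Sum.inl i)) fun i => IsPF.coord _)
    (cG.preimage (fun (z : Pt K (Fin (m + 1) ⊕ Fin n × Fin (m + 1))) (i : Fin n × Fin (m + 1)) =>
      z (Sum.inr i)) fun i => IsPF.coord _)
  -- the two maps
  set Yz : Pt K (Fin (n + 1) × Fin (m + 1)) → Fin n → PowerSeries (AlgebraicClosure K) :=
    fun z i => ar z i.succ * (ar z 0)⁻¹ - PowerSeries.C (algebraMap K _ (q i)) with hYz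
  set Φ : Pt K (Fin (n + 1) × Fin (m + 1)) → Pt K (Fin (m + 1) ⊕ Fin n × Fin (m + 1)) :=
    fun z => Sum.elim (fun j => z (0, j)) fun p => PowerSeries.coeff (p.2 : ℕ) (Yz z p.1) with hΦ
  set Aw : Pt K (Fin (m + 1) ⊕ Fin n × Fin (m + 1)) → PowerSeries (AlgebraicClosure K) :=
    fun w => ar (fun p : Unit × Fin (m + 1) => w (Sum.inl p.2)) () with hAw
  set Yw : Pt K (Fin (m + 1) ⊕ Fin n × Fin (m + 1)) → Fin n → PowerSeries (AlgebraicClosure K) :=
    fun w => ar fun p => w (Sum.inr p) with hYw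
  set Ψ : Pt K (Fin (m + 1) ⊕ Fin n × Fin (m + 1)) → Pt K (Fin (n + 1) × Fin (m + 1)) :=
    fun w p => Fin.cases (motive := fun _ => AlgebraicClosure K) (w (Sum.inl p.2))
      (fun i => PowerSeries.coeff (p.2 : ℕ)
        (Aw w * (Yw w i + PowerSeries.C (algebraMap K _ (q i))))) p.1 with hΨ
  have hA1 : ∀ w, PowerSeries.coeff 0 (Aw w) = w (Sum.inl 0) := fun w => coeff_ar_zero _ _
  have hΨ0 : ∀ w, ar (Ψ w) 0 = Aw w := by
    intro w
    ext j
    simp only [hAw]
    rw [coeff_ar, coeff_ar]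
    rfl
  have hΨ1 : ∀ w (i : Fin n), Cg m (ar (Ψ w) i.succ)
      (Aw w * (Yw w i + PowerSeries.C (algebraMap K _ (q i)))) := by
    intro w i k hk
    rw [coeff_ar, dif_pos (by omega)]
    rfl
  have hΦ0 : ∀ z, ar z 0 = Aw (Φ z) := by
    intro z
    ext j
    simp only [hAw]
    rw [coeff_ar, coeff_ar]
    rfl
  have hΦY : ∀ z (i : Fin n), Cg m (Yw (Φ z) i) (Yz z i) := by
    intro z i k hk
    simp only [hYw]
    rw [coeff_ar, dif_pos (by omega)]
    rfl
  have hmul : ∀ (a b c : PowerSeries (AlgebraicClosure K)), Cg m b c → Cg m (a * b) (a * c) := by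
    intro a b c h k hk
    rw [PowerSeries.coeff_mul, PowerSeries.coeff_mul]
    refine Finset.sum_congr rfl fun ab hab => ?_
    have := Finset.HasAntidiagonal.mem_antidiagonal.1 hab
    rw [h ab.2 (by omega)]
  have hΦ1 : ∀ z, z (0, 0) ≠ 0 → ∀ i : Fin n, Cg m (ar z i.succ)
      (ar z 0 * (Yw (Φ z) i + PowerSeries.C (algebraMap K _ (q i)))) := by
    intro z hz i k hk
    have h1 : Cg m (Yw (Φ z) i + PowerSeries.C (algebraMap K _ (q i)))
        (Yz z i + PowerSeries.C (algebraMap K _ (q i))) := by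
      intro k hk
      rw [map_add, map_add, hΦY z i k hk]
    rw [hmul _ _ _ h1 k hk]
    simp only [hYz]
    rw [sub_add_cancel, mul_comm, mul_assoc, PowerSeries.inv_mul_cancel, mul_one]
    rw [← PowerSeries.coeff_zero_eq_constantCoeff_apply, coeff_ar_zero]
    exact hz
  have horig : ∀ z, (fun i => z (i, 0)) ∈ Ln q ↔ z (0, 0) ≠ 0 ∧
      (fun i => Φ z (Sum.inr (i, 0))) = (0 : Pt K (Fin n)) := by
    intro z
    unfold Ln
    rw [Set.mem_ofPred_eq]
    refine and_congr_right fun h0 => ?_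
    rw [funext_iff]
    refine forall_congr' fun i => ?_
    change z (i.succ, 0) = z (0, 0) * algebraMap K _ (q i) ↔
      PowerSeries.coeff ((0 : Fin (m + 1)) : ℕ) (Yz z i) = 0
    simp only [hYz, Fin.val_zero]
    rw [map_sub, PowerSeries.coeff_C, if_pos rfl, c0_mul,
      coeff_ar_zero, PowerSeries.coeff_zero_eq_constantCoeff_apply, PowerSeries.constantCoeff_inv,
      ← PowerSeries.coeff_zero_eq_constantCoeff_apply, coeff_ar_zero, sub_eq_zero]
    constructor
    · intro h
      rw [h]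
      field_simp
    · intro h
      rw [← h]
      field_simp
  refine M.iso _ _ (constr_GW f (constr_Ln q) N m) cT Φ Ψ ?_ ?_ ?_ ?_ ?_ ?_
  · -- regularity of `Φ`
    have h1 : ∀ i, IsRA (GW f (Ln q) N m) (fun z => ar z i) := by
      intro i j
      simp only [coeff_ar]
      split_ifs
      · exact (IsPF.coord _).isRF _
      · exact IsPF.zero.isRF _
    have h2 : IsRA (GW f (Ln q) N m) (fun z => (ar z 0)⁻¹) := ra_inv (h1 0) fun z hz => by
      rw [coeff_ar_zero]
      exact hz.1.1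
    rintro (j | ⟨i, j⟩)
    · exact (IsPF.coord _).isRF _
    · have h3 := (ra_mul (h1 i.succ) h2) (j : ℕ)
      change IsRF _ fun z => PowerSeries.coeff (j : ℕ) (Yz z i)
      simp only [hYz, map_sub, PowerSeries.coeff_C]
      refine h3.sub ?_
      split_ifs
      · exact (IsPF.const _).isRF _
      · exact IsPF.zero.isRF _
  · -- regularity of `Ψ`
    refine regularOn_poly ?_ _
    rintro ⟨i, j⟩
    refine Fin.cases ?_ (fun i => ?_) i
    · exact IsPF.coord _
    · change IsPF fun w => PowerSeries.coeff (j : ℕ)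
        (Aw w * (Yw w i + PowerSeries.C (algebraMap K _ (q i))))
      simp only [PowerSeries.coeff_mul]
      refine IsPF.sum _ _ fun ab _ => IsPF.mul ?_ ?_
      · simp only [hAw, coeff_ar]
        split_ifs
        · exact IsPF.coord _
        · exact IsPF.zero
      · simp only [map_add, hYw, coeff_ar, PowerSeries.coeff_C]
        refine IsPF.add ?_ ?_
        · split_ifs
          · exact IsPF.coord _
          · exact IsPF.zero
        · split_ifs
          · exact IsPF.const _
          · exact IsPF.zero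
  · intro z hz
    obtain ⟨h1, h2⟩ := hz
    obtain ⟨h3, h4⟩ := (horig z).1 h1
    refine ⟨h3, h4, fun j => ?_⟩
    exact (line_iff f d hf q N m hN z (ar z 0) (by rw [coeff_ar_zero]; exact h3)
      (fun p => Φ z (Sum.inr p)) rfl (hΦ1 z h3) j).1 (h2 j)
  · intro w hw
    obtain ⟨h1, h2, h3⟩ := hw
    have h0 : Ψ w (0, 0) ≠ 0 := h1
    refine ⟨?_, fun j => ?_⟩
    · unfold Ln
      refine ⟨h0, fun i => ?_⟩
      change Ψ w (i.succ, 0) = Ψ w (0, 0) * _
      have h4 := hΨ1 w i 0 (Nat.zero_le _)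
      rw [coeff_ar_zero] at h4
      rw [h4, c0_mul, hA1]
      congr 1
      rw [map_add, PowerSeries.coeff_C, if_pos rfl]
      have h5 : PowerSeries.coeff 0 (Yw w i) = 0 := by
        simp only [hYw]
        rw [coeff_ar_zero]
        exact congrFun h2 i
      rw [h5, zero_add]
    · refine (line_iff f d hf q N m hN (Ψ w) (Aw w) (by rw [hA1]; exact h1)
        (fun p => w (Sum.inr p)) (hΨ0 w) (hΨ1 w) j).2 (h3 j)
  · -- `Ψ (Φ z) = z`
    intro z hz
    have h3 := ((horig z).1 hz.1).1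
    funext ⟨i, j⟩
    refine Fin.cases ?_ (fun i => ?_) i
    · rfl
    · have h4 := hΦ1 z h3 i j (by omega)
      rw [coeff_ar, dif_pos j.2] at h4
      change PowerSeries.coeff (j : ℕ)
        (Aw (Φ z) * (Yw (Φ z) i + PowerSeries.C (algebraMap K _ (q i)))) = z (i.succ, j)
      rw [← hΦ0]
      exact h4.symm
  · -- `Φ (Ψ w) = w`
    intro w hw
    have h1 : w (Sum.inl 0) ≠ 0 := hw.1
    funext x
    rcases x with j | ⟨i, j⟩
    · rfl
    · change PowerSeries.coeff (j : ℕ) (Yz (Ψ w) i) = w (Sum.inr (i, j))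
      simp only [hYz]
      rw [hΨ0, map_sub, mul_comm]
      have h2 := hmul (Aw w)⁻¹ _ _ (hΨ1 w i) j (by omega)
      rw [h2, ← mul_assoc, PowerSeries.inv_mul_cancel, one_mul, map_add, add_sub_cancel_right]
      · simp only [hYw]
        rw [coeff_ar, dif_pos j.2]
      · rw [← PowerSeries.coeff_zero_eq_constantCoeff_apply, hA1]
        exact h1

variable {v : R} (hv : M.L * v = 1)
include hv

theorem vol_line (f : J → MvPolynomial (Fin (n + 1)) K) (d : ℕ)
    (hf : ∀ j, (f j).IsHomogeneous d) (q : Fin n → K) (N : ℕ) :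
    vol M v f (Ln q) N = (M.L - 1) * v * vol M v (fun j => germ q (f j)) {0} N := by
  unfold vol
  rw [chi_line M f d hf q N N (by omega), Fintype.card_fin, Fintype.card_fin]
  have h1 : M.L ^ N * v ^ N = 1 := by rw [← mul_pow, hv, one_pow]
  have h2 : v ^ ((n + 1) * (N + 1)) = v ^ N * v * v ^ (n * (N + 1)) := by
    rw [← pow_succ, ← pow_add]
    congr 1
    ring
  rw [h2]
  linear_combination ((M.L - 1) * v * v ^ (n * (N + 1)) *
    M.χ _ (GW (fun j => germ q (f j)) {0} N N)) * h1

theorem ZW_line (f : J → MvPolynomial (Fin (n + 1)) K) (d : ℕ)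
    (hf : ∀ j, (f j).IsHomogeneous d) (q : Fin n → K) :
    ZW M v f (Ln q) = PowerSeries.C ((M.L - 1) * v) * ZW M v (fun j => germ q (f j)) {0} := by
  ext N
  rw [PowerSeries.coeff_C_mul]
  simp only [ZW, PowerSeries.coeff_mk]
  rw [vol_line M hv f d hf q N, vol_line M hv f d hf q (N + 1)]
  ring

end line

end Pool.Agent.Q49.CO
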