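import Pool.Agent.Q49.CO.Hyp6
import Pool.Agent.Y229.SP6
import Pool.Agent.TH192.DT.Forms

set_option autoImplicit false
set_option linter.unusedSectionVars false
set_option linter.unusedVariables false

/-! # The strong motivic monodromy conjecture for `∑ y_j f_j` -/

namespace Pool.Agent.Q49.CO

open MvPolynomial Pool.Agent.W428.MOT Pool.Agent.TH192.MT Pool.Agent.Y229
open Pool.Agent.W574.SM (IsFunctionalEq)
open Pool.Agent.W574.RO (Forced)
open Pool.Agent.W574.HS (univ functionalEq_of_univ)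
open Pool.Agent.H628R4.TP (IsBFunction IsLocalBFunction)

variable {n : ℕ} {J : Type} [Fintype J]

theorem ne_of_det (f : J → MvPolynomial (Fin (n + 1)) ℂ)
    (hg : ∃ e : Fin (n + 1) → J, (Matrix.of fun s t => pderiv s (f (e t))).det ≠ 0) :
    ∃ j, f j ≠ 0 := by
  obtain ⟨e, he⟩ := hg
  by_contra h0
  push Not at h0
  apply he
  have h1 : (Matrix.of fun s t => pderiv s (f (e t))) =
      (0 : Matrix (Fin (n + 1)) (Fin (n + 1)) (MvPolynomial (Fin (n + 1)) ℂ)) := by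
    ext1 s t
    rw [Matrix.of_apply, h0, map_zero]
    rfl
  rw [h1, Matrix.det_zero]

/-- the roots for the hypersurface -/
theorem hyp_root (f : J → MvPolynomial (Fin (n + 1)) ℂ) (d : ℕ)
    (hf : ∀ j, (f j).IsHomogeneous d) (hne : ∃ j, f j ≠ 0) (α : ℂ) (h : Forced f α) :
    (∀ b, IsBFunction (univ f) b → b.eval α = 0) ∧
      ∀ b, IsLocalBFunction (univ f) b → b.eval α = 0 := by
  classical
  exact ⟨fun b hb => h b (functionalEq_of_univ f b hb), fun b hb =>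
    SF.univ hne (sf_of_homog f d hf α h) b hb⟩

theorem hyp_minus_one (f : J → MvPolynomial (Fin (n + 1)) ℂ) (hne : ∃ j, f j ≠ 0) :
    (∀ b, IsBFunction (univ f) b → b.eval (-1) = 0) ∧
      ∀ b, IsLocalBFunction (univ f) b → b.eval (-1) = 0 := by
  classical
  exact ⟨fun b hb => Pool.Agent.TH192.DT.minus_one_univ f hne b hb, fun b hb =>
    Pool.Agent.TH192.DT.minus_one_local f hne b hb⟩

/-- the pairs of the hypersurface -/
noncomputable def hypPairs (S : Finset (ℤ × ℤ)) : Finset (ℤ × ℤ) := insert (-1, 1) S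

theorem hyp_pairs (f : J → MvPolynomial (Fin (n + 1)) ℂ) (d : ℕ)
    (hf : ∀ j, (f j).IsHomogeneous d) (hne : ∃ j, f j ≠ 0) (S : Finset (ℤ × ℤ))
    (h : ∀ q ∈ S, q.1 < 0 ∧ 0 < q.2 ∧ Forced f ((q.1 : ℂ) / q.2)) :
    ∀ q ∈ hypPairs S, q.1 < 0 ∧ 0 < q.2 ∧
      (∀ b, IsBFunction (univ f) b → b.eval ((q.1 : ℂ) / q.2) = 0) ∧
      ∀ b, IsLocalBFunction (univ f) b → b.eval ((q.1 : ℂ) / q.2) = 0 := by
  intro q hq
  rcases Finset.mem_insert.1 hq with rfl | hq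
  · have h1 : (((-1 : ℤ) : ℂ) / ((1 : ℤ) : ℂ)) = -1 := by norm_num
    refine ⟨by norm_num, by norm_num, ?_⟩
    simp only
    rw [h1]
    exact hyp_minus_one f hne
  · obtain ⟨h1, h2, h3⟩ := h q hq
    exact ⟨h1, h2, hyp_root f d hf hne _ h3⟩

/-- **All points, smooth projective schemes.** -/
theorem hyp_all (f : J → MvPolynomial (Fin (n + 1)) ℂ) (d : ℕ) (hd : 0 < d)
    (hf : ∀ j, (f j).IsHomogeneous d)
    (hg : ∃ e : Fin (n + 1) → J, (Matrix.of fun s t => pderiv s (f (e t))).det ≠ 0)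
    (h : ∀ p : Fin (n + 1) → ℂ, p ≠ 0 → (∀ j, eval p (f j) = 0) → ∃ c, SmoothAt f c p)
    (C : Finset ℕ) (hC : ∀ c, c ∈ C ↔ ∃ p, p ≠ 0 ∧ SmoothAt f c p) :
    (∀ q ∈ hypPairs (conePairs (n := n) d C ∅ fun _ => ∅), q.1 < 0 ∧ 0 < q.2 ∧
      (∀ b, IsBFunction (univ f) b → b.eval ((q.1 : ℂ) / q.2) = 0) ∧
      ∀ b, IsLocalBFunction (univ f) b → b.eval ((q.1 : ℂ) / q.2) = 0) ∧
    ∀ x : J ⊕ Fin (n + 1) → ℂ, zetaX (univ f) x ∈
      ratRing ℂ (hypPairs (conePairs (n := n) d C ∅ fun _ => ∅) : Set (ℤ × ℤ)) := by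
  classical
  have hne := ne_of_det f hg
  obtain ⟨h1, -⟩ := cone_forced f d hd hf hg ∅ (fun _ => ∅) (by simp)
    (fun p hp hz => Or.inl (h p hp hz)) C hC
  refine ⟨hyp_pairs f d hf hne _ h1, fun x => ?_⟩
  refine zetaX_uni f hne d hd hf _ (Finset.mem_coe.2 (Finset.mem_insert_self _ _)) ?_ ?_ h x
  · refine Finset.mem_coe.2 (Finset.mem_insert_of_mem ?_)
    rw [Fintype.card_fin]
    exact Finset.mem_insert_self _ _
  · intro c p hp hc hs
    exact Finset.mem_coe.2 (Finset.mem_insert_of_mem (Finset.mem_insert_of_mem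
      (Finset.mem_union_left _ (Finset.mem_image.2 ⟨c, (hC c).2 ⟨p, hp, hs⟩, rfl⟩))))

/-- **The origin.** -/
theorem hyp_origin (f : J → MvPolynomial (Fin (n + 1)) ℂ) (d : ℕ) (hd : 0 < d)
    (hf : ∀ j, (f j).IsHomogeneous d)
    (hg : ∃ e : Fin (n + 1) → J, (Matrix.of fun s t => pderiv s (f (e t))).det ≠ 0)
    (Q : Finset (Fin n → ℂ)) (T : (Fin n → ℂ) → Finset (ℤ × ℤ))
    (hT : ∀ q ∈ Q, StrongMC (fun j => germ q (f j)) (T q))
    (h : ∀ p : Fin (n + 1) → ℂ, p ≠ 0 → (∀ j, eval p (f j) = 0) → (∃ c, SmoothAt f c p) ∨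
      ∃ q ∈ Q, p 0 ≠ 0 ∧ ∀ i : Fin n, p i.succ = p 0 * q i)
    (C : Finset ℕ) (hC : ∀ c, c ∈ C ↔ ∃ p, p ≠ 0 ∧ SmoothAt f c p) :
    (∀ q ∈ hypPairs (conePairs d C Q T), q.1 < 0 ∧ 0 < q.2 ∧
      (∀ b, IsBFunction (univ f) b → b.eval ((q.1 : ℂ) / q.2) = 0) ∧
      ∀ b, IsLocalBFunction (univ f) b → b.eval ((q.1 : ℂ) / q.2) = 0) ∧
    zetaO (univ f) ∈ ratRing ℂ (hypPairs (conePairs d C Q T) : Set (ℤ × ℤ)) := by
  classical
  have hne := ne_of_det f hg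
  obtain ⟨h1, h2⟩ := cone_forced f d hd hf hg Q T hT h C hC
  refine ⟨hyp_pairs f d hf hne _ h1, ?_⟩
  refine zetaO_uni f _ (Finset.mem_coe.2 (Finset.mem_insert_self _ _)) ?_
  refine rat_mono (Lu ℂ) ?_ h2
  intro q hq
  exact Finset.mem_coe.2 (Finset.mem_insert_of_mem (Finset.mem_coe.1 hq))

end Pool.Agent.Q49.CO
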