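import Pool.Agent.Q49.CO.Vol

set_option autoImplicit false
set_option linter.unusedSectionVars false
set_option linter.unusedVariables false

/-! # The volumes near the points at which the family defines a smooth scheme -/

namespace Pool.Agent.Q49.CO

open MvPolynomial Pool.Agent.W428.MOT Pool.Agent.TH192.MT Pool.Agent.TH192.DT

section taylor

variable {K F : Type} [Field K] [Field F] [Algebra K F] {σ : Type} [Fintype σ]

theorem taylorN (P : MvPolynomial σ K) (m : ℕ) (γ δ : σ → PowerSeries F) (w : σ → F)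
    (h : ∀ i, PowerSeries.X ^ (m + 2) ∣
      γ i - δ i - PowerSeries.C (w i) * PowerSeries.X ^ (m + 1)) :
    PowerSeries.X ^ (m + 2) ∣ aeval γ P - aeval δ P -
      PowerSeries.C (∑ s, aeval (fun i => PowerSeries.coeff 0 (δ i)) (pderiv s P) * w s) *
        PowerSeries.X ^ (m + 1) := by
  classical
  induction P using MvPolynomial.induction_on with
  | C a =>
    simp only [algHom_C, sub_self, pderiv_C, map_zero, zero_mul, Finset.sum_const_zero]
    exact dvd_zero _
  | add p q hp hq =>
    have h1 := dvd_add hp hq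
    simp only [map_add, add_mul, Finset.sum_add_distrib]
    refine h1.trans (dvd_of_eq ?_)
    ring
  | mul_X p i hp =>
    obtain ⟨E, hE⟩ := hp
    obtain ⟨G, hG⟩ := h i
    have hD : (∑ s, aeval (fun i => PowerSeries.coeff 0 (δ i)) (pderiv s (p * X i)) * w s) =
        PowerSeries.coeff 0 (δ i) *
          (∑ s, aeval (fun i => PowerSeries.coeff 0 (δ i)) (pderiv s p) * w s) +
          aeval (fun i => PowerSeries.coeff 0 (δ i)) p * w i := by
      have h2 : ∀ s, aeval (fun i => PowerSeries.coeff 0 (δ i)) (pderiv s (p * X i)) * w s =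
          PowerSeries.coeff 0 (δ i) *
            (aeval (fun i => PowerSeries.coeff 0 (δ i)) (pderiv s p) * w s) +
          (if s = i then aeval (fun i => PowerSeries.coeff 0 (δ i)) p * w s else 0) := by
        intro s
        rw [Derivation.leibniz, smul_eq_mul, smul_eq_mul, map_add, map_mul, map_mul, aeval_X]
        by_cases hs : s = i
        · subst hs
          rw [pderiv_X_self, map_one, if_pos rfl]
          ring
        · rw [pderiv_X_of_ne (fun h => hs h.symm), map_zero, if_neg hs]
          ring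
      simp only [h2, Finset.sum_add_distrib, Finset.mul_sum]
      congr 1
      simp
    set D := ∑ s, aeval (fun i => PowerSeries.coeff 0 (δ i)) (pderiv s p) * w s with hDdef
    set z0 := PowerSeries.coeff 0 (δ i) with hz0
    set p0 := aeval (fun i => PowerSeries.coeff 0 (δ i)) p with hp0
    obtain ⟨B', hB'⟩ : PowerSeries.X ∣ aeval δ p - PowerSeries.C p0 := by
      rw [PowerSeries.X_dvd_iff, map_sub, ← PowerSeries.coeff_zero_eq_constantCoeff_apply,
        ← PowerSeries.coeff_zero_eq_constantCoeff_apply, coeff_zero_aevalK, PowerSeries.coeff_C,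
        if_pos rfl, sub_self]
    obtain ⟨δ', hδ'⟩ : PowerSeries.X ∣ δ i - PowerSeries.C z0 := by
      rw [PowerSeries.X_dvd_iff, map_sub, ← PowerSeries.coeff_zero_eq_constantCoeff_apply,
        ← PowerSeries.coeff_zero_eq_constantCoeff_apply, PowerSeries.coeff_C,
        if_pos rfl, sub_self]
    rw [hD, map_mul, map_mul, aeval_X, aeval_X]
    refine ⟨B' * PowerSeries.C (w i) + aeval δ p * G + PowerSeries.C D * δ' +
      PowerSeries.C D * PowerSeries.C (w i) * PowerSeries.X ^ m +
      PowerSeries.C D * PowerSeries.X ^ (m + 1) * G + E * γ i, ?_⟩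
    rw [map_add, map_mul, map_mul]
    have e1 : aeval γ p = aeval δ p + PowerSeries.C D * PowerSeries.X ^ (m + 1) +
        PowerSeries.X ^ (m + 2) * E := by linear_combination hE
    have e2 : γ i = δ i + PowerSeries.C (w i) * PowerSeries.X ^ (m + 1) +
        PowerSeries.X ^ (m + 2) * G := by linear_combination hG
    have e3 : aeval δ p = PowerSeries.C p0 + PowerSeries.X * B' := by linear_combination hB'
    have e4 : δ i = PowerSeries.C z0 + PowerSeries.X * δ' := by linear_combination hδ'
    rw [e1, e2, e3, e4]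
    ring

theorem coeff_taylor (P : MvPolynomial σ K) (m : ℕ) (γ δ : σ → PowerSeries F) (w : σ → F)
    (h : ∀ i, γ i = δ i + PowerSeries.C (w i) * PowerSeries.X ^ (m + 1)) :
    PowerSeries.coeff (m + 1) (aeval γ P) =
      (∑ s, aeval (fun i => PowerSeries.coeff 0 (δ i)) (pderiv s P) * w s) +
        PowerSeries.coeff (m + 1) (aeval δ P) := by
  have h1 := taylorN P m γ δ w (fun i => by
    rw [h i, add_sub_cancel_left, sub_self]
    exact dvd_zero _)
  rw [PowerSeries.X_pow_dvd_iff] at h1
  have h2 := h1 (m + 1) (by omega)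
  rw [map_sub, map_sub, PowerSeries.coeff_C_mul, PowerSeries.coeff_X_pow, if_pos rfl,
    mul_one] at h2
  linear_combination h2

end taylor

variable {K : Type} [Field K] {σ J : Type} [Fintype σ] [Finite J]
variable {R : Type} [CommRing R] (M : Meas K R)

/-- The `g t` vanish on `W` and their differentials are independent there. -/
def Indep {c : ℕ} (g : Fin c → MvPolynomial σ K) (W : Set (Pt K σ)) : Prop :=
  ∀ z ∈ W, (∀ t, aeval z (g t) = 0) ∧
    ∀ l : Fin c → AlgebraicClosure K, (∀ s, ∑ t, l t * aeval z (pderiv s (g t)) = 0) →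
      ∀ t, l t = 0

theorem chi_step {c : ℕ} (g : Fin c → MvPolynomial σ K) {W : Set (Pt K σ)} (hW : Constr W)
    (hI : Indep g W) (k m : ℕ) (hkm : k + 1 ≤ m) :
    M.χ _ (GW g W (k + 2) m) * M.L ^ c = M.χ _ (GW g W (k + 1) m) := by
  classical
  set s' : Fin (m + 1) := ⟨k + 1, by omega⟩ with hs'
  set C : Finset (σ × Fin (m + 1)) := Finset.univ.image (fun s => (s, s')) with hC
  have hmC : ∀ p, p ∈ C ↔ p.2 = s' := by
    intro p
    rw [hC, Finset.mem_image]
    constructor
    · rintro ⟨v, _, rfl⟩
      rfl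
    · intro h
      exact ⟨p.1, Finset.mem_univ _, Prod.ext rfl h.symm⟩
  have h0s : (0 : Fin (m + 1)) ≠ s' := by
    intro h
    have := congrArg Fin.val h
    simp [hs'] at this
  set zr : Pt K (σ × Fin (m + 1)) → Pt K (σ × Fin (m + 1)) := fun z q =>
    if q.2 = s' then 0 else z q with hzr
  set D : Fin c → (σ × Fin (m + 1)) → Pt K (σ × Fin (m + 1)) → AlgebraicClosure K :=
    fun t q z => aeval (fun i => z (i, 0)) (pderiv q.1 (g t)) with hD
  set H : Fin c → Pt K (σ × Fin (m + 1)) → AlgebraicClosure K :=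
    fun t z => PowerSeries.coeff (k + 1) (aeval (ar (zr z)) (g t)) with hH
  have hcoef : ∀ (z : Pt K (σ × Fin (m + 1))) t,
      PowerSeries.coeff (k + 1) (aeval (ar z) (g t)) = ∑ q ∈ C, D t q z * z q + H t z := by
    intro z t
    rw [coeff_taylor (g t) k (ar z) (ar (zr z)) (fun i => z (i, s'))]
    · rw [hC, Finset.sum_image (fun a _ b _ h => (Prod.mk.inj h).1)]
      congr 1
      refine Finset.sum_congr rfl fun s _ => ?_
      simp only [hD]
      congr 3
      funext i
      rw [coeff_ar_zero]
      simp only [hzr]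
      rw [if_neg h0s]
    · intro i
      ext j
      rw [map_add, PowerSeries.coeff_C_mul, PowerSeries.coeff_X_pow, coeff_ar, coeff_ar]
      by_cases hj : j < m + 1
      · rw [dif_pos hj, dif_pos hj]
        simp only [hzr]
        by_cases hjk : j = k + 1
        · subst hjk
          rw [if_pos rfl, if_pos rfl, zero_add, mul_one]
        · rw [if_neg, if_neg hjk, mul_zero, add_zero]
          intro h
          apply hjk
          have := congrArg Fin.val h
          simpa [hs'] using this
      · rw [dif_neg hj, dif_neg hj, if_neg (by omega), mul_zero, add_zero]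
  have key := sLin' M C c (GW g W (k + 1) m) D H (constr_GW g hW _ _) ?_ ?_ ?_ ?_
  · rw [← key]
    congr 2
    ext z
    rw [Set.mem_inter_iff, mem_GW, mem_GW]
    constructor
    · rintro ⟨h1, h2⟩
      refine ⟨⟨h1, fun t => vn_mono (h2 t) (by omega)⟩, fun t => ?_⟩
      rw [← hcoef]
      exact h2 t (k + 1) (by omega)
    · rintro ⟨⟨h1, h2⟩, h3⟩
      refine ⟨h1, fun t j hj => ?_⟩
      rcases Nat.lt_or_ge j (k + 1) with h4 | h4
      · exact h2 t j h4
      · have h5 : j = k + 1 := by omega
        subst h5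
        rw [hcoef]
        exact h3 t
  · intro t q
    exact (IsPF.poly (pderiv q.1 (g t))).comp (fun (z : Pt K (σ × Fin (m + 1))) (i : σ) =>
      z (i, 0)) fun i => IsPF.coord _
  · intro t
    refine pf_coeffK (fun z => zr z) (fun q => ?_) _ _
    simp only [hzr]
    by_cases h : q.2 = s'
    · simp only [if_pos h]
      exact IsPF.zero
    · simp only [if_neg h]
      exact IsPF.coord q
  · intro z w hzw
    have h1 : ∀ i, w (i, 0) = z (i, 0) := fun i => hzw _ fun hc => h0s ((hmC _).1 hc)
    have h2 : ∀ i, Cg k (ar w i) (ar z i) := by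
      intro i j hj
      rw [coeff_ar, coeff_ar, dif_pos (by omega), dif_pos (by omega)]
      refine hzw _ fun hc => ?_
      have := congrArg Fin.val ((hmC _).1 hc)
      simp [hs'] at this
      omega
    refine ⟨?_, ?_, ?_⟩
    · rintro ⟨h3, h4⟩
      refine ⟨?_, fun t => (vn_congr' (cg_aevalK _ k _ _ h2) le_rfl).2 (h4 t)⟩
      have : (fun i => w (i, 0)) = fun i => z (i, 0) := funext h1
      rw [this]
      exact h3
    · intro t q
      simp only [hD]
      congr 2
      funext i
      exact h1 i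
    · intro t
      simp only [hH]
      have h5 : zr w = zr z := by
        funext q
        simp only [hzr]
        by_cases h : q.2 = s'
        · rw [if_pos h, if_pos h]
        · rw [if_neg h, if_neg h]
          exact hzw q fun hc => h ((hmC q).1 hc)
      rw [h5]
  · rintro z ⟨h1, h2⟩ l hl t
    refine (hI _ h1).2 l (fun s => ?_) t
    have h3 := hl (s, s') ((hmC _).2 rfl)
    simpa only [hD] using h3

theorem GW_one {c : ℕ} (g : Fin c → MvPolynomial σ K) {W : Set (Pt K σ)} (hI : Indep g W)
    (m : ℕ) : GW g W 1 m = GW g W 0 m := by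
  ext z
  rw [mem_GW, mem_GW]
  constructor
  · rintro ⟨h1, h2⟩
    exact ⟨h1, fun t => vn_mono (h2 t) (Nat.zero_le _)⟩
  · rintro ⟨h1, h2⟩
    refine ⟨h1, fun t j hj => ?_⟩
    have h3 : j = 0 := by omega
    subst h3
    rw [coeff_zero_aevalK]
    have := (hI _ h1).1 t
    rw [← this]
    congr 2
    funext i
    rw [coeff_ar_zero]

variable {v : R} (hv : M.L * v = 1)
include hv

theorem vol_smooth {c : ℕ} (g : Fin c → MvPolynomial σ K) {W : Set (Pt K σ)} (hW : Constr W)
    (hI : Indep g W) (N : ℕ) :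
    vol M v g W (N + 1) = M.χ σ W * v ^ Fintype.card σ * (v ^ c) ^ N := by
  induction N with
  | zero =>
    rw [pow_zero, mul_one, ← vol_zero M hv g hW, ← vol_eq M hv g hW 1 0 (by omega),
      ← vol_eq M hv g hW 0 0 (by omega), GW_one g hI]
  | succ N ih =>
    rw [pow_succ, ← mul_assoc, ← ih]
    have h1 := chi_step M g hW hI N (N + 1) (by omega)
    rw [← vol_eq M hv g hW (N + 1 + 1) (N + 1) (by omega),
      ← vol_eq M hv g hW (N + 1) (N + 1) (by omega), ← h1]
    have h2 : M.L ^ c * v ^ c = 1 := by rw [← mul_pow, hv, one_pow]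
    linear_combination (-(M.χ _ (GW g W (N + 2) (N + 1)) *
      v ^ (Fintype.card σ * (N + 1 + 1)))) * h2

omit hv in
/-- the order is computed with generators -/
theorem GW_gen {c : ℕ} (f : J → MvPolynomial σ K) (e : Fin c → J) {W : Set (Pt K σ)}
    (h : ∀ z ∈ W, ∃ w : MvPolynomial σ K, aeval z w ≠ 0 ∧
      ∀ j, w * f j ∈ Ideal.span (Set.range fun t => f (e t))) (N m : ℕ) :
    GW f W N m = GW (fun t => f (e t)) W N m := by
  ext z
  rw [mem_GW, mem_GW]
  refine and_congr_right fun h1 => ⟨fun h2 t => h2 (e t), fun h2 j => ?_⟩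
  obtain ⟨w, hw, hj⟩ := h _ h1
  obtain ⟨a, ha⟩ := Ideal.mem_span_range_iff_exists_fun.1 (hj j)
  have h3 : PowerSeries.coeff 0 (aeval (ar z) w) ≠ 0 := by
    rw [coeff_zero_aevalK]
    intro h4
    apply hw
    rw [← h4]
    congr 2
    funext i
    rw [coeff_ar_zero]
  rw [← vn_unit h3, ← map_mul, ← ha, map_sum]
  refine vn_sum _ _ fun t _ => ?_
  rw [map_mul]
  exact vn_mul _ (h2 t)

theorem ZW_smooth {c : ℕ} (f : J → MvPolynomial σ K) (e : Fin c → J) {W : Set (Pt K σ)}
    (hW : Constr W) (hI : Indep (fun t => f (e t)) W)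
    (h : ∀ z ∈ W, ∃ w : MvPolynomial σ K, aeval z w ≠ 0 ∧
      ∀ j, w * f j ∈ Ideal.span (Set.range fun t => f (e t))) :
    ZW M v f W = PowerSeries.C (M.χ σ W * v ^ Fintype.card σ * (1 - v ^ c)) * PowerSeries.X +
      PowerSeries.C (v ^ c) * PowerSeries.X ^ 1 * ZW M v f W := by
  have h0 : ∀ N, vol M v f W N = vol M v (fun t => f (e t)) W N := by
    intro N
    unfold vol
    rw [GW_gen f e h]
  have h1 : ∀ N, vol M v f W (N + 1) = M.χ σ W * v ^ Fintype.card σ * (v ^ c) ^ N :=
    fun N => by rw [h0, vol_smooth M hv _ hW hI]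
  have h2 : vol M v f W 0 = M.χ σ W * v ^ Fintype.card σ := vol_zero M hv f hW
  ext N
  have e1 : PowerSeries.C (v ^ c) * PowerSeries.X ^ 1 * ZW M v f W =
      PowerSeries.C (v ^ c) * (PowerSeries.X * ZW M v f W) := by rw [pow_one, mul_assoc]
  rw [e1, map_add, PowerSeries.coeff_C_mul, PowerSeries.coeff_C_mul]
  rcases N with _ | N
  · rw [PowerSeries.coeff_zero_X_mul, mul_zero, add_zero, PowerSeries.coeff_zero_X, mul_zero]
    simp only [ZW, PowerSeries.coeff_mk]
    rw [h1 0, h2, pow_zero, mul_one, sub_self]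
  · rw [PowerSeries.coeff_succ_X_mul, PowerSeries.coeff_X]
    simp only [ZW, PowerSeries.coeff_mk]
    rcases N with _ | N
    · rw [if_pos rfl, h1 0, h1 1, h2, pow_zero, pow_one]
      ring
    · rw [if_neg (by omega), mul_zero, zero_add, h1 (N + 1), h1 (N + 1 + 1), h1 N]
      ring

end Pool.Agent.Q49.CO
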