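import Pool.Agent.Q49.CO.Sm
import Pool.Agent.Q49.CO.Line
import Pool.Agent.TH192.MT.Top

set_option autoImplicit false
set_option linter.unusedSectionVars false
set_option linter.unusedVariables false

/-! # The strata of the smooth points, and the motivic zeta function of a cone -/

namespace Pool.Agent.Q49.CO

open MvPolynomial Pool.Agent.W428.MOT Pool.Agent.TH192.MT Pool.Agent.TH192.DT

section pts

variable {σ : Type}

theorem exists_pt (z : Pt ℂ σ) :
    ∃ p : σ → ℂ, z = fun i => algebraMap ℂ (AlgebraicClosure ℂ) (p i) := by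
  have h := IsAlgClosed.algebraMap_bijective_of_isIntegral (k := ℂ) (K := AlgebraicClosure ℂ)
  choose p hp using fun i => h.2 (z i)
  exact ⟨p, funext fun i => (hp i).symm⟩

theorem aeval_pt (p : σ → ℂ) (P : MvPolynomial σ ℂ) :
    aeval (fun i => algebraMap ℂ (AlgebraicClosure ℂ) (p i)) P =
      algebraMap ℂ (AlgebraicClosure ℂ) (eval p P) := by
  exact MvPolynomial.aeval_algebraMap_apply (AlgebraicClosure ℂ) p P

theorem aeval_pt_zero (p : σ → ℂ) (P : MvPolynomial σ ℂ) :
    aeval (fun i => algebraMap ℂ (AlgebraicClosure ℂ) (p i)) P = 0 ↔ eval p P = 0 := by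
  rw [aeval_pt]
  exact map_eq_zero_iff _ (algebraMap ℂ (AlgebraicClosure ℂ)).injective

theorem pt_ne_zero (p : σ → ℂ) (h : (fun i => algebraMap ℂ (AlgebraicClosure ℂ) (p i)) ≠ 0) :
    p ≠ 0 := by
  rintro rfl
  apply h
  funext i
  exact map_zero _

end pts

section strat

variable {σ J : Type} [Fintype σ] [Finite J]

/-- `w f_j` is in the ideal for all `j` -/
def colonI (I : Ideal (MvPolynomial σ ℂ)) (f : J → MvPolynomial σ ℂ) :
    Ideal (MvPolynomial σ ℂ) where
  carrier := {w | ∀ j, w * f j ∈ I}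
  zero_mem' := fun j => by rw [zero_mul]; exact I.zero_mem
  add_mem' := fun ha hb j => by rw [add_mul]; exact I.add_mem (ha j) (hb j)
  smul_mem' := fun c a ha j => by
    rw [smul_eq_mul, mul_assoc]
    exact I.mul_mem_left _ (ha j)

theorem exists_gen (I : Ideal (MvPolynomial σ ℂ)) (f : J → MvPolynomial σ ℂ) :
    ∃ G : Finset (MvPolynomial σ ℂ), (∀ g ∈ G, ∀ j, g * f j ∈ I) ∧
      ∀ (z : Pt ℂ σ) (w : MvPolynomial σ ℂ), (∀ j, w * f j ∈ I) → aeval z w ≠ 0 →
        ∃ g ∈ G, aeval z g ≠ 0 := by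
  obtain ⟨G, hG⟩ := (inferInstance : IsNoetherianRing (MvPolynomial σ ℂ)).noetherian (colonI I f)
  refine ⟨G, fun g hg => ?_, fun z w hw hz => ?_⟩
  · have : g ∈ colonI I f := by
      rw [← hG]
      exact Submodule.subset_span hg
    exact this
  · by_contra h
    push Not at h
    apply hz
    have h1 : colonI I f ≤ RingHom.ker (aeval z : MvPolynomial σ ℂ →ₐ[ℂ] AlgebraicClosure ℂ) := by
      rw [← hG]
      exact Submodule.span_le.2 fun g hg => h g hg
    exact h1 hw

/-- the stratum -/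
def St (f : J → MvPolynomial σ ℂ) (G : Finset (MvPolynomial σ ℂ)) (c : ℕ) (e : Fin c → J)
    (s : Fin c → σ) : Set (Pt ℂ σ) :=
  {z | (∀ t, aeval z (f (e t)) = 0) ∧
    aeval z (Matrix.of fun u t => pderiv (s u) (f (e t))).det ≠ 0 ∧ ∃ g ∈ G, aeval z g ≠ 0}

theorem constr_St (f : J → MvPolynomial σ ℂ) (G : Finset (MvPolynomial σ ℂ)) (c : ℕ)
    (e : Fin c → J) (s : Fin c → σ) : Constr (St f G c e s) :=
  Constr.and (Constr.all fun t => Constr.eqz (IsPF.poly _))
    (Constr.and (Constr.not (Constr.eqz (IsPF.poly _)))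
      (Constr.bexFinset _ fun g _ => Constr.not (Constr.eqz (IsPF.poly _))))

theorem det_aeval {A : Type} [CommRing A] [Algebra ℂ A] {c : ℕ} (z : σ → A)
    (m : Fin c → Fin c → MvPolynomial σ ℂ) :
    aeval z (Matrix.of m).det = (Matrix.of fun u t => aeval z (m u t)).det := by
  have := AlgHom.map_det (aeval z : MvPolynomial σ ℂ →ₐ[ℂ] A) (Matrix.of m)
  rw [this]
  rfl

theorem indep_St (f : J → MvPolynomial σ ℂ) (G : Finset (MvPolynomial σ ℂ)) (c : ℕ)
    (e : Fin c → J) (s : Fin c → σ) (W : Set (Pt ℂ σ)) (hW : W ⊆ St f G c e s) :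
    Indep (fun t => f (e t)) W := by
  intro z hz
  obtain ⟨h1, h2, h3⟩ := hW hz
  refine ⟨h1, fun l hl t => ?_⟩
  rw [det_aeval] at h2
  have h4 := Matrix.eq_zero_of_mulVec_eq_zero h2 (v := l) (by
    funext u
    have := hl (s u)
    rw [Pi.zero_apply, ← this]
    change ∑ t, aeval z (pderiv (s u) (f (e t))) * l t = _
    refine Finset.sum_congr rfl fun t _ => ?_
    exact mul_comm _ _)
  rw [h4]
  rfl

theorem smooth_of_St (f : J → MvPolynomial σ ℂ) (G : Finset (MvPolynomial σ ℂ)) (c : ℕ)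
    (e : Fin c → J) (s : Fin c → σ)
    (hG : ∀ g ∈ G, ∀ j, g * f j ∈ Ideal.span (Set.range fun t => f (e t))) (p : σ → ℂ)
    (hp : (fun i => algebraMap ℂ (AlgebraicClosure ℂ) (p i)) ∈ St f G c e s) :
    SmoothAt f c p := by
  obtain ⟨h1, h2, g, hg, h3⟩ := hp
  rw [Ne, aeval_pt_zero] at h2 h3
  refine ⟨e, s, g, h3, fun t => (aeval_pt_zero p _).1 (h1 t), hG g hg, ?_⟩
  intro h4
  apply h2
  have h5 := det_aeval (A := ℂ) p fun u t => pderiv (s u) (f (e t))
  exact h5.trans h4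

end strat

end Pool.Agent.Q49.CO
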