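import Pool.Agent.TH192.MT.YP

set_option autoImplicit false
set_option linter.unusedSectionVars false
set_option linter.unusedVariables false

/-! # Volumes of sets of jets on which a family of polynomials has at least a given order -/

namespace Pool.Agent.Q49.CO

open MvPolynomial Pool.Agent.W428.MOT Pool.Agent.TH192.MT Pool.Agent.TH192.DT

section ser

variable {K F : Type} [Field K] [Field F] [Algebra K F] {σ : Type}

theorem cg_aevalK (P : MvPolynomial σ K) (q : ℕ) (γ δ : σ → PowerSeries F)
    (h : ∀ i, Cg q (γ i) (δ i)) : Cg q (aeval γ P) (aeval δ P) := by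
  induction P using MvPolynomial.induction_on with
  | C a =>
    intro k _
    simp only [algHom_C]
  | add p q hp hq =>
    intro k hk
    simp only [map_add, hp k hk, hq k hk]
  | mul_X p i hp =>
    intro k hk
    simp only [map_mul, aeval_X, PowerSeries.coeff_mul]
    refine Finset.sum_congr rfl fun ab hab => ?_
    have := Finset.HasAntidiagonal.mem_antidiagonal.1 hab
    rw [hp ab.1 (by omega), h i ab.2 (by omega)]

theorem coeff_zero_aevalK (P : MvPolynomial σ K) (γ : σ → PowerSeries F) :
    PowerSeries.coeff 0 (aeval γ P) = aeval (fun i => PowerSeries.coeff 0 (γ i)) P := by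
  induction P using MvPolynomial.induction_on with
  | C a =>
    rw [algHom_C, algHom_C, PowerSeries.algebraMap_apply, PowerSeries.coeff_C, if_pos rfl]
  | add p q hp hq => rw [map_add, map_add, hp, hq, map_add]
  | mul_X p i hp =>
    rw [map_mul, aeval_X, map_mul (aeval fun i => PowerSeries.coeff 0 (γ i)), aeval_X, ← hp]
    simp only [PowerSeries.coeff_zero_eq_constantCoeff_apply, map_mul]

theorem vn_congr' {N q : ℕ} {a b : PowerSeries F} (h : Cg q a b) (hN : N ≤ q + 1) :
    Vn N a ↔ Vn N b := by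
  unfold Vn
  refine forall₂_congr fun j hj => ?_
  rw [h j (by omega)]

theorem vn_mono {N N' : ℕ} {a : PowerSeries F} (h : Vn N' a) (hN : N ≤ N') : Vn N a :=
  fun j hj => h j (by omega)

theorem vn_unit {N : ℕ} {u a : PowerSeries F} (hu : PowerSeries.coeff 0 u ≠ 0) :
    Vn N (u * a) ↔ Vn N a := by
  rw [vn_iff, vn_iff]
  refine IsUnit.dvd_mul_left ?_
  rw [PowerSeries.isUnit_iff_constantCoeff, ← PowerSeries.coeff_zero_eq_constantCoeff_apply]
  exact isUnit_iff_ne_zero.2 hu

end ser

variable {K : Type} [Field K] {σ J : Type}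

theorem pf_coeffK {κ : Type} {N : ℕ} (φ : Pt K κ → σ × Fin (N + 1) → AlgebraicClosure K)
    (hφ : ∀ i, IsPF fun z => φ z i) (P : MvPolynomial σ K) (j : ℕ) :
    IsPF (fun z : Pt K κ => PowerSeries.coeff j (aeval (ar (φ z)) P)) := by
  revert j
  induction P using MvPolynomial.induction_on with
  | C a =>
    intro j
    simp only [algHom_C, PowerSeries.algebraMap_apply, PowerSeries.coeff_C]
    split_ifs
    · exact IsPF.const a
    · exact IsPF.zero
  | add p q hp hq =>
    intro j
    simp only [map_add]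
    exact (hp j).add (hq j)
  | mul_X p i hp =>
    intro j
    simp only [map_mul, aeval_X, PowerSeries.coeff_mul]
    refine IsPF.sum _ _ fun q _ => (hp q.1).mul ?_
    simp only [coeff_ar]
    split_ifs
    · exact hφ _
    · exact IsPF.zero

/-- The jets of level `M` with origin in `W` on which the family has order at least `N`. -/
def GW (f : J → MvPolynomial σ K) (W : Set (Pt K σ)) (N M : ℕ) :
    Set (Pt K (σ × Fin (M + 1))) :=
  {z | (fun i => z (i, 0)) ∈ W ∧ ∀ j, Vn N (aeval (ar z) (f j))}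

theorem mem_GW (f : J → MvPolynomial σ K) (W : Set (Pt K σ)) (N M : ℕ)
    (z : Pt K (σ × Fin (M + 1))) :
    z ∈ GW f W N M ↔ (fun i => z (i, 0)) ∈ W ∧ ∀ j, Vn N (aeval (ar z) (f j)) := Iff.rfl

theorem constr_GW [Finite J] (f : J → MvPolynomial σ K) {W : Set (Pt K σ)} (hW : Constr W)
    (N M : ℕ) : Constr (GW f W N M) := by
  refine Constr.and (hW.preimage (fun (z : Pt K (σ × Fin (M + 1))) (i : σ) => z (i, 0))
    fun i => IsPF.coord _) ?_
  refine Constr.all fun j => Constr.allLt _ fun k _ => Constr.eqz ?_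
  exact pf_coeffK (fun z => z) (fun i => IsPF.coord _) _ _

/-- adding a coordinate of every jet -/
def eL (σ : Type) (N : ℕ) : (σ × Fin (N + 1)) ⊕ σ ≃ σ × Fin (N + 2) where
  toFun := fun x => match x with
    | Sum.inl q => (q.1, q.2.castSucc)
    | Sum.inr i => (i, Fin.last _)
  invFun := fun (i, j) => Fin.lastCases (motive := fun _ => (σ × Fin (N + 1)) ⊕ σ)
        (Sum.inr i) (fun j => Sum.inl (i, j)) j
  left_inv := by
    rintro (⟨i, j⟩ | i)
    · simp only [Fin.lastCases_castSucc]
    · simp only [Fin.lastCases_last]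
  right_inv := by
    rintro ⟨i, j⟩
    refine Fin.lastCases ?_ (fun j => ?_) j
    · simp only [Fin.lastCases_last]
    · simp only [Fin.lastCases_castSucc]

variable {R : Type} [CommRing R] (M : Meas K R) [Fintype σ] [Finite J]

theorem chi_lev (f : J → MvPolynomial σ K) {W : Set (Pt K σ)} (hW : Constr W) (N m : ℕ)
    (hN : N ≤ m + 1) :
    M.χ _ (GW f W N (m + 1)) = M.χ _ (GW f W N m) * M.L ^ Fintype.card σ := by
  refine chi_split M (eL σ m) _ _ (constr_GW f hW N m) fun z => ?_
  have h1 : ∀ i, Cg m (ar z i) (ar (N := m) (fun x => z (eL σ m (Sum.inl x))) i) := by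
    intro i k hk
    rw [coeff_ar, coeff_ar, dif_pos (by omega), dif_pos (by omega)]
    rfl
  rw [mem_GW, mem_GW]
  refine and_congr Iff.rfl (forall_congr' fun j => ?_)
  exact vn_congr' (cg_aevalK _ m _ _ h1) hN

variable (v : R)

/-- The normalised volume of the arcs with origin in `W` on which the family has order at least
`N`. -/
noncomputable def vol (f : J → MvPolynomial σ K) (W : Set (Pt K σ)) (N : ℕ) : R :=
  M.χ _ (GW f W N N) * v ^ (Fintype.card σ * (N + 1))

variable {v} (hv : M.L * v = 1)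
include hv

theorem lev_add (f : J → MvPolynomial σ K) {W : Set (Pt K σ)} (hW : Constr W) (N m : ℕ)
    (hN : N ≤ m + 1) (k : ℕ) :
    M.χ _ (GW f W N (m + k)) * v ^ (Fintype.card σ * (m + k + 1)) =
      M.χ _ (GW f W N m) * v ^ (Fintype.card σ * (m + 1)) := by
  induction k with
  | zero => rfl
  | succ k ih =>
    rw [← ih]
    have h2 : m + (k + 1) = (m + k) + 1 := by ring
    rw [h2, chi_lev M f hW N (m + k) (by omega), mul_add (Fintype.card σ) (m + k + 1) 1, pow_add,
      mul_one]
    have h3 : M.L ^ Fintype.card σ * v ^ Fintype.card σ = 1 := by rw [← mul_pow, hv, one_pow]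
    linear_combination (M.χ _ (GW f W N (m + k)) * v ^ (Fintype.card σ * (m + k + 1))) * h3

theorem vol_eq (f : J → MvPolynomial σ K) {W : Set (Pt K σ)} (hW : Constr W) (N m : ℕ)
    (hN : N ≤ m + 1) :
    M.χ _ (GW f W N m) * v ^ (Fintype.card σ * (m + 1)) = vol M v f W N := by
  unfold vol
  rcases le_total N m with h | h
  · obtain ⟨k, rfl⟩ := Nat.exists_eq_add_of_le h
    exact lev_add M hv f hW N N (by omega) k
  · obtain ⟨k, rfl⟩ := Nat.exists_eq_add_of_le h
    exact (lev_add M hv f hW (m + k) m hN k).symm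

omit hv in
theorem vol_add (f : J → MvPolynomial σ K) {W W' : Set (Pt K σ)} (hW : Constr W)
    (hW' : Constr W') (hd : Disjoint W W') (N : ℕ) :
    vol M v f (W ∪ W') N = vol M v f W N + vol M v f W' N := by
  have h1 : GW f (W ∪ W') N N = GW f W N N ∪ GW f W' N N := by
    ext z
    rw [Set.mem_union, mem_GW, mem_GW, mem_GW, Set.mem_union, or_and_right]
  have h2 : Disjoint (GW f W N N) (GW f W' N N) := by
    rw [Set.disjoint_left] at hd ⊢
    intro z hz hz'
    exact hd hz.1 hz'.1
  unfold vol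
  rw [h1, M.add _ _ (constr_GW f hW _ _) (constr_GW f hW' _ _) h2, add_mul]

omit hv in
/-- The local zeta function with the normalised volumes. -/
noncomputable def ZW (M : Meas K R) (v : R) (f : J → MvPolynomial σ K) (W : Set (Pt K σ)) :
    PowerSeries R :=
  PowerSeries.mk fun N => vol M v f W N - vol M v f W (N + 1)

omit hv in
theorem ZW_add (f : J → MvPolynomial σ K) {W W' : Set (Pt K σ)} (hW : Constr W)
    (hW' : Constr W') (hd : Disjoint W W') :
    ZW M v f (W ∪ W') = ZW M v f W + ZW M v f W' := by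
  ext N
  rw [map_add]
  simp only [ZW, PowerSeries.coeff_mk, vol_add M f hW hW' hd]
  ring

omit hv in
theorem vol_empty (f : J → MvPolynomial σ K) (N : ℕ) : vol M v f ∅ N = 0 := by
  have h1 : GW f ∅ N N = ∅ := by
    rw [Set.eq_empty_iff_forall_notMem]
    intro z hz
    exact hz.1
  unfold vol
  rw [h1, Pool.Agent.W375.MT.chi_empty, zero_mul]

omit hv in
theorem ZW_empty (f : J → MvPolynomial σ K) : ZW M v f ∅ = 0 := by
  ext N
  simp only [ZW, PowerSeries.coeff_mk, vol_empty, sub_zero, map_zero]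

theorem vol_zero (f : J → MvPolynomial σ K) {W : Set (Pt K σ)} (hW : Constr W) :
    vol M v f W 0 = M.χ σ W * v ^ Fintype.card σ := by
  unfold vol
  have h0 : Fintype.card σ * (0 + 1) = Fintype.card σ := by ring
  rw [h0]
  congr 1
  refine M.iso _ _ (constr_GW f hW 0 0) hW (fun z i => z (i, 0)) (fun w q => w q.1)
    (regularOn_poly (fun i => IsPF.coord _) _) (regularOn_poly (fun i => IsPF.coord _) _) ?_ ?_ ?_ ?_
  · intro z hz
    exact hz.1
  · intro w hw
    exact ⟨hw, fun j k hk => absurd hk (Nat.not_lt_zero k)⟩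
  · intro z _
    funext ⟨i, j⟩
    change z (i, 0) = z (i, j)
    rw [Fin.fin_one_eq_zero j]
  · intro w _
    rfl

/-- away from the zeros -/
theorem vol_off (f : J → MvPolynomial σ K) {W : Set (Pt K σ)}
    (h : ∀ w ∈ W, ∃ j, aeval w (f j) ≠ 0) (N : ℕ) : vol M v f W (N + 1) = 0 := by
  have h1 : GW f W (N + 1) (N + 1) = ∅ := by
    rw [Set.eq_empty_iff_forall_notMem]
    intro z hz
    obtain ⟨j, hj⟩ := h _ hz.1
    apply hj
    have h2 := hz.2 j 0 (Nat.succ_pos N)
    rw [coeff_zero_aevalK] at h2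
    rw [← h2]
    congr 2
    funext i
    rw [coeff_ar_zero]
  unfold vol
  rw [h1, Pool.Agent.W375.MT.chi_empty, zero_mul]

theorem ZW_off (f : J → MvPolynomial σ K) {W : Set (Pt K σ)} (hW : Constr W)
    (h : ∀ w ∈ W, ∃ j, aeval w (f j) ≠ 0) :
    ZW M v f W = PowerSeries.C (M.χ σ W * v ^ Fintype.card σ) := by
  ext N
  simp only [ZW, PowerSeries.coeff_mk, vol_off M hv f h, sub_zero, PowerSeries.coeff_C]
  rcases Nat.eq_zero_or_pos N with rfl | hN
  · rw [if_pos rfl, vol_zero M hv f hW]
  · obtain ⟨m, rfl⟩ := Nat.exists_eq_succ_of_ne_zero hN.ne'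
    rw [if_neg (Nat.succ_ne_zero m)]
    exact vol_off M hv f h m

end Pool.Agent.Q49.CO
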